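import Pool.Agent.Work.MP_5955e5_nt.A.Cx
import Pool.Agent.Work.MP_5955e5_nt.QDefs

/-!
# Cell RV, block (a), step A6: the value of `x` at the CM point

`lxq w0 = 0`: with `X(q) = q ∏ (1+q^n)^6 (1+q^(3n))^6` one has `X(q) X(-q) = -X(q^2)` and, for
`Re y > 0`, `X(e^(-2 π y)) X(e^(-2 π / (6 y))) = 1/64`. At `y = w0 / 2 + i / 4` the second factor
is the conjugate point.
-/

set_option autoImplicit false

namespace Pool.Agent.RV.A

open Filter Topology Complex
open Pool.RV (pinf w0 lxq)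

/-- `∏ (1 - q^(2n+1))` -/
noncomputable def PO (q : ℂ) : ℂ := ∏' n : ℕ, (1 - q ^ (2 * n + 1))

lemma mult_odd_sub {q : ℂ} (h : ‖q‖ < 1) : Multipliable fun n : ℕ => 1 - q ^ (2 * n + 1) := by
  have hs : Summable fun n : ℕ => ‖-q ^ (2 * n + 1)‖ := by
    simp only [norm_neg, norm_pow]
    have h2 := summable_geometric_of_lt_one (norm_nonneg q) h
    exact h2.comp_injective (i := fun n : ℕ => 2 * n + 1) (fun a b hab => by simpa using hab)
  have := multipliable_one_add_of_summable hs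
  simpa [sub_eq_add_neg] using this

lemma PO_mul {q : ℂ} (h : ‖q‖ < 1) : PO q * PC (q ^ 2) = PC q := by
  have h2 := norm_pow_lt h two_ne_zero
  have e1 : (fun k : ℕ => 1 - q ^ (2 * k + 1 + 1)) = fun k : ℕ => 1 - (q ^ 2) ^ (k + 1) := by
    ext k
    rw [← pow_mul]
    ring_nf
  have := tprod_even_mul_odd (f := fun n : ℕ => 1 - q ^ (n + 1)) (mult_odd_sub h)
    (by rw [e1]; exact mult_sub h2)
  rw [e1] at this
  exact this

lemma PO_neg {q : ℂ} (h : ‖q‖ < 1) : PO q * PO (-q) = PO (q ^ 2) := by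
  have hn : ‖-q‖ < 1 := by rwa [norm_neg]
  unfold PO
  rw [← (mult_odd_sub h).tprod_mul (mult_odd_sub hn)]
  congr 1
  ext n
  rw [neg_pow, Odd.neg_one_pow ⟨n, rfl⟩, ← pow_mul]
  ring

lemma QC_neg {q : ℂ} (h : ‖q‖ < 1) : QC q * QC (-q) = QC (q ^ 2) := by
  have hn : ‖-q‖ < 1 := by rwa [norm_neg]
  have h2 := norm_pow_lt h two_ne_zero
  have h4 : ‖(q ^ 2) ^ 2‖ < 1 := norm_pow_lt h2 two_ne_zero
  rw [QC_eq h, QC_eq hn, QC_eq h2, neg_sq, div_mul_div_comm,
    div_eq_div_iff (mul_ne_zero (PC_ne_zero h) (PC_ne_zero hn)) (PC_ne_zero h2)]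
  have a1 := PO_mul h
  have a2 := PO_mul hn
  have a3 := PO_mul h2
  have a4 := PO_neg h
  rw [neg_sq] at a2
  rw [← a1, ← a2]
  calc PC (q ^ 2) * PC (q ^ 2) * PC (q ^ 2)
      = PC (q ^ 2) * PC (q ^ 2) * (PO (q ^ 2) * PC ((q ^ 2) ^ 2)) := by rw [a3]
    _ = PC ((q ^ 2) ^ 2) * (PO q * PC (q ^ 2) * (PO (-q) * PC (q ^ 2))) := by
        rw [← a4]; ring

lemma XC_neg {q : ℂ} (h : ‖q‖ < 1) : XC q * XC (-q) = -XC (q ^ 2) := by
  have h3 := norm_pow_lt h three_ne_zero
  have e : (-q) ^ 3 = -q ^ 3 := by ring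
  have e2 : (q ^ 2) ^ 3 = (q ^ 3) ^ 2 := by ring
  unfold XC
  rw [e, e2, ← QC_neg h, ← QC_neg h3]
  ring

/-- the half plane -/
def HP : Set ℂ := {z : ℂ | 0 < z.re}

lemma isOpen_HP : IsOpen HP := isOpen_lt continuous_const Complex.continuous_re

lemma convex_HP : Convex ℝ HP := by
  have : HP = Complex.reLm ⁻¹' (Set.Ioi 0) := by
    ext z
    simp [HP]
  rw [this]
  exact (convex_Ioi 0).linear_preimage _

noncomputable def qz (z : ℂ) : ℂ := exp (-(2 * Real.pi * z))

lemma norm_qz {z : ℂ} (hz : z ∈ HP) : ‖qz z‖ < 1 := by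
  unfold qz
  rw [Complex.norm_exp]
  have : (-(2 * (Real.pi : ℂ) * z)).re = -(2 * Real.pi * z.re) := by
    simp
  rw [this]
  have h1 : (0 : ℝ) < z.re := hz
  have : 0 < 2 * Real.pi * z.re := by positivity
  rw [← Real.exp_zero]
  exact Real.exp_lt_exp.mpr (by linarith)

lemma inv_mem_HP {z : ℂ} (hz : z ∈ HP) : 1 / (6 * z) ∈ HP := by
  have h1 : (0 : ℝ) < z.re := hz
  have hz0 : z ≠ 0 := by
    rintro rfl
    simp at h1
  change 0 < (1 / (6 * z)).re
  rw [one_div, Complex.inv_re]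
  have h2 : (6 * z).re = 6 * z.re := by simp
  rw [h2]
  have : 0 < normSq (6 * z) := normSq_pos.mpr (by simpa using hz0)
  positivity

lemma qz_diff : DifferentiableOn ℂ (fun z => XC (qz z)) HP := by
  refine XC_diff.comp (t := Metric.ball 0 1) ?_ ?_
  · unfold qz
    fun_prop
  · intro z hz
    simpa using norm_qz hz

lemma fricke_C {z : ℂ} (hz : z ∈ HP) : XC (qz z) * XC (qz (1 / (6 * z))) = 1 / 64 := by
  have d1 : DifferentiableOn ℂ (fun z => XC (qz z) * XC (qz (1 / (6 * z))) - 1 / 64) HP := by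
    refine (qz_diff.mul (qz_diff.comp (t := HP) ?_ ?_)).sub (differentiableOn_const _)
    · intro w hw
      have h1 : (0 : ℝ) < w.re := hw
      have hw0 : w ≠ 0 := by
        rintro rfl
        simp at h1
      exact (DifferentiableAt.div (by fun_prop) (by fun_prop)
        (by simpa using hw0)).differentiableWithinAt
    · intro w hw
      exact inv_mem_HP hw
  have a1 := d1.analyticOnNhd isOpen_HP
  have h1m : (1 : ℂ) ∈ HP := by simp [HP]
  have hf : ∃ᶠ w in 𝓝[≠] (1 : ℂ), XC (qz w) * XC (qz (1 / (6 * w))) - 1 / 64 = 0 := by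
    have hreal : ∀ y : ℝ, 0 < y →
        XC (qz (y : ℂ)) * XC (qz (1 / (6 * (y : ℂ)))) - 1 / 64 = 0 := by
      intro y hy
      have e1 : qz (y : ℂ) = ((Real.exp (-(2 * Real.pi * y)) : ℝ) : ℂ) := by
        unfold qz
        push_cast
        rfl
      have e2 : qz (1 / (6 * (y : ℂ))) = ((Real.exp (-(2 * Real.pi * (1 / (6 * y)))) : ℝ) : ℂ) := by
        unfold qz
        push_cast
        rfl
      have hy6 : 0 < 1 / (6 * y) := by positivity
      rw [e1, e2, XC_ofReal (Real.exp_pos _).le (exp_neg_lt hy),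
        XC_ofReal (Real.exp_pos _).le (exp_neg_lt hy6), (fricke_eta hy).1]
      have hX : (0 : ℝ) < XR (Real.exp (-(2 * Real.pi * y))) :=
        XR_pos (Real.exp_pos _) (exp_neg_lt hy)
      have hX' : ((XR (Real.exp (-(2 * Real.pi * y))) : ℝ) : ℂ) ≠ 0 :=
        Complex.ofReal_ne_zero.mpr hX.ne'
      push_cast
      field_simp
      ring
    have ht : Tendsto (fun y : ℝ => (y : ℂ)) (𝓝[≠] (1 : ℝ)) (𝓝[≠] (1 : ℂ)) := by
      refine tendsto_nhdsWithin_of_tendsto_nhds_of_eventually_within _ ?_ ?_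
      · have : Tendsto (fun y : ℝ => (y : ℂ)) (𝓝 (1 : ℝ)) (𝓝 ((1 : ℝ) : ℂ)) :=
          Complex.continuous_ofReal.continuousAt
        rw [Complex.ofReal_one] at this
        exact this.mono_left nhdsWithin_le_nhds
      · filter_upwards [self_mem_nhdsWithin] with y hy
        intro h
        apply hy
        rw [Set.mem_singleton_iff] at h ⊢
        exact_mod_cast h
    have hev : ∀ᶠ y : ℝ in 𝓝[≠] (1 : ℝ), XC (qz (y : ℂ)) * XC (qz (1 / (6 * (y : ℂ)))) - 1 / 64 = 0 := by
      have : ∀ᶠ y : ℝ in 𝓝 (1 : ℝ), 0 < y := eventually_gt_nhds one_pos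
      filter_upwards [this.filter_mono nhdsWithin_le_nhds] with y hy
      exact hreal y hy
    exact ht.frequently hev.frequently
  have := a1.eqOn_zero_of_preconnected_of_frequently_eq_zero convex_HP.isPreconnected h1m hf hz
  simp only [Pi.zero_apply] at this
  linear_combination this

/-- the singular value: `X(-p) = -1/64` at `p = exp (-2 π w0)` -/
lemma XC_w0 : XC (-(Real.exp (-2 * Real.pi * w0) : ℝ)) = -1 / 64 := by
  set z : ℂ := ⟨w0 / 2, 1 / 4⟩ with hz
  have hw : 0 < w0 := by unfold Pool.RV.w0; positivity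
  have hw2 : w0 ^ 2 = 15 / 36 := by
    unfold Pool.RV.w0
    rw [div_pow, Real.sq_sqrt (by norm_num)]
    norm_num
  have hzm : z ∈ HP := by
    change 0 < w0 / 2
    positivity
  have hz0 : z ≠ 0 := by
    intro h
    have : w0 / 2 = 0 := by
      have := congrArg Complex.re h
      simpa [hz] using this
    linarith
  have hinv : 1 / (6 * z) = (starRingEnd ℂ) z := by
    rw [div_eq_iff (by simpa using hz0)]
    have : (starRingEnd ℂ) z * (6 * z) = 6 * (z * (starRingEnd ℂ) z) := by ring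
    rw [this, Complex.mul_conj, Complex.normSq_apply, hz]
    have : w0 / 2 * (w0 / 2) + 1 / 4 * (1 / 4) = 1 / 6 := by
      nlinarith [hw2]
    simp only
    rw [this]
    push_cast
    norm_num
  have hr : 0 < Real.exp (-(Real.pi * w0)) := Real.exp_pos _
  set r : ℝ := Real.exp (-(Real.pi * w0)) with hrdef
  have hr1 : r < 1 := by
    rw [← Real.exp_zero]
    exact Real.exp_lt_exp.mpr (by have := Real.pi_pos; nlinarith)
  have hq1 : qz z = -(I * r) := by
    unfold qz
    have : -(2 * (Real.pi : ℂ) * z) = ((-(Real.pi * w0) : ℝ) : ℂ) + (-(Real.pi / 2 : ℝ) : ℝ) * I := by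
      apply Complex.ext
      · simp [hz]
        ring
      · simp [hz]
        ring
    rw [this, Complex.exp_add, ← Complex.ofReal_exp, ← hrdef]
    have : Complex.exp ((-(Real.pi / 2 : ℝ) : ℝ) * I) = -I := by
      rw [Complex.exp_mul_I, ← Complex.ofReal_cos, ← Complex.ofReal_sin, Real.cos_neg,
        Real.sin_neg, Real.cos_pi_div_two, Real.sin_pi_div_two]
      simp
    rw [this]
    ring
  have hq2 : qz (1 / (6 * z)) = I * r := by
    rw [hinv]
    have : qz ((starRingEnd ℂ) z) = (starRingEnd ℂ) (qz z) := by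
      unfold qz
      rw [← Complex.exp_conj]
      simp only [map_neg, map_mul, Complex.conj_ofReal, map_ofNat]
    rw [this, hq1]
    simp
  have hF := fricke_C hzm
  rw [hq1, hq2] at hF
  have hn : ‖I * (r : ℂ)‖ < 1 := by
    rw [norm_mul, norm_I, one_mul, Complex.norm_real, Real.norm_of_nonneg hr.le]
    exact hr1
  have hN := XC_neg hn
  have hsq : (I * (r : ℂ)) ^ 2 = -((Real.exp (-2 * Real.pi * w0) : ℝ) : ℂ) := by
    rw [mul_pow, I_sq, ← Complex.ofReal_pow, hrdef, ← Real.exp_nat_mul]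
    push_cast
    ring_nf
  rw [hsq] at hN
  linear_combination hN - hF

lemma QC_real {s : ℝ} (h : |s| < 1) :
    QC (s : ℂ) = ((Real.exp (∑' n : ℕ, Real.log (1 + s ^ (n + 1))) : ℝ) : ℂ) := by
  have hs : Summable fun n : ℕ => ‖s ^ (n + 1)‖ := by
    simp only [norm_pow, Real.norm_eq_abs]
    exact (summable_nat_add_iff 1).mpr (summable_geometric_of_lt_one (abs_nonneg _) h)
  have hpos : ∀ n : ℕ, 0 < 1 + s ^ (n + 1) := by
    intro n
    have h1 : |s ^ (n + 1)| < 1 := by
      rw [abs_pow]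
      exact pow_lt_one₀ (abs_nonneg _) h (by omega)
    have := (abs_lt.mp h1).1
    linarith
  have hm : Multipliable fun n : ℕ => 1 + s ^ (n + 1) := multipliable_one_add_of_summable hs
  have hl : Summable fun n : ℕ => Real.log (1 + s ^ (n + 1)) :=
    Real.summable_log_one_add_of_summable hs.of_norm
  rw [Real.rexp_tsum_eq_tprod hpos hl]
  have := hm.map_tprod Complex.ofRealHom Complex.continuous_ofReal
  rw [Complex.ofRealHom_eq_coe] at this
  unfold QC
  rw [this]
  congr 1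
  ext n
  rw [Complex.ofRealHom_eq_coe]
  push_cast
  rfl

/-- step A6 -/
theorem lxq_w0 : lxq w0 = 0 := by
  have hw : 0 < w0 := by unfold Pool.RV.w0; positivity
  set p : ℝ := Real.exp (-2 * Real.pi * w0) with hp
  have hp0 : 0 < p := Real.exp_pos _
  have hp1 : p < 1 := by
    rw [← Real.exp_zero]
    exact Real.exp_lt_exp.mpr (by have := Real.pi_pos; nlinarith)
  have hX := XC_w0
  rw [← hp] at hX
  have habs : |(-p : ℝ)| < 1 := by rw [abs_neg, abs_of_pos hp0]; exact hp1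
  have habs3 : |((-p) ^ 3 : ℝ)| < 1 := by
    rw [abs_pow]
    exact pow_lt_one₀ (abs_nonneg _) habs (by norm_num)
  have h1 := QC_real habs
  have h3 := QC_real habs3
  set A : ℝ := ∑' n : ℕ, Real.log (1 + (-p) ^ (n + 1)) with hA
  set B : ℝ := ∑' n : ℕ, Real.log (1 + ((-p) ^ 3) ^ (n + 1)) with hB
  have hB' : ∑' n : ℕ, Real.log (1 + (-p) ^ (3 * (n + 1))) = B := by
    rw [hB]
    congr 1
    ext n
    rw [← pow_mul]
  unfold XC at hX
  have e1 : (-(p : ℂ)) = ((-p : ℝ) : ℂ) := by push_cast; rfl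
  have e3 : (((-p : ℝ) : ℂ)) ^ 3 = (((-p) ^ 3 : ℝ) : ℂ) := by push_cast; rfl
  rw [e1, e3, h1, h3] at hX
  have hXr : (-p) * (Real.exp A * Real.exp B) ^ 6 = -1 / 64 := by
    exact_mod_cast hX
  unfold Pool.RV.lxq
  rw [← hp, ← hA, hB']
  have hlog := congrArg (fun x => Real.log (-64 * x)) hXr
  beta_reduce at hlog
  have e5 : -64 * ((-p) * (Real.exp A * Real.exp B) ^ 6) =
      Real.exp (2 * (Real.log 8 - Real.pi * w0 + 3 * A + 3 * B)) := by
    have : Real.exp (2 * (Real.log 8 - Real.pi * w0 + 3 * A + 3 * B)) =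
        Real.exp (Real.log 8) ^ 2 * Real.exp (-2 * Real.pi * w0) * (Real.exp A * Real.exp B) ^ 6 := by
      rw [← Real.exp_add, ← Real.exp_nat_mul, ← Real.exp_nat_mul, ← Real.exp_add, ← Real.exp_add]
      congr 1
      push_cast
      ring
    rw [this, Real.exp_log (by norm_num), ← hp]
    ring
  rw [e5, Real.log_exp] at hlog
  have : Real.log (-64 * (-1 / 64)) = 0 := by norm_num
  rw [this] at hlog
  linarith

end Pool.Agent.RV.A
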