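import Pool.Agent.Work.MP_5955e5_nt.A.Smyth2
import Pool.Agent.Work.MP_5955e5_nt.QDefs

/-!
# Cell RV, block (a), step A2: Smyth's integral `∫ log |1 + x + y + z| = 7 ζ(3) / (2 π²)`
-/

set_option autoImplicit false

namespace Pool.Agent.RV.A

open Filter Topology MeasureTheory

/-- coefficients -/
noncomputable def cs (n : ℕ) : ℝ := (1 - (-1) ^ n) / (4 * Real.pi ^ 2 * (n : ℝ) ^ 3)

lemma cs_nonneg (n : ℕ) : 0 ≤ cs n := by
  unfold cs
  have : 0 ≤ 1 - (-1 : ℝ) ^ n := by
    rcases neg_one_pow_eq_or ℝ n with h | h <;> rw [h] <;> norm_num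
  positivity

lemma cs_le (n : ℕ) : cs n ≤ 1 / (n : ℝ) ^ 3 := by
  unfold cs
  rcases Nat.eq_zero_or_pos n with h | h
  · subst h
    simp
  · have hn : (0 : ℝ) < n := by exact_mod_cast h
    have h1 : 1 - (-1 : ℝ) ^ n ≤ 2 := by
      rcases neg_one_pow_eq_or ℝ n with h | h <;> rw [h] <;> norm_num
    have hpi : 2 ≤ 4 * Real.pi ^ 2 := by nlinarith [Real.pi_gt_three]
    rw [div_le_div_iff₀ (by positivity) (by positivity)]
    have h3 : (0 : ℝ) < (n : ℝ) ^ 3 := by positivity
    nlinarith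

lemma cs_summable : Summable cs := by
  have : Summable fun n : ℕ => 1 / (n : ℝ) ^ 3 := Real.summable_one_div_nat_pow.mpr (by norm_num)
  exact Summable.of_nonneg_of_le cs_nonneg cs_le this

lemma int_a_cos (n : ℕ) : ∫ a in (0 : ℝ)..(1 / 2), a * Real.cos (2 * Real.pi * n * a) / n =
    -cs n := by
  rcases Nat.eq_zero_or_pos n with h | h
  · subst h
    simp [cs]
  have hn : (0 : ℝ) < n := by exact_mod_cast h
  have hpi := Real.pi_pos
  have hk : 2 * Real.pi * n ≠ 0 := by positivity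
  have hd : ∀ x ∈ Set.uIcc (0 : ℝ) (1 / 2), HasDerivAt
      (fun a : ℝ => (a * Real.sin (2 * Real.pi * n * a) / (2 * Real.pi * n) +
        Real.cos (2 * Real.pi * n * a) / (2 * Real.pi * n) ^ 2) / n)
      (x * Real.cos (2 * Real.pi * n * x) / n) x := by
    intro x _
    have h1 : HasDerivAt (fun a : ℝ => 2 * Real.pi * n * a) (2 * Real.pi * n) x := by
      simpa using (hasDerivAt_id x).const_mul (2 * Real.pi * n)
    have h2 := (((hasDerivAt_id x).mul h1.sin).div_const (2 * Real.pi * n)).add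
      (h1.cos.div_const ((2 * Real.pi * n) ^ 2))
    have h3 := h2.div_const (n : ℝ)
    refine h3.congr_deriv ?_
    simp only [id_eq]
    field_simp
    ring
  rw [intervalIntegral.integral_eq_sub_of_hasDerivAt hd (by
    apply Continuous.intervalIntegrable
    fun_prop)]
  have e1 : 2 * Real.pi * n * (1 / 2) = n * Real.pi := by ring
  rw [e1, Real.sin_nat_mul_pi, Real.cos_nat_mul_pi]
  unfold cs
  simp only [mul_zero, zero_div, Real.cos_zero, Real.sin_zero, zero_add]
  field_simp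
  ring

lemma normSq_re (r t : ℝ) : ‖1 - r * e t‖ ^ 2 =
    (1 - r) ^ 2 + 4 * r * Real.sin (Real.pi * t) ^ 2 := by
  rw [← Complex.normSq_eq_norm_sq, Complex.normSq_apply, e_eq]
  have h1 : Real.cos (2 * Real.pi * t) = 1 - 2 * Real.sin (Real.pi * t) ^ 2 := by
    rw [show 2 * Real.pi * t = 2 * (Real.pi * t) by ring, Real.cos_two_mul, Real.sin_sq]
    ring
  have h2 := Real.sin_sq_add_cos_sq (2 * Real.pi * t)
  simp only [Complex.sub_re, Complex.one_re, Complex.mul_re, Complex.ofReal_re, Complex.ofReal_im,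
    zero_mul, sub_zero, Complex.sub_im, Complex.one_im, Complex.mul_im, add_zero, zero_sub]
  have h3 : (1 - r * Real.cos (2 * Real.pi * t)) * (1 - r * Real.cos (2 * Real.pi * t)) +
      -(r * Real.sin (2 * Real.pi * t)) * -(r * Real.sin (2 * Real.pi * t)) =
      1 - 2 * r * Real.cos (2 * Real.pi * t) + r ^ 2 * (Real.sin (2 * Real.pi * t) ^ 2 +
        Real.cos (2 * Real.pi * t) ^ 2) := by ring
  rw [h3, h2, h1]
  ring

lemma hasSum_log {r t : ℝ} (h0 : 0 ≤ r) (h1 : r < 1) :
    HasSum (fun n : ℕ => r ^ n * Real.cos (2 * Real.pi * n * t) / n)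
      (-Real.log ‖1 - r * e t‖) := by
  have hn : ‖(r : ℂ) * e t‖ < 1 := by
    rw [norm_mul, norm_e, mul_one, Complex.norm_real, Real.norm_of_nonneg h0]
    exact h1
  have h := Complex.hasSum_re (Complex.hasSum_taylorSeries_neg_log hn)
  rw [Complex.neg_re, Complex.log_re] at h
  convert h using 1
  ext n
  have e1 : e ((n : ℝ) * t) = e t ^ n := by
    unfold e
    rw [← Complex.exp_nat_mul]
    push_cast
    congr 1
    ring
  have e2 : ((r : ℂ) * e t) ^ n / (n : ℂ) = ((r ^ n / n : ℝ) : ℂ) * e ((n : ℝ) * t) := by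
    rw [e1, mul_pow]
    push_cast
    ring
  rw [e2, Complex.re_ofReal_mul, e_eq]
  simp only
  rw [show 2 * Real.pi * (n * t) = 2 * Real.pi * n * t by ring]
  ring

/-- the integral at radius `r` -/
lemma int_r {r : ℝ} (h0 : 0 ≤ r) (h1 : r < 1) :
    ∫ t in (0 : ℝ)..(1 / 2), t * Real.log ‖1 - r * e t‖ = ∑' n, r ^ n * cs n := by
  have hmain := intervalIntegral.hasSum_integral_of_dominated_convergence (μ := volume)
    (a := (0 : ℝ)) (b := 1 / 2)
    (F := fun (n : ℕ) (t : ℝ) => -(r ^ n * (t * Real.cos (2 * Real.pi * n * t) / n)))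
    (f := fun t => t * Real.log ‖1 - r * e t‖) (fun n _ => r ^ n) ?_ ?_ ?_ ?_ ?_
  · rw [← hmain.tsum_eq]
    congr 1
    ext n
    rw [intervalIntegral.integral_neg, intervalIntegral.integral_const_mul, int_a_cos]
    ring
  · intro n
    apply Continuous.aestronglyMeasurable
    fun_prop
  · intro n
    refine Eventually.of_forall fun t ht => ?_
    rw [Set.uIoc_of_le (by norm_num)] at ht
    rw [norm_neg, norm_mul, norm_div, norm_mul, Real.norm_of_nonneg (pow_nonneg h0 n),
      Real.norm_of_nonneg ht.1.le]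
    have h2 : ‖Real.cos (2 * Real.pi * n * t)‖ ≤ 1 := Real.abs_cos_le_one _
    have h3 : t * ‖Real.cos (2 * Real.pi * n * t)‖ / ‖(n : ℝ)‖ ≤ 1 := by
      rcases Nat.eq_zero_or_pos n with h | h
      · subst h
        simp
      · have hn : (1 : ℝ) ≤ n := by exact_mod_cast h
        rw [Real.norm_of_nonneg (by positivity : (0 : ℝ) ≤ n)]
        rw [div_le_one (by positivity)]
        have h4 : t * ‖Real.cos (2 * Real.pi * n * t)‖ ≤ 1 * 1 := by
          apply mul_le_mul _ h2 (norm_nonneg _) zero_le_one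
          linarith [ht.2]
        linarith
    calc r ^ n * (t * ‖Real.cos (2 * Real.pi * n * t)‖ / ‖(n : ℝ)‖) ≤ r ^ n * 1 :=
          mul_le_mul_of_nonneg_left h3 (pow_nonneg h0 n)
      _ = r ^ n := mul_one _
  · exact Eventually.of_forall fun t _ => summable_geometric_of_lt_one h0 h1
  · exact intervalIntegrable_const
  · refine Eventually.of_forall fun t _ => ?_
    have h := ((hasSum_log (t := t) h0 h1).mul_left t).neg
    convert h using 1
    · ext n
      ring
    · ring

lemma tendsto_lhs : Tendsto (fun r : ℝ => ∫ t in (0 : ℝ)..(1 / 2), t * Real.log ‖1 - r * e t‖)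
    (𝓝[<] 1) (𝓝 (∫ t in (0 : ℝ)..(1 / 2), t * gs t)) := by
  refine intervalIntegral.tendsto_integral_filter_of_dominated_convergence
    (fun t => Real.log 2 + ‖Real.log ‖Real.sin (Real.pi * t)‖‖) ?_ ?_ ?_ ?_
  · refine Eventually.of_forall fun r => Measurable.aestronglyMeasurable ?_
    refine measurable_id.mul (Real.measurable_log.comp ?_)
    apply Continuous.measurable
    fun_prop
  · have hr : ∀ᶠ r in 𝓝[<] (1 : ℝ), r ∈ Set.Ioo (1 / 4 : ℝ) 1 := Ioo_mem_nhdsLT (by norm_num)
    filter_upwards [hr] with r hr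
    refine Eventually.of_forall fun t ht => ?_
    rw [Set.uIoc_of_le (by norm_num)] at ht
    have hs : 0 < Real.sin (Real.pi * t) := sin_pos' ht.1 (by linarith [ht.2])
    have hN := normSq_re r t
    have hN0 : 0 ≤ ‖1 - (r : ℂ) * e t‖ := norm_nonneg _
    set N := ‖1 - (r : ℂ) * e t‖ with hNdef
    set s := Real.sin (Real.pi * t) with hsdef
    have h1 : s ≤ N := by
      apply (pow_le_pow_iff_left₀ hs.le hN0 two_ne_zero).mp
      rw [hN]
      nlinarith [hr.1, sq_nonneg (1 - r), mul_pos hs hs]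
    have h2 : N ≤ 2 := by
      rw [hNdef]
      refine (norm_sub_le _ _).trans ?_
      rw [norm_one, norm_mul, norm_e, Complex.norm_real,
        Real.norm_of_nonneg (by linarith [hr.1])]
      linarith [hr.2]
    have h3 : Real.log s ≤ Real.log N := Real.log_le_log hs h1
    have h4 : Real.log N ≤ Real.log 2 := Real.log_le_log (lt_of_lt_of_le hs h1) h2
    have h5 : 0 ≤ Real.log 2 := Real.log_nonneg (by norm_num)
    have h6 : |Real.log N| ≤ Real.log 2 + |Real.log s| := by
      rw [abs_le]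
      have h7 := neg_abs_le (Real.log s)
      have h8 := abs_nonneg (Real.log s)
      constructor <;> linarith
    rw [norm_mul, Real.norm_of_nonneg ht.1.le, Real.norm_eq_abs, Real.norm_eq_abs,
      Real.norm_of_nonneg hs.le]
    calc t * |Real.log N| ≤ 1 * |Real.log N| := by
          apply mul_le_mul_of_nonneg_right _ (abs_nonneg _)
          linarith [ht.2]
      _ ≤ _ := by rw [one_mul]; exact h6
  · refine intervalIntegrable_const.add ?_
    exact (MeromorphicOn.intervalIntegrable_log_norm (f := fun x : ℝ => Real.sin (Real.pi * x))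
      (fun z hz ↦ by fun_prop)).norm
  · refine Eventually.of_forall fun t ht => ?_
    rw [Set.uIoc_of_le (by norm_num)] at ht
    have hs : 0 < Real.sin (Real.pi * t) := sin_pos' ht.1 (by linarith [ht.2])
    have hN := normSq_re 1 t
    have hN1 : ‖1 - ((1 : ℝ) : ℂ) * e t‖ = 2 * Real.sin (Real.pi * t) := by
      have h1 : ‖1 - ((1 : ℝ) : ℂ) * e t‖ ^ 2 = (2 * Real.sin (Real.pi * t)) ^ 2 := by
        rw [hN]
        ring
      exact (pow_left_inj₀ (norm_nonneg _) (by positivity) two_ne_zero).mp h1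
    have hc : ContinuousAt (fun r : ℝ => t * Real.log ‖1 - (r : ℂ) * e t‖) 1 := by
      refine continuousAt_const.mul (ContinuousAt.log (by fun_prop) ?_)
      rw [hN1]
      positivity
    have := hc.tendsto.mono_left (nhdsWithin_le_nhds (s := Set.Iio (1 : ℝ)))
    rw [hN1] at this
    exact this

lemma tendsto_rhs : Tendsto (fun r : ℝ => ∑' n, r ^ n * cs n) (𝓝[<] 1) (𝓝 (∑' n, cs n)) := by
  refine tendsto_tsum_of_dominated_convergence cs_summable ?_ ?_
  · intro n
    have hc : ContinuousAt (fun r : ℝ => r ^ n * cs n) 1 := by fun_prop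
    have := hc.tendsto.mono_left (nhdsWithin_le_nhds (s := Set.Iio (1 : ℝ)))
    simpa using this
  · have hr : ∀ᶠ r in 𝓝[<] (1 : ℝ), r ∈ Set.Ioo (1 / 4 : ℝ) 1 := Ioo_mem_nhdsLT (by norm_num)
    filter_upwards [hr] with r hr n
    have h0 : 0 ≤ r := by linarith [hr.1]
    rw [norm_mul, Real.norm_of_nonneg (pow_nonneg h0 n), Real.norm_of_nonneg (cs_nonneg n)]
    calc r ^ n * cs n ≤ 1 * cs n :=
          mul_le_mul_of_nonneg_right (pow_le_one₀ h0 hr.2.le) (cs_nonneg n)
      _ = cs n := one_mul _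

lemma int_a_gs : ∫ t in (0 : ℝ)..(1 / 2), t * gs t = ∑' n, cs n := by
  refine tendsto_nhds_unique tendsto_lhs (tendsto_rhs.congr' ?_)
  have hr : ∀ᶠ r in 𝓝[<] (1 : ℝ), r ∈ Set.Ioo (1 / 4 : ℝ) 1 := Ioo_mem_nhdsLT (by norm_num)
  filter_upwards [hr] with r hr
  exact (int_r (by linarith [hr.1]) hr.2).symm

lemma inj_two : Function.Injective fun k : ℕ => 2 * k := fun a b hab => by
  simpa using hab

lemma inj_two_add : Function.Injective fun k : ℕ => 2 * k + 1 := fun a b hab => by
  simpa using hab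

lemma zeta3_summable : Summable fun n : ℕ => 1 / ((n : ℝ) + 1) ^ 3 := by
  have := (summable_nat_add_iff 1).mpr
    (Real.summable_one_div_nat_pow (p := 3) |>.mpr (by norm_num))
  simpa using this

/-- sum over odd numbers -/
noncomputable def oz : ℝ := ∑' k : ℕ, 1 / (2 * (k : ℝ) + 1) ^ 3

lemma oz_eq : oz = 7 / 8 * Pool.RV.zeta3 := by
  have ho := zeta3_summable.comp_injective inj_two
  have he := zeta3_summable.comp_injective inj_two_add
  have h1 := tsum_even_add_odd (f := fun n : ℕ => 1 / ((n : ℝ) + 1) ^ 3) ho he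
  have h2 : ∑' k : ℕ, 1 / (((2 * k + 1 : ℕ) : ℝ) + 1) ^ 3 = Pool.RV.zeta3 / 8 := by
    unfold Pool.RV.zeta3
    rw [← tsum_div_const]
    congr 1
    ext k
    push_cast
    have h3 : (2 * (k : ℝ) + 1 + 1) ^ 3 = ((k : ℝ) + 1) ^ 3 * 8 := by ring
    rw [h3, div_div]
  have h3 : ∑' k : ℕ, 1 / (((2 * k : ℕ) : ℝ) + 1) ^ 3 = oz := by
    unfold oz
    push_cast
    rfl
  rw [h2, h3] at h1
  have h4 : ∑' n : ℕ, 1 / ((n : ℝ) + 1) ^ 3 = Pool.RV.zeta3 := by
    unfold Pool.RV.zeta3
    rfl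
  rw [h4] at h1
  linarith

lemma sum_cs_odd : ∑' n, cs n = (1 / (2 * Real.pi ^ 2)) * oz := by
  have h4 := tsum_even_add_odd (f := cs) (cs_summable.comp_injective inj_two)
    (cs_summable.comp_injective inj_two_add)
  rw [← h4]
  have h5 : ∀ k : ℕ, cs (2 * k) = 0 := by
    intro k
    simp [cs]
  have h6 : ∀ k : ℕ, cs (2 * k + 1) =
      (1 / (2 * Real.pi ^ 2)) * (1 / (2 * (k : ℝ) + 1) ^ 3) := by
    intro k
    unfold cs
    rw [Odd.neg_one_pow ⟨k, rfl⟩]
    push_cast
    have h7 : (2 * (k : ℝ) + 1) ^ 3 ≠ 0 := by positivity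
    have h8 : Real.pi ^ 2 ≠ 0 := by positivity
    rw [one_div_mul_one_div, div_eq_div_iff (by positivity) (by positivity)]
    ring
  rw [tsum_congr h5, tsum_congr h6, tsum_zero, zero_add, tsum_mul_left]
  rfl

lemma sum_cs : ∑' n, cs n = 7 * Pool.RV.zeta3 / (16 * Real.pi ^ 2) := by
  rw [sum_cs_odd, oz_eq]
  have := Real.pi_ne_zero
  field_simp
  ring

/-- step A2 -/
theorem int_log_R3 : ∫ w, Real.log ‖1 + e w.1 + e w.2.1 + e w.2.2‖ ∂mu3 =
    7 * Pool.RV.zeta3 / (2 * Real.pi ^ 2) := by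
  rw [int_log_R3_one, int_a_gs, sum_cs]
  have := Real.pi_ne_zero
  field_simp
  ring

end Pool.Agent.RV.A
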