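import Pool.Agent.Work.MP_5955e5_nt.A.R3

/-!
# A1: the torus integral is `E log⁺ |1 + e a + e b + e c|` (helper85)
-/

set_option autoImplicit false

namespace Pool.Agent.RV.A

open MeasureTheory

lemma continuous_e' : Continuous e := by unfold e; fun_prop

lemma circleMap_e (t : ℝ) : circleMap 0 1 (2 * Real.pi * t) = e t := by
  unfold circleMap e
  rw [zero_add, Complex.ofReal_one, one_mul]
  congr 1
  push_cast
  ring

/-- Jensen in the last variable -/
lemma jensen_int (A : ℂ) : Integrable (fun d => Real.log ‖A + e d‖) mu0 := by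
  have h0 : CircleIntegrable (fun z => Real.log ‖z - (-A)‖) 0 1 :=
    circleIntegrable_log_norm_sub_const 1
  have h1 : IntervalIntegrable (fun θ => Real.log ‖circleMap 0 1 θ - (-A)‖) volume 0
      (2 * Real.pi) := h0
  have hpi := Real.two_pi_pos
  have h2 := h1.comp_mul_left (c := 2 * Real.pi)
  rw [zero_div, div_self hpi.ne', intervalIntegrable_iff_integrableOn_Ioc_of_le zero_le_one] at h2
  refine h2.congr_fun (fun t _ => ?_) measurableSet_Ioc
  simp only
  rw [circleMap_e]
  congr 2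
  ring

lemma jensen_val (A : ℂ) : ∫ d, Real.log ‖A + e d‖ ∂mu0 = Real.posLog ‖A‖ := by
  have h := circleAverage_log_norm_add_const_eq_posLog (a := A)
  rw [Real.circleAverage_def] at h
  have hpi := Real.two_pi_pos
  have h3 := intervalIntegral.integral_comp_mul_left (a := 0) (b := 1)
    (fun θ => Real.log ‖circleMap 0 1 θ + A‖) hpi.ne'
  rw [mul_zero, mul_one] at h3
  rw [h] at h3
  rw [← h3, intervalIntegral.integral_of_le zero_le_one]
  refine integral_congr_ae (Filter.Eventually.of_forall fun t => ?_)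
  simp only
  rw [circleMap_e, add_comm]

/-- the product measure on `Fin n → ℝ` -/
noncomputable def pin (n : ℕ) : Measure (Fin n → ℝ) := Measure.pi fun _ : Fin n => mu0

instance (n : ℕ) : IsProbabilityMeasure (pin n) := by unfold pin; infer_instance

lemma restrict_Icc : (volume : Measure (Fin 4 → ℝ)).restrict (Set.Icc 0 1) = pin 4 := by
  unfold pin mu0
  rw [← Set.pi_univ_Icc, volume_pi, Measure.restrict_pi_pi]
  congr 1
  ext i : 1
  simp only [Pi.zero_apply, Pi.one_apply]
  exact (Measure.restrict_congr_set Ioc_ae_eq_Icc).symm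

/-- splitting off the first coordinate -/
lemma integral_pin_succ (n : ℕ) (f : (Fin (n + 1) → ℝ) → ℝ) :
    ∫ θ, f θ ∂(pin (n + 1)) =
      ∫ p : ℝ × (Fin n → ℝ), f (Fin.cons p.1 p.2) ∂(mu0.prod (pin n)) := by
  have h := measurePreserving_piFinSuccAbove (fun _ : Fin (n + 1) => mu0) 0
  have h' := h.symm.integral_comp' (g := f)
  unfold pin
  rw [← h']
  refine integral_congr_ae (Filter.Eventually.of_forall fun p => ?_)
  simp only
  congr 1
  ext i
  refine Fin.cases ?_ (fun j => ?_) i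
  · simp [MeasurableEquiv.piFinSuccAbove]
  · simp [MeasurableEquiv.piFinSuccAbove]

/-- the integral over three angles as an integral over `mu3` -/
lemma integral_pin_three (G : (Fin 3 → ℝ) → ℝ) :
    ∫ v, G v ∂(pin 3) = ∫ w : ℝ × ℝ × ℝ, G ![w.1, w.2.1, w.2.2] ∂mu3 := by
  rw [integral_pin_succ 2]
  have h2 : MeasurePreserving (MeasurableEquiv.finTwoArrow (α := ℝ)) (pin 2) (mu0.prod mu0) :=
    measurePreserving_finTwoArrow mu0
  have h3 : MeasurePreserving
      ((MeasurableEquiv.refl ℝ).prodCongr (MeasurableEquiv.finTwoArrow (α := ℝ)))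
      (mu0.prod (pin 2)) (mu0.prod (mu0.prod mu0)) :=
    (MeasurePreserving.id mu0).prod h2
  have h4 := h3.integral_comp' (g := fun w : ℝ × ℝ × ℝ => G ![w.1, w.2.1, w.2.2])
  unfold mu3
  rw [← h4]
  refine integral_congr_ae (Filter.Eventually.of_forall fun p => ?_)
  simp only
  congr 1
  ext i
  fin_cases i <;> rfl

/-- the four-fold integrand after splitting off the last angle -/
noncomputable def FF (p : ℝ × (Fin 3 → ℝ)) : ℝ :=
  Real.log ‖(1 + ∑ i : Fin 3, e (p.2 i)) + e p.1‖

lemma norm_e' (t : ℝ) : ‖e t‖ = 1 := by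
  unfold e
  rw [show 2 * (Real.pi : ℂ) * Complex.I * t = ((2 * Real.pi * t : ℝ) : ℂ) * Complex.I by
    push_cast; ring]
  exact Complex.norm_exp_ofReal_mul_I _

lemma norm_A_le (v : Fin 3 → ℝ) : ‖1 + ∑ i : Fin 3, e (v i)‖ ≤ 4 := by
  refine (norm_add_le _ _).trans ?_
  have := norm_sum_le (Finset.univ : Finset (Fin 3)) (fun i => e (v i))
  simp only [norm_e', Finset.sum_const, Finset.card_univ, Fintype.card_fin, nsmul_eq_mul,
    mul_one] at this
  rw [norm_one]
  push_cast at this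
  linarith

lemma measurable_FF : Measurable FF := by
  unfold FF
  have := continuous_e'
  have h : Continuous fun p : ℝ × (Fin 3 → ℝ) => ‖(1 + ∑ i : Fin 3, e (p.2 i)) + e p.1‖ := by
    fun_prop
  exact Real.measurable_log.comp h.measurable

lemma FF_le (p : ℝ × (Fin 3 → ℝ)) : FF p ≤ Real.log 5 := by
  unfold FF
  have h1 : ‖(1 + ∑ i : Fin 3, e (p.2 i)) + e p.1‖ ≤ 5 := by
    refine (norm_add_le _ _).trans ?_
    have := norm_A_le p.2
    rw [norm_e']
    linarith
  rcases eq_or_lt_of_le (norm_nonneg ((1 + ∑ i : Fin 3, e (p.2 i)) + e p.1)) with h | h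
  · rw [← h, Real.log_zero]
    exact Real.log_nonneg (by norm_num)
  · exact Real.log_le_log h h1

lemma integrable_FF : Integrable FF (mu0.prod (pin 3)) := by
  rw [integrable_prod_iff' measurable_FF.aestronglyMeasurable]
  refine ⟨Filter.Eventually.of_forall fun v =>
    jensen_int (1 + ∑ i : Fin 3, e (v i)), ?_⟩
  have hm : AEStronglyMeasurable (fun v : Fin 3 → ℝ => ∫ d, ‖FF (d, v)‖ ∂mu0) (pin 3) := by
    have := (measurable_FF.norm.comp measurable_swap).stronglyMeasurable
    exact this.integral_prod_right'.aestronglyMeasurable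
  refine Integrable.of_bound hm (2 * Real.log 5) (Filter.Eventually.of_forall fun v => ?_)
  have hi : Integrable (fun d => FF (d, v)) mu0 := jensen_int (1 + ∑ i : Fin 3, e (v i))
  have h5 : 0 ≤ Real.log 5 := Real.log_nonneg (by norm_num)
  have h0 : 0 ≤ ∫ d, ‖FF (d, v)‖ ∂mu0 := integral_nonneg fun d => norm_nonneg _
  rw [Real.norm_of_nonneg h0]
  have hval : ∫ d, FF (d, v) ∂mu0 = Real.posLog ‖1 + ∑ i : Fin 3, e (v i)‖ :=
    jensen_val (1 + ∑ i : Fin 3, e (v i))
  calc ∫ d, ‖FF (d, v)‖ ∂mu0 ≤ ∫ d, (2 * Real.log 5 - FF (d, v)) ∂mu0 := by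
        refine integral_mono hi.norm ((integrable_const _).sub hi) fun d => ?_
        simp only
        have := FF_le (d, v)
        rw [Real.norm_eq_abs]
        rcases abs_cases (FF (d, v)) with ⟨h, h'⟩ | ⟨h, h'⟩
        · rw [h]; linarith
        · rw [h]; linarith
    _ = 2 * Real.log 5 - Real.posLog ‖1 + ∑ i : Fin 3, e (v i)‖ := by
        rw [integral_sub (integrable_const _) hi, hval]
        simp
    _ ≤ 2 * Real.log 5 := by
        have := Real.posLog_nonneg (x := ‖1 + ∑ i : Fin 3, e (v i)‖)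
        linarith

/-- **A1** -/
theorem torus_eq : (∫ θ in Set.Icc (0 : Fin 4 → ℝ) 1,
      Real.log ‖1 + ∑ i : Fin 4, Complex.exp (2 * (Real.pi : ℂ) * Complex.I * (θ i : ℂ))‖) =
    ∫ w, Real.posLog (R3 w) ∂mu3 := by
  rw [restrict_Icc, integral_pin_succ 3]
  have e1 : ∫ p : ℝ × (Fin 3 → ℝ), Real.log ‖1 + ∑ i : Fin 4, Complex.exp
      (2 * (Real.pi : ℂ) * Complex.I * (((Fin.cons p.1 p.2 : Fin 4 → ℝ) i : ℝ) : ℂ))‖
        ∂(mu0.prod (pin 3)) = ∫ p, FF p ∂(mu0.prod (pin 3)) := by
    refine integral_congr_ae (Filter.Eventually.of_forall fun p => ?_)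
    simp only [FF]
    rw [Fin.sum_univ_succ]
    simp only [Fin.cons_zero, Fin.cons_succ]
    congr 2
    unfold e
    ring
  rw [e1, integral_prod_symm _ integrable_FF]
  have e2 : ∀ v : Fin 3 → ℝ, ∫ d, FF (d, v) ∂mu0 = Real.posLog ‖1 + ∑ i : Fin 3, e (v i)‖ :=
    fun v => jensen_val (1 + ∑ i : Fin 3, e (v i))
  simp_rw [e2]
  rw [integral_pin_three]
  refine integral_congr_ae (Filter.Eventually.of_forall fun w => ?_)
  simp only [R3]
  rw [Fin.sum_univ_three]
  have h : (1 : ℂ) + (e (![w.1, w.2.1, w.2.2] 0) + e (![w.1, w.2.1, w.2.2] 1) +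
      e (![w.1, w.2.1, w.2.2] 2)) = 1 + e w.1 + e w.2.1 + e w.2.2 := by
    show (1 : ℂ) + (e w.1 + e w.2.1 + e w.2.2) = _
    ring
  rw [h]

end Pool.Agent.RV.A
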