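import Pool.Agent.Work.MP_5955e5_nt.A.A5
import Pool.Agent.Work.MP_5955e5_nt.A.SingVal
import Pool.Agent.Work.MP_5955e5_nt.A.Torus
import Pool.Agent.Work.MP_5955e5_nt.A.Smyth3
import Pool.Agent.Work.MP_5955e5_nt.Ram7

set_option autoImplicit false

open Complex MeasureTheory
open Pool.RV (eqs lxq w0 zeta3)

namespace Pool.Agent.RV.A

theorem A5' : Integrable (fun w => Real.log (R3 w)) mu3 ∧
    (∫ w, Real.posLog (R3 w) ∂mu3) = (∫ w, Real.log (R3 w) ∂mu3) +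
      96 * ∫ u in Set.Ioi w0, u * eqs u * lxq u := by
  apply A5 _ lxq_w0
  intro u hu
  unfold epsC
  rw [RV85.eps_eqs (us_pos.trans hu), Complex.ofReal_re]

end Pool.Agent.RV.A

namespace Pool.RV

/-- BLOCK (a) -/
theorem block_a :
    (∫ θ in Set.Icc (0 : Fin 4 → ℝ) 1,
        Real.log ‖1 + ∑ i : Fin 4, Complex.exp (2 * (Real.pi : ℂ) * Complex.I * (θ i : ℂ))‖)
      = 7 * zeta3 / (2 * Real.pi ^ 2)
        + 96 * ∫ u in Set.Ioi w0, u * eqs u * lxq u := by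
  rw [Pool.Agent.RV.A.torus_eq, Pool.Agent.RV.A.A5'.2]
  have h := Pool.Agent.RV.A.int_log_R3
  unfold Pool.Agent.RV.A.R3
  rw [h]

end Pool.RV
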