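import Pool.Agent.Work.MP_5955e5_nt.A.Law

set_option autoImplicit false

namespace Pool.Agent.RV.A

/-- `|1 + e a + e b + e c|` -/
noncomputable def R3 (w : ℝ × ℝ × ℝ) : ℝ := ‖1 + e w.1 + e w.2.1 + e w.2.2‖

end Pool.Agent.RV.A
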