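import Pool.Agent.Work.MP_5955e5_nt.A.Meas
import Pool.Agent.Work.MP_5955e5_nt.A.R3
import Pool.Agent.Work.MP_5955e5_nt.B.Integ

set_option autoImplicit false

namespace Pool.Agent.RV.A

open Filter Topology Complex MeasureTheory
open Pool.RV (eqs lxq w0 zeta3)

lemma us_lt_w0 : us < w0 := by
  have hpi := Real.pi_gt_d2
  have h15 : (3.87 : ℝ) < Real.sqrt 15 := by
    apply Real.lt_sqrt_of_sq_lt
    norm_num
  have hlog : Real.log 50 < 4 := by
    rw [Real.log_lt_iff_lt_exp (by norm_num)]
    have h1 : (2.7 : ℝ) < Real.exp 1 := by linarith [Real.exp_one_gt_d9]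
    calc (50 : ℝ) < 2.7 ^ 4 := by norm_num
      _ < Real.exp 1 ^ 4 := by gcongr
      _ = Real.exp 4 := by rw [← Real.exp_nat_mul]; norm_num
  unfold us w0
  rw [div_lt_div_iff₀ (by positivity) (by norm_num)]
  have : 3.14 * 3.87 < Real.pi * Real.sqrt 15 := by
    apply mul_lt_mul'' hpi h15 <;> norm_num
  nlinarith

lemma QC_exp {x : ℝ} (h : |x| < 1) :
    QC x = (Real.exp (∑' n : ℕ, Real.log (1 + x ^ (n + 1))) : ℝ) := by
  have hn : ‖(x : ℂ)‖ < 1 := by rwa [Complex.norm_real, Real.norm_eq_abs]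
  have hs : Summable fun n : ℕ => x ^ (n + 1) :=
    (summable_nat_add_iff 1).mpr (summable_geometric_of_abs_lt_one h)
  have hpos : ∀ n : ℕ, 0 < 1 + x ^ (n + 1) := by
    intro n
    have h1 : |x ^ (n + 1)| < 1 := by
      rw [abs_pow]
      exact pow_lt_one₀ (abs_nonneg x) h (by omega)
    linarith [(abs_lt.mp h1).1]
  rw [Real.rexp_tsum_eq_tprod hpos (Real.summable_log_one_add_of_summable hs)]
  have hm : Multipliable fun n : ℕ => 1 + x ^ (n + 1) :=
    Real.multipliable_one_add_of_summable hs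
  have h2 := hm.map_tprod Complex.ofRealHom Complex.continuous_ofReal
  rw [Complex.ofRealHom_eq_coe] at h2
  unfold QC
  rw [h2]
  congr 1
  ext n
  rw [Complex.ofRealHom_eq_coe]
  push_cast
  rfl

lemma lxq_sR {u : ℝ} (hu : us < u) : lxq u = 1 / 2 * Real.log (sR u) := by
  have hx := abs_neg_exp_lt hu
  have hx1 : |(-Real.exp (-(2 * Real.pi * u)))| < 1 := by linarith
  have hx3 : |(-Real.exp (-(2 * Real.pi * u))) ^ 3| < 1 := by
    rw [abs_pow]
    exact pow_lt_one₀ (abs_nonneg _) hx1 (by norm_num)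
  have hE : EC ((-Real.exp (-(2 * Real.pi * u)) : ℝ) : ℂ) =
      (Real.exp (6 * ((∑' n : ℕ, Real.log (1 + (-Real.exp (-(2 * Real.pi * u))) ^ (n + 1))) +
        ∑' n : ℕ, Real.log (1 + (-Real.exp (-(2 * Real.pi * u))) ^ (3 * (n + 1))))) : ℝ) := by
    unfold EC
    rw [← Complex.ofReal_pow, QC_exp hx1, QC_exp hx3, ← Complex.ofReal_mul, ← Complex.ofReal_pow,
      ← Real.exp_add, ← Real.exp_nat_mul]
    simp_rw [← pow_mul]
    norm_num
  rw [sR_EC, hE, Complex.ofReal_re, Real.log_mul (by positivity) (by positivity), Real.log_exp,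
    Real.log_mul (by positivity) (by positivity), Real.log_exp]
  unfold lxq
  have e1 : -2 * Real.pi * u = -(2 * Real.pi * u) := by ring
  have e2 : Real.log 64 = 2 * Real.log 8 := by
    rw [show (64 : ℝ) = 8 ^ 2 by norm_num, Real.log_pow]
    norm_num
  rw [e1, e2]
  ring

lemma R3_nonneg (w : ℝ × ℝ × ℝ) : 0 ≤ R3 w := norm_nonneg _

@[fun_prop]
lemma continuous_R3 : Continuous R3 := by
  unfold R3
  fun_prop

lemma ZZ_eq_R3 (w : ℝ × ℝ × ℝ) : ZZ w = R3 w ^ 2 := rfl

lemma R3_le (w : ℝ × ℝ × ℝ) : R3 w ≤ 4 := by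
  have h := ZZ_le w
  rw [ZZ_eq_R3] at h
  nlinarith [R3_nonneg w]

theorem A5 (h3 : ∀ u, us < u →
      (epsC ((-Real.exp (-(2 * Real.pi * u)) : ℝ) : ℂ)).re = eqs u)
    (h6 : lxq w0 = 0) :
    Integrable (fun w => Real.log (R3 w)) mu3 ∧
    (∫ w, Real.posLog (R3 w) ∂mu3) = (∫ w, Real.log (R3 w) ∂mu3) +
      96 * ∫ u in Set.Ioi w0, u * eqs u * lxq u := by
  have hc := us_lt_w0
  have hs1 : sR w0 = 1 := by
    rw [lxq_sR hc] at h6
    have h7 : Real.log (sR w0) = 0 := by linarith
    rcases Real.log_eq_zero.mp h7 with h | h | h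
    · linarith [sR_pos hc]
    · exact h
    · linarith [sR_pos hc]
  have hnu := nu_eq hc hs1
  set A : Set (ℝ × ℝ × ℝ) := {w | 0 < ZZ w ∧ ZZ w < 1} with hA
  have hmeas : AEStronglyMeasurable (fun z : ℝ => 1 / 2 * Real.log z) nu :=
    (Real.measurable_log.const_mul (1 / 2)).aestronglyMeasurable
  have hmeas' : AEStronglyMeasurable (fun z : ℝ => 1 / 2 * Real.log z) (nu' w0) :=
    (Real.measurable_log.const_mul (1 / 2)).aestronglyMeasurable
  have hlt : ∀ᵐ u ∂(volume.restrict (Set.Ioi w0)), ENNReal.ofReal (kap u) < ⊤ :=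
    Eventually.of_forall fun u => ENNReal.ofReal_lt_top
  have hpt : ∀ u ∈ Set.Ioi w0, (ENNReal.ofReal (kap u)).toReal • (1 / 2 * Real.log (sR u)) =
      -96 * (u * eqs u * lxq u) := by
    intro u hu
    have hu' : us < u := hc.trans hu
    rw [ENNReal.toReal_ofReal (kap_nonneg hu'), smul_eq_mul, ← lxq_sR hu']
    unfold kap
    rw [h3 u hu']
    ring
  have hint0 : IntegrableOn (fun u => u * eqs u * lxq u) (Set.Ioi w0) :=
    Pool.RV.integrableOn_eqs_lxq Pool.RV.w0_pos
  have hint' : Integrable (fun z : ℝ => 1 / 2 * Real.log z) (nu' w0) := by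
    unfold nu'
    rw [integrable_map_measure hmeas' (sR_aem' hc),
      integrable_withDensity_iff_integrable_smul₀' (kap_aem hc) hlt]
    refine (hint0.const_mul (-96)).congr ?_
    filter_upwards [ae_restrict_mem measurableSet_Ioi] with u hu
    exact (hpt u hu).symm
  have hval : ∫ z, 1 / 2 * Real.log z ∂(nu' w0) = -96 * ∫ u in Set.Ioi w0, u * eqs u * lxq u := by
    unfold nu'
    rw [integral_map (sR_aem' hc) hmeas',
      integral_withDensity_eq_integral_toReal_smul₀ (kap_aem hc) hlt, ← integral_const_mul]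
    exact setIntegral_congr_fun measurableSet_Ioi hpt
  have hintA : IntegrableOn (fun w => 1 / 2 * Real.log (ZZ w)) A mu3 := by
    rw [← hnu] at hint'
    unfold nu at hint'
    rw [integrable_map_measure hmeas continuous_ZZ.measurable.aemeasurable] at hint'
    exact hint'
  have hvalA : ∫ w in A, 1 / 2 * Real.log (ZZ w) ∂mu3 =
      -96 * ∫ u in Set.Ioi w0, u * eqs u * lxq u := by
    rw [← hval, ← hnu]
    unfold nu
    rw [integral_map continuous_ZZ.measurable.aemeasurable hmeas]
  have hlogR : ∀ w, Real.log (R3 w) = 1 / 2 * Real.log (ZZ w) := by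
    intro w
    rw [ZZ_eq_R3, Real.log_pow]
    push_cast
    ring
  have hsplit : ∀ w, Real.log (R3 w) = Real.posLog (R3 w) +
      A.indicator (fun w => 1 / 2 * Real.log (ZZ w)) w := by
    intro w
    by_cases hw : w ∈ A
    · rw [Set.indicator_of_mem hw, ← hlogR]
      have h1 : R3 w < 1 := by
        have := hw.2
        rw [ZZ_eq_R3] at this
        nlinarith [R3_nonneg w]
      have h2 : Real.posLog (R3 w) = 0 := by
        rw [Real.posLog_eq_zero_iff, abs_of_nonneg (R3_nonneg w)]
        exact h1.le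
      rw [h2, zero_add]
    · rw [Set.indicator_of_notMem hw, add_zero]
      rcases (ZZ_nonneg w).eq_or_lt with h | h
      · have h1 : R3 w = 0 := by
          rw [ZZ_eq_R3] at h
          exact pow_eq_zero_iff two_ne_zero |>.mp h.symm
        rw [h1]
        simp
      · have h1 : 1 ≤ R3 w := by
          by_contra h2
          apply hw
          refine ⟨h, ?_⟩
          rw [ZZ_eq_R3]
          nlinarith [R3_nonneg w]
        rw [Real.posLog_eq_log]
        rwa [abs_of_nonneg (R3_nonneg w)]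
  have hpos : Integrable (fun w => Real.posLog (R3 w)) mu3 := by
    refine Integrable.of_bound ?_ (Real.log 4) (Eventually.of_forall fun w => ?_)
    · exact (Real.continuous_posLog.comp continuous_R3).aestronglyMeasurable
    · rw [Real.norm_of_nonneg Real.posLog_nonneg]
      calc Real.posLog (R3 w) ≤ Real.posLog 4 := Real.posLog_le_posLog (R3_nonneg w) (R3_le w)
        _ = Real.log 4 := Real.posLog_eq_log (by norm_num)
  have hind : Integrable (A.indicator fun w => 1 / 2 * Real.log (ZZ w)) mu3 :=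
    (integrable_indicator_iff measurableSet_A).mpr hintA
  constructor
  · exact (hpos.add hind).congr (Eventually.of_forall fun w => (hsplit w).symm)
  · have : ∫ w, Real.log (R3 w) ∂mu3 = (∫ w, Real.posLog (R3 w) ∂mu3) +
        ∫ w, A.indicator (fun w => 1 / 2 * Real.log (ZZ w)) w ∂mu3 := by
      rw [← integral_add hpos hind]
      exact integral_congr_ae (Eventually.of_forall hsplit)
    rw [this, integral_indicator measurableSet_A, hvalA]
    ring

end Pool.Agent.RV.A
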