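import Pool.Agent.Work.MP_5955e5_nt.A.Agm

set_option autoImplicit false

namespace Pool.Agent.RV.A

open MeasureTheory Real Set

lemma circle_shift {F : ℝ → ℝ} (hF : Function.Periodic F 1) (r : ℝ) :
    ∫ s in (0 : ℝ)..1, F (s - r) = ∫ s in (0 : ℝ)..1, F s := by
  rw [intervalIntegral.integral_comp_sub_right]
  have := hF.intervalIntegral_add_eq (0 - r) 0
  rw [show (1 : ℝ) - r = 0 - r + 1 by ring, this]
  norm_num

lemma exists_angle (h b : ℝ) : ∃ ρ : ℝ, h = √(h ^ 2 + b ^ 2) * cos (2 * π * ρ) ∧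
    b = √(h ^ 2 + b ^ 2) * sin (2 * π * ρ) := by
  have hpi := Real.pi_pos
  set z : ℂ := ⟨h, b⟩ with hz
  have hn : ‖z‖ = √(h ^ 2 + b ^ 2) := by
    rw [Complex.norm_def, Complex.normSq_mk]
    congr 1
    ring
  refine ⟨z.arg / (2 * π), ?_⟩
  rw [mul_div_cancel₀ _ (by positivity : (2 * π) ≠ 0), ← hn]
  exact ⟨(Complex.norm_mul_cos_arg z).symm, (Complex.norm_mul_sin_arg z).symm⟩

lemma circle_lin {T h b : ℝ} (hT : 0 < T) (hR : h ^ 2 + b ^ 2 < T ^ 2) :
    ∫ s in (0 : ℝ)..1, 1 / √(T + h * cos (2 * π * s) + b * sin (2 * π * s)) =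
      M √(T + √(h ^ 2 + b ^ 2)) √(T - √(h ^ 2 + b ^ 2)) := by
  obtain ⟨ρ, hh, hb⟩ := exists_angle h b
  set R := √(h ^ 2 + b ^ 2) with hRdef
  have hR0 : 0 ≤ R := Real.sqrt_nonneg _
  have hRT : R < T := by
    rw [hRdef]
    exact (Real.sqrt_lt' hT).mpr hR
  have h1 : ∀ s : ℝ, 1 / √(T + h * cos (2 * π * s) + b * sin (2 * π * s)) =
      (fun u : ℝ => 1 / √(T + R * cos (2 * π * u))) (s - ρ) := by
    intro s
    simp only
    congr 2
    rw [mul_sub, Real.cos_sub]
    have e1 : h * cos (2 * π * s) = R * cos (2 * π * ρ) * cos (2 * π * s) := by rw [← hh]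
    have e2 : b * sin (2 * π * s) = R * sin (2 * π * ρ) * sin (2 * π * s) := by rw [← hb]
    rw [e1, e2]
    ring
  simp_rw [h1]
  refine (circle_shift (F := fun u : ℝ => 1 / √(T + R * cos (2 * π * u))) ?_ ρ).trans ?_
  swap
  · have h2 := circle_quad (P := T + R) (Q := T - R) (R := 1) (S := 1) (by linarith) (by linarith)
      one_pos one_pos
    rw [mul_one, mul_one] at h2
    rw [← h2]
    congr 1
    ext s
    congr 2
    rw [show 2 * π * s = 2 * (π * s) by ring, Real.cos_two_mul]
    have := Real.sin_sq_add_cos_sq (π * s)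
    have e : sin (π * s) ^ 2 = 1 - cos (π * s) ^ 2 := by linarith
    rw [e]
    ring
  · intro s
    simp only [mul_add, mul_one, Real.cos_add_two_pi]

lemma M_sqrt {T R : ℝ} (hT : 0 < T) (hR0 : 0 ≤ R) (h : T ^ 2 - R ^ 2 = 1) :
    M √(T + R) √(T - R) = M 1 √((T + 1) / 2) := by
  have hRT : R < T := by nlinarith
  have h1 : 0 < T + R := by linarith
  have h2 : 0 < T - R := by linarith
  have h12 : √(T + R) * √(T - R) = 1 := by
    rw [← Real.sqrt_mul h1.le, show (T + R) * (T - R) = 1 by linarith, Real.sqrt_one]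
  rw [M_landen (Real.sqrt_pos.mpr h1) (Real.sqrt_pos.mpr h2), M_comm, h12, Real.sqrt_one]
  congr 1
  symm
  rw [Real.sqrt_eq_iff_mul_self_eq (by linarith) (by positivity)]
  have e1 := Real.mul_self_sqrt h1.le
  have e2 := Real.mul_self_sqrt h2.le
  nlinarith

/-- The addition formula: the integral over the circle of the product of two Poisson type
factors is a complete elliptic integral of the hyperbolic distance. -/
lemma circle_add (x y r : ℝ) :
    ∫ s in (0 : ℝ)..1, 1 / √((cosh x - sinh x * cos (2 * π * s)) *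
      (cosh y - sinh y * cos (2 * π * (s - r)))) =
    M 1 √((cosh x * cosh y - sinh x * sinh y * cos (2 * π * r) + 1) / 2) := by
  have hpi := Real.pi_pos
  set C := cosh y with hC
  set S := sinh y with hS
  set c0 := cos (2 * π * r) with hc0
  set s0 := sin (2 * π * r) with hs0
  have hcs : s0 ^ 2 + c0 ^ 2 = 1 := Real.sin_sq_add_cos_sq _
  have hCS : C ^ 2 - S ^ 2 = 1 := by rw [hC, hS]; exact Real.cosh_sq_sub_sinh_sq y
  have hC1 : 1 ≤ C := Real.one_le_cosh y
  have hc1 : |c0| ≤ 1 := Real.abs_cos_le_one _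
  have hSC : |S| < C := by
    apply abs_lt_of_sq_lt_sq _ (by linarith)
    linarith
  set a := exp x * (C - S * c0) with ha
  set b := - S * s0 with hb
  set c := exp (-x) * (C + S * c0) with hc
  have hee : exp x * exp (-x) = 1 := by rw [← Real.exp_add]; simp
  have hSc : |S * c0| < C := by
    rw [abs_mul]
    calc |S| * |c0| ≤ |S| * 1 := by gcongr
      _ < C := by linarith
  have ha0 : 0 < a := mul_pos (exp_pos x) (by linarith [(abs_lt.mp hSc).2])
  have hcc0 : 0 < c := mul_pos (exp_pos _) (by linarith [(abs_lt.mp hSc).1])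
  have hdet : a * c - b ^ 2 = 1 := by
    have : a * c = (exp x * exp (-x)) * (C ^ 2 - S ^ 2 * c0 ^ 2) := by rw [ha, hc]; ring
    rw [this, hee, hb]
    nlinarith
  -- step 1: pass to the line
  have hper : Function.Periodic (fun s : ℝ => 1 / √((cosh x - sinh x * cos (2 * π * s)) *
      (C - S * cos (2 * π * (s - r))))) 1 := by
    intro s
    simp only
    rw [show 2 * π * (s + 1) = 2 * π * s + 2 * π by ring,
      show 2 * π * (s + 1 - r) = 2 * π * (s - r) + 2 * π by ring, Real.cos_add_two_pi,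
      Real.cos_add_two_pi]
  have hquadx : ∀ s : ℝ, cosh x - sinh x * cos (2 * π * s) =
      exp (-x) * cos (π * s) ^ 2 + exp x * sin (π * s) ^ 2 := by
    intro s
    rw [show 2 * π * s = 2 * (π * s) by ring, Real.cos_two_mul, Real.cosh_eq, Real.sinh_eq]
    have e : sin (π * s) ^ 2 = 1 - cos (π * s) ^ 2 := by
      have := Real.sin_sq_add_cos_sq (π * s); linarith
    rw [e]
    ring
  have hquady : ∀ s : ℝ, C - S * cos (2 * π * (s - r)) =
      (C - S * c0) * cos (π * s) ^ 2 + 2 * b * (sin (π * s) * cos (π * s)) +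
        (C + S * c0) * sin (π * s) ^ 2 := by
    intro s
    rw [show 2 * π * (s - r) = 2 * (π * s) - 2 * π * r by ring, Real.cos_sub, Real.cos_two_mul,
      Real.sin_two_mul, ← hc0, ← hs0, hb]
    have e : sin (π * s) ^ 2 = 1 - cos (π * s) ^ 2 := by
      have := Real.sin_sq_add_cos_sq (π * s); linarith
    rw [e]
    ring
  set g : ℝ → ℝ := fun y => 1 / √((exp (-x) + exp x * y ^ 2) *
    ((C - S * c0) + 2 * b * y + (C + S * c0) * y ^ 2)) with hg
  have hstep1 : ∫ s in (0 : ℝ)..1, 1 / √((cosh x - sinh x * cos (2 * π * s)) *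
      (C - S * cos (2 * π * (s - r)))) = (1 / π) * ∫ y : ℝ, g y := by
    rw [← circle_eq hper, tan_subst, ← mul_assoc, one_div_mul_cancel hpi.ne', one_mul,
      intervalIntegral.integral_of_le (by norm_num), intervalIntegral.integral_of_le (by norm_num),
      integral_Ioc_eq_integral_Ioo, integral_Ioc_eq_integral_Ioo]
    refine setIntegral_congr_fun measurableSet_Ioo ?_
    intro s hs
    have hcp : 0 < cos (π * s) := by
      apply Real.cos_pos_of_mem_Ioo
      constructor
      · nlinarith [hs.1]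
      · nlinarith [hs.2]
    simp only [hg]
    rw [hquadx, hquady]
    have : (exp (-x) * cos (π * s) ^ 2 + exp x * sin (π * s) ^ 2) *
        ((C - S * c0) * cos (π * s) ^ 2 + 2 * b * (sin (π * s) * cos (π * s)) +
        (C + S * c0) * sin (π * s) ^ 2) =
      (cos (π * s) ^ 2) ^ 2 * ((exp (-x) + exp x * tan (π * s) ^ 2) *
        ((C - S * c0) + 2 * b * tan (π * s) + (C + S * c0) * tan (π * s) ^ 2)) := by
      rw [Real.tan_eq_sin_div_cos]
      field_simp
    rw [this, Real.sqrt_mul (by positivity), Real.sqrt_sq (by positivity)]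
    field_simp
  -- step 2: dilation
  have hstep2 : ∫ y : ℝ, g y = ∫ u : ℝ, 1 / √((1 + u ^ 2) * (a + 2 * b * u + c * u ^ 2)) := by
    have h := MeasureTheory.Measure.integral_comp_mul_left g (exp (-x))
    have h2 : ∀ u : ℝ, g (exp (-x) * u) =
        exp x * (1 / √((1 + u ^ 2) * (a + 2 * b * u + c * u ^ 2))) := by
      intro u
      simp only [hg]
      have e1 : exp (-x) = (exp x)⁻¹ := Real.exp_neg x
      have : (exp (-x) + exp x * (exp (-x) * u) ^ 2) *
          ((C - S * c0) + 2 * b * (exp (-x) * u) + (C + S * c0) * (exp (-x) * u) ^ 2) =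
          (exp (-x)) ^ 2 * ((1 + u ^ 2) * (a + 2 * b * u + c * u ^ 2)) := by
        rw [ha, hc, e1]
        have := (exp_pos x).ne'
        field_simp
      rw [this, Real.sqrt_mul (by positivity), Real.sqrt_sq (exp_pos _).le, e1]
      have := (exp_pos x).ne'
      field_simp
    simp_rw [h2] at h
    rw [integral_const_mul, smul_eq_mul, abs_of_pos (inv_pos.mpr (exp_pos _)), Real.exp_neg,
      inv_inv] at h
    exact (mul_left_cancel₀ (exp_pos x).ne' h).symm
  -- step 3: back to the circle
  have hstep3 : (1 / π) * ∫ u : ℝ, 1 / √((1 + u ^ 2) * (a + 2 * b * u + c * u ^ 2)) =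
      ∫ s in (0 : ℝ)..1, 1 / √((a + c) / 2 + (a - c) / 2 * cos (2 * π * s) +
        b * sin (2 * π * s)) := by
    rw [tan_subst, ← mul_assoc, one_div_mul_cancel hpi.ne', one_mul, ← circle_eq]
    · rw [intervalIntegral.integral_of_le (by norm_num),
        intervalIntegral.integral_of_le (by norm_num),
        integral_Ioc_eq_integral_Ioo, integral_Ioc_eq_integral_Ioo]
      refine setIntegral_congr_fun measurableSet_Ioo ?_
      intro s hs
      have hcp : 0 < cos (π * s) := by
        apply Real.cos_pos_of_mem_Ioo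
        constructor
        · nlinarith [hs.1]
        · nlinarith [hs.2]
      simp only
      have e2 : sin (π * s) ^ 2 = 1 - cos (π * s) ^ 2 := by
        have := Real.sin_sq_add_cos_sq (π * s); linarith
      have e : (a + c) / 2 + (a - c) / 2 * cos (2 * π * s) + b * sin (2 * π * s) =
          (cos (π * s) ^ 2) ^ 2 * ((1 + tan (π * s) ^ 2) *
            (a + 2 * b * tan (π * s) + c * tan (π * s) ^ 2)) := by
        rw [show 2 * π * s = 2 * (π * s) by ring, Real.cos_two_mul, Real.sin_two_mul,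
          Real.tan_eq_sin_div_cos]
        have e3 : (1 + (sin (π * s) / cos (π * s)) ^ 2) * cos (π * s) ^ 2 = 1 := by
          rw [div_pow, add_mul, div_mul_cancel₀ _ (by positivity), e2]; ring
        have e4 : cos (π * s) ^ 2 * (a + 2 * b * (sin (π * s) / cos (π * s)) +
            c * (sin (π * s) / cos (π * s)) ^ 2) = a * cos (π * s) ^ 2 +
            2 * b * (sin (π * s) * cos (π * s)) + c * sin (π * s) ^ 2 := by
          field_simp
        calc (a + c) / 2 + (a - c) / 2 * (2 * cos (π * s) ^ 2 - 1) +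
              b * (2 * sin (π * s) * cos (π * s))
            = a * cos (π * s) ^ 2 + 2 * b * (sin (π * s) * cos (π * s)) +
              c * sin (π * s) ^ 2 := by rw [e2]; ring
          _ = ((1 + (sin (π * s) / cos (π * s)) ^ 2) * cos (π * s) ^ 2) *
              (cos (π * s) ^ 2 * (a + 2 * b * (sin (π * s) / cos (π * s)) +
            c * (sin (π * s) / cos (π * s)) ^ 2)) := by rw [e3, e4, one_mul]
          _ = _ := by ring
      rw [e, Real.sqrt_mul (x := (cos (π * s) ^ 2) ^ 2) (by positivity),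
        Real.sqrt_sq (by positivity)]
      field_simp
    · intro s
      simp only [mul_add, mul_one, Real.cos_add_two_pi, Real.sin_add_two_pi]
  rw [hstep1, hstep2, hstep3]
  have hT : (a + c) / 2 = cosh x * C - sinh x * S * c0 := by
    rw [ha, hc, Real.cosh_eq x, Real.sinh_eq x]
    ring
  have hlt : ((a - c) / 2) ^ 2 + b ^ 2 < ((a + c) / 2) ^ 2 := by nlinarith
  rw [circle_lin (by positivity) hlt, M_sqrt (by positivity) (Real.sqrt_nonneg _), hT]
  rw [Real.sq_sqrt (by positivity)]
  nlinarith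

lemma circle_one (x : ℝ) :
    ∫ s in (0 : ℝ)..1, 1 / √(cosh x - sinh x * cos (2 * π * s)) =
      M (exp (-x / 2)) (exp (x / 2)) := by
  have h2 := circle_quad (P := exp (-x)) (Q := exp x) (R := 1) (S := 1) (exp_pos _) (exp_pos _)
      one_pos one_pos
  have e1 : √(exp (-x) * 1) = exp (-x / 2) := by
    rw [mul_one, Real.sqrt_eq_iff_mul_self_eq (exp_pos _).le (exp_pos _).le, ← Real.exp_add]
    congr 1; ring
  have e2 : √(exp x * 1) = exp (x / 2) := by
    rw [mul_one, Real.sqrt_eq_iff_mul_self_eq (exp_pos _).le (exp_pos _).le, ← Real.exp_add]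
    congr 1; ring
  rw [e1, e2] at h2
  rw [← h2]
  congr 1
  ext s
  congr 2
  rw [show 2 * π * s = 2 * (π * s) by ring, Real.cos_two_mul, Real.cosh_eq, Real.sinh_eq]
  have := Real.sin_sq_add_cos_sq (π * s)
  have e : sin (π * s) ^ 2 = 1 - cos (π * s) ^ 2 := by linarith
  rw [e]
  ring

end Pool.Agent.RV.A
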