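import Mathlib

set_option autoImplicit false

namespace Pool.Agent.RV.A

open MeasureTheory Real Set

/-- Gauss form of the complete elliptic integral, the inverse of the AGM. -/
noncomputable def M (a b : ℝ) : ℝ :=
  (1 / π) * ∫ y : ℝ, 1 / √((a ^ 2 + y ^ 2) * (b ^ 2 + y ^ 2))

lemma M_comm (a b : ℝ) : M a b = M b a := by
  unfold M
  simp_rw [mul_comm (a ^ 2 + _)]

lemma quad_pos {a : ℝ} (ha : 0 < a) (y : ℝ) : 0 < a ^ 2 + y ^ 2 := by positivity

lemma integrable_quad {P Q R S : ℝ} (hP : 0 < P) (hQ : 0 < Q) (hR : 0 < R) (hS : 0 < S) :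
    Integrable fun y : ℝ => 1 / √((P + Q * y ^ 2) * (R + S * y ^ 2)) := by
  set c : ℝ := min P Q with hc
  set d : ℝ := min R S with hd
  have hc0 : 0 < c := lt_min hP hQ
  have hd0 : 0 < d := lt_min hR hS
  have hI : Integrable fun y : ℝ => (1 / √(c * d)) * (1 + y ^ 2)⁻¹ :=
    integrable_inv_one_add_sq.const_mul _
  refine hI.mono' ?_ ?_
  · refine Measurable.aestronglyMeasurable ?_
    fun_prop
  · refine Filter.Eventually.of_forall fun y => ?_
    have h1 : c * (1 + y ^ 2) ≤ P + Q * y ^ 2 := by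
      have := min_le_left P Q
      have h2 := min_le_right P Q
      nlinarith [sq_nonneg y]
    have h2 : d * (1 + y ^ 2) ≤ R + S * y ^ 2 := by
      have := min_le_left R S
      have h2 := min_le_right R S
      nlinarith [sq_nonneg y]
    have h3 : 0 < 1 + y ^ 2 := by positivity
    rw [Real.norm_of_nonneg (by positivity)]
    have h4 : (√(c * d) * (1 + y ^ 2)) ≤ √((P + Q * y ^ 2) * (R + S * y ^ 2)) := by
      apply Real.le_sqrt_of_sq_le
      rw [mul_pow, Real.sq_sqrt (by positivity)]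
      calc c * d * (1 + y ^ 2) ^ 2 = (c * (1 + y ^ 2)) * (d * (1 + y ^ 2)) := by ring
        _ ≤ _ := mul_le_mul h1 h2 (by positivity) (by positivity)
    calc 1 / √((P + Q * y ^ 2) * (R + S * y ^ 2)) ≤ 1 / (√(c * d) * (1 + y ^ 2)) :=
          one_div_le_one_div_of_le (by positivity) h4
      _ = _ := by field_simp

lemma quad_subst {P Q R S : ℝ} (hP : 0 < P) (hQ : 0 < Q) (hR : 0 < R) (hS : 0 < S) :
    (1 / π) * ∫ y : ℝ, 1 / √((P + Q * y ^ 2) * (R + S * y ^ 2)) = M √(P * S) √(Q * R) := by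
  unfold M
  congr 1
  have hk : 0 < √(Q * S) := by positivity
  have h := MeasureTheory.Measure.integral_comp_mul_left
    (fun v : ℝ => 1 / √((√(P * S) ^ 2 + v ^ 2) * (√(Q * R) ^ 2 + v ^ 2))) (√(Q * S))
  have h2 : ∀ y : ℝ, 1 / √((√(P * S) ^ 2 + (√(Q * S) * y) ^ 2) *
      (√(Q * R) ^ 2 + (√(Q * S) * y) ^ 2)) =
      (√(Q * S))⁻¹ * (1 / √((P + Q * y ^ 2) * (R + S * y ^ 2))) := by
    intro y
    rw [mul_pow, Real.sq_sqrt (by positivity), Real.sq_sqrt (by positivity),
      Real.sq_sqrt (by positivity)]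
    have : (P * S + Q * S * y ^ 2) * (Q * R + Q * S * y ^ 2) =
        (Q * S) * ((P + Q * y ^ 2) * (R + S * y ^ 2)) := by ring
    rw [this, Real.sqrt_mul (by positivity)]
    field_simp
  simp_rw [h2] at h
  rw [integral_const_mul, abs_of_pos (inv_pos.mpr hk), smul_eq_mul] at h
  exact mul_left_cancel₀ (inv_ne_zero hk.ne') h

lemma M_smul {a b l : ℝ} (ha : 0 < a) (hb : 0 < b) (hl : 0 < l) :
    M (l * a) (l * b) = M a b / l := by
  have h := quad_subst (P := (l * a) ^ 2) (Q := 1) (R := (l * b) ^ 2) (S := 1)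
    (by positivity) one_pos (by positivity) one_pos
  have h2 := MeasureTheory.Measure.integral_comp_mul_left
    (fun v : ℝ => 1 / √(((l * a) ^ 2 + v ^ 2) * ((l * b) ^ 2 + v ^ 2))) l
  unfold M
  have h3 : ∀ y : ℝ, 1 / √(((l * a) ^ 2 + (l * y) ^ 2) * ((l * b) ^ 2 + (l * y) ^ 2)) =
      (l ^ 2)⁻¹ * (1 / √((a ^ 2 + y ^ 2) * (b ^ 2 + y ^ 2))) := by
    intro y
    have : ((l * a) ^ 2 + (l * y) ^ 2) * ((l * b) ^ 2 + (l * y) ^ 2) =
      (l ^ 2) ^ 2 * ((a ^ 2 + y ^ 2) * (b ^ 2 + y ^ 2)) := by ring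
    rw [this, Real.sqrt_mul (by positivity), Real.sqrt_sq (by positivity)]
    field_simp
  simp_rw [h3] at h2
  rw [integral_const_mul, abs_of_pos (inv_pos.mpr hl), smul_eq_mul] at h2
  have h4 : ∫ y : ℝ, 1 / √(((l * a) ^ 2 + y ^ 2) * ((l * b) ^ 2 + y ^ 2)) =
      l⁻¹ * ∫ y : ℝ, 1 / √((a ^ 2 + y ^ 2) * (b ^ 2 + y ^ 2)) := by
    field_simp at h2 ⊢
    linarith
  rw [h4]
  ring

lemma tan_subst (g : ℝ → ℝ) :
    ∫ y : ℝ, g y = π * ∫ s in (-1 / 2 : ℝ)..(1 / 2), g (tan (π * s)) / cos (π * s) ^ 2 := by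
  have hpi := Real.pi_pos
  have himg : (fun s : ℝ => tan (π * s)) '' (Ioo (-1 / 2) (1 / 2)) = univ := by
    apply Set.eq_univ_of_forall
    intro y
    refine ⟨arctan y / π, ⟨?_, ?_⟩, ?_⟩
    · rw [lt_div_iff₀ hpi]
      have := Real.neg_pi_div_two_lt_arctan y
      linarith
    · rw [div_lt_iff₀ hpi]
      have := Real.arctan_lt_pi_div_two y
      linarith
    · simp only
      rw [mul_div_cancel₀ _ hpi.ne', Real.tan_arctan]
  have hcos : ∀ s ∈ Ioo (-1 / 2 : ℝ) (1 / 2), 0 < cos (π * s) := by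
    intro s hs
    apply Real.cos_pos_of_mem_Ioo
    constructor
    · nlinarith [hs.1]
    · nlinarith [hs.2]
  have hinj : InjOn (fun s : ℝ => tan (π * s)) (Ioo (-1 / 2) (1 / 2)) := by
    intro a ha b hb hab
    have := Real.injOn_tan (x₁ := π * a) (x₂ := π * b) ?_ ?_ hab
    · exact mul_left_cancel₀ hpi.ne' this
    · constructor
      · nlinarith [ha.1]
      · nlinarith [ha.2]
    · constructor
      · nlinarith [hb.1]
      · nlinarith [hb.2]
  have hder : ∀ s ∈ Ioo (-1 / 2 : ℝ) (1 / 2),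
      HasDerivWithinAt (fun s : ℝ => tan (π * s)) (1 / cos (π * s) ^ 2 * π)
        (Ioo (-1 / 2) (1 / 2)) s := by
    intro s hs
    have h1 := (Real.hasDerivAt_tan (hcos s hs).ne')
    have h2 : HasDerivAt (fun s : ℝ => π * s) π s := by
      simpa using (hasDerivAt_id s).const_mul π
    exact (h1.comp s h2).hasDerivWithinAt
  have h := integral_image_eq_integral_abs_deriv_smul measurableSet_Ioo hder hinj g
  rw [himg, Measure.restrict_univ] at h
  rw [h, intervalIntegral.integral_of_le (by norm_num), ← integral_const_mul,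
    integral_Ioc_eq_integral_Ioo]
  refine setIntegral_congr_fun measurableSet_Ioo ?_
  intro s hs
  have := hcos s hs
  simp only [smul_eq_mul]
  rw [abs_of_pos (by positivity)]
  field_simp

lemma circle_eq {F : ℝ → ℝ} (hF : Function.Periodic F 1) :
    ∫ s in (-1 / 2 : ℝ)..(1 / 2), F s = ∫ s in (0 : ℝ)..1, F s := by
  have := hF.intervalIntegral_add_eq (-1 / 2) 0
  norm_num at this ⊢
  exact this

lemma circle_quad {P Q R S : ℝ} (hP : 0 < P) (hQ : 0 < Q) (hR : 0 < R) (hS : 0 < S) :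
    ∫ s in (0 : ℝ)..1, 1 / √((P * cos (π * s) ^ 2 + Q * sin (π * s) ^ 2) *
      (R * cos (π * s) ^ 2 + S * sin (π * s) ^ 2)) = M √(P * S) √(Q * R) := by
  have hpi := Real.pi_pos
  rw [← circle_eq, ← quad_subst hP hQ hR hS, tan_subst, ← mul_assoc, one_div_mul_cancel hpi.ne',
    one_mul, intervalIntegral.integral_of_le (by norm_num),
    intervalIntegral.integral_of_le (by norm_num), integral_Ioc_eq_integral_Ioo,
    integral_Ioc_eq_integral_Ioo]
  · refine setIntegral_congr_fun measurableSet_Ioo ?_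
    intro s hs
    have hc : 0 < cos (π * s) := by
      apply Real.cos_pos_of_mem_Ioo
      constructor
      · nlinarith [hs.1]
      · nlinarith [hs.2]
    simp only
    have : (P * cos (π * s) ^ 2 + Q * sin (π * s) ^ 2) *
      (R * cos (π * s) ^ 2 + S * sin (π * s) ^ 2) =
      (cos (π * s) ^ 2) ^ 2 * ((P + Q * tan (π * s) ^ 2) * (R + S * tan (π * s) ^ 2)) := by
      rw [Real.tan_eq_sin_div_cos]
      field_simp
    rw [this, Real.sqrt_mul (by positivity), Real.sqrt_sq (by positivity)]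
    field_simp
  · intro s
    simp only [mul_add, mul_one, Real.cos_add_pi, Real.sin_add_pi, neg_sq]

/-- Gauss / Landen transformation. -/
lemma M_landen {a b : ℝ} (ha : 0 < a) (hb : 0 < b) :
    M a b = M ((a + b) / 2) √(a * b) := by
  have hab : 0 < a * b := by positivity
  unfold M
  congr 1
  have himg : (fun x : ℝ => (x - a * b / x) / 2) '' (Ioi 0) = univ := by
    apply Set.eq_univ_of_forall
    intro y
    have hs : y < √(y ^ 2 + a * b) := by
      apply Real.lt_sqrt_of_sq_lt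
      linarith
    have hs2 : -y < √(y ^ 2 + a * b) := by
      apply Real.lt_sqrt_of_sq_lt
      nlinarith
    have hsq : √(y ^ 2 + a * b) ^ 2 = y ^ 2 + a * b := Real.sq_sqrt (by positivity)
    refine ⟨y + √(y ^ 2 + a * b), ?_, ?_⟩
    · simp only [mem_Ioi]; linarith
    · have hne : y + √(y ^ 2 + a * b) ≠ 0 := by linarith
      simp only
      field_simp
      nlinarith
  have hder : ∀ x ∈ Ioi (0 : ℝ),
      HasDerivWithinAt (fun x : ℝ => (x - a * b / x) / 2) ((1 + a * b / x ^ 2) / 2) (Ioi 0) x := by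
    intro x hx
    have hx' : x ≠ 0 := ne_of_gt hx
    have h0 : HasDerivAt (fun x : ℝ => a * b / x) (-(a * b) / x ^ 2) x := by
      have := (hasDerivAt_inv hx').const_mul (a * b)
      have h5 : -(a * b) / x ^ 2 = a * b * -(x ^ 2)⁻¹ := by rw [div_eq_mul_inv]; ring
      rw [h5]
      simpa only [div_eq_mul_inv] using this
    have h1 : HasDerivAt (fun x : ℝ => (x - a * b / x) / 2) ((1 - (-(a * b) / x ^ 2)) / 2) x :=
      ((hasDerivAt_id x).sub h0).div_const 2
    have h2 : (1 + a * b / x ^ 2) / 2 = (1 - (-(a * b) / x ^ 2)) / 2 := by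
      rw [neg_div, sub_neg_eq_add]
    rw [h2]
    exact h1.hasDerivWithinAt
  have hinj : InjOn (fun x : ℝ => (x - a * b / x) / 2) (Ioi 0) := by
    intro x hx z hz h
    simp only [mem_Ioi] at hx hz
    simp only at h
    field_simp at h
    have h2 : (x - z) * (x * z + a * b) = 0 := by nlinarith
    rcases mul_eq_zero.mp h2 with h3 | h3
    · linarith
    · have : 0 < x * z + a * b := by positivity
      linarith
  have h := integral_image_eq_integral_abs_deriv_smul measurableSet_Ioi hder hinj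
    (fun y : ℝ => 1 / √((((a + b) / 2) ^ 2 + y ^ 2) * (√(a * b) ^ 2 + y ^ 2)))
  rw [himg, Measure.restrict_univ] at h
  rw [h]
  have heven : ∫ y : ℝ, 1 / √((a ^ 2 + y ^ 2) * (b ^ 2 + y ^ 2)) =
      2 * ∫ y in Ioi (0 : ℝ), 1 / √((a ^ 2 + y ^ 2) * (b ^ 2 + y ^ 2)) := by
    rw [← integral_comp_abs]
    simp only [sq_abs]
  rw [heven, ← integral_const_mul]
  refine setIntegral_congr_fun measurableSet_Ioi ?_
  intro x hx
  simp only [mem_Ioi] at hx
  simp only [smul_eq_mul]
  rw [Real.sq_sqrt hab.le, abs_of_pos (by positivity)]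
  have h1 : (((a + b) / 2) ^ 2 + ((x - a * b / x) / 2) ^ 2) * (a * b + ((x - a * b / x) / 2) ^ 2) =
      ((x ^ 2 + a * b) / (4 * x ^ 2)) ^ 2 * ((a ^ 2 + x ^ 2) * (b ^ 2 + x ^ 2)) := by
    field_simp
    ring
  rw [h1, Real.sqrt_mul (x := ((x ^ 2 + a * b) / (4 * x ^ 2)) ^ 2) (by positivity),
    Real.sqrt_sq (by positivity)]
  have h3 : 0 < √((a ^ 2 + x ^ 2) * (b ^ 2 + x ^ 2)) := by positivity
  field_simp
  ring

end Pool.Agent.RV.A
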