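import Pool.Agent.Work.MP_5955e5_nt.A.Ray

set_option autoImplicit false

namespace Pool.Agent.RV.A

open Filter Topology Complex MeasureTheory

lemma deriv_XC_im {x : ℝ} (h : |x| < 1) : (deriv XC x).im = 0 := by
  have hx : ‖(x : ℂ)‖ < 1 := by rwa [Complex.norm_real, Real.norm_eq_abs]
  have h1 : HasDerivAt (fun t : ℝ => (XC t).im) ((deriv XC x).im) x := by
    have h2 : HasDerivAt (fun t : ℝ => XC t) (deriv XC x) x := (hasDerivAt_XC hx).comp_ofReal
    have := Complex.imCLM.hasFDerivAt.comp_hasDerivAt x h2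
    simpa [Function.comp_def] using this
  have h3 : HasDerivAt (fun t : ℝ => (XC t).im) 0 x := by
    have h0 : ∀ᶠ t : ℝ in 𝓝 x, (XC (t : ℂ)).im = 0 := by
      have : ∀ᶠ t in 𝓝 x, |t| < 1 := continuous_abs.continuousAt.eventually_lt_const h
      filter_upwards [this] with t ht
      rw [← XC_real ht]
      simp
    exact (hasDerivAt_const x (0 : ℝ)).congr_of_eventuallyEq h0
  exact h1.unique h3

lemma abs_neg_exp_lt {u : ℝ} (hu : us < u) : |(-Real.exp (-(2 * Real.pi * u)))| < 1 / 50 := by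
  rw [abs_neg, abs_of_pos (Real.exp_pos _)]
  exact exp_lt_of_us hu

lemma V_im {u : ℂ} (hu : u ∈ slitPlane) :
    (V u).im = ∫ w, Complex.arg ((ZZ w : ℂ) + u) ∂mu3 := by
  unfold V
  have := Complex.imCLM.integral_comp_comm (integrable_log_ZZ hu)
  simpa [Complex.log_im] using this.symm

lemma add_ne_zero_of_slit {u : ℂ} (hu : u ∈ slitPlane) (w : ℝ × ℝ × ℝ) :
    (ZZ w : ℂ) + u ≠ 0 := by
  obtain ⟨δ, hδ, hb⟩ := slit_ball hu
  exact slitPlane_ne_zero (hb u (Metric.mem_ball_self hδ) _ (ZZ_nonneg w)).1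

lemma integrable_inv_ZZ {u : ℂ} (hu : u ∈ slitPlane) :
    Integrable (fun w => 1 / ((ZZ w : ℂ) + u)) mu3 := by
  obtain ⟨δ, hδ, hb⟩ := slit_ball hu
  have hm : Measurable fun w => 1 / ((ZZ w : ℂ) + u) := by
    have := continuous_ZZ.measurable
    fun_prop
  refine Integrable.of_bound hm.aestronglyMeasurable (1 / δ) (Eventually.of_forall fun w => ?_)
  rw [norm_div, norm_one]
  exact one_div_le_one_div_of_le hδ (hb u (Metric.mem_ball_self hδ) _ (ZZ_nonneg w)).2

/-- the atom at `s` is controlled by `W` -/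
lemma atom_le {z : ℂ} (hz : 0 < z.im) (s : ℝ) :
    mu3.real {w | ZZ w = s} * z.im ≤ ‖W z‖ * ‖z + s‖ ^ 2 := by
  have hsl : z ∈ slitPlane := Or.inr hz.ne'
  set g : ℝ × ℝ × ℝ → ℝ := fun w => z.im / normSq ((ZZ w : ℂ) + z) with hg
  have hgn : ∀ w, 0 ≤ g w := fun w => div_nonneg hz.le (normSq_nonneg _)
  have hgi : ∀ w, g w = -(1 / ((ZZ w : ℂ) + z)).im := by
    intro w
    simp only [hg, one_div, Complex.inv_im, Complex.add_im, Complex.ofReal_im, zero_add]
    ring
  have hint : Integrable g mu3 := by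
    have := (Complex.imCLM.integrable_comp (integrable_inv_ZZ hsl)).neg
    refine this.congr (Eventually.of_forall fun w => ?_)
    rw [hgi]
    rfl
  have h1 : ∫ w, g w ∂mu3 = -(W z).im := by
    unfold W
    have := Complex.imCLM.integral_comp_comm (integrable_inv_ZZ hsl)
    simp only [Complex.imCLM_apply] at this
    rw [← this, ← integral_neg]
    exact integral_congr_ae (Eventually.of_forall hgi)
  have hA : MeasurableSet {w | ZZ w = s} :=
    continuous_ZZ.measurable (measurableSet_singleton s)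
  have h2 : ∫ w in {w | ZZ w = s}, g w ∂mu3 = mu3.real {w | ZZ w = s} * (z.im / ‖z + s‖ ^ 2) := by
    have : ∫ w in {w | ZZ w = s}, g w ∂mu3 = ∫ w in {w | ZZ w = s}, z.im / ‖z + s‖ ^ 2 ∂mu3 := by
      apply setIntegral_congr_fun hA
      intro w hw
      have hw' : ZZ w = s := hw
      simp only [hg]
      rw [hw', add_comm, Complex.normSq_eq_norm_sq]
    rw [this, setIntegral_const, smul_eq_mul]
  have h3 : ∫ w in {w | ZZ w = s}, g w ∂mu3 ≤ ∫ w, g w ∂mu3 :=
    setIntegral_le_integral hint (Eventually.of_forall hgn)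
  have h4 : -(W z).im ≤ ‖W z‖ := by
    have := Complex.abs_im_le_norm (W z)
    linarith [neg_abs_le (W z).im]
  have h5 : 0 < ‖z + s‖ ^ 2 := by
    have : z + s ≠ 0 := by
      intro h
      have := congrArg Complex.im h
      simp at this
      linarith
    positivity
  rw [h2, h1] at h3
  have h6 := h3.trans h4
  rw [mul_div_assoc', div_le_iff₀ h5] at h6
  exact h6

lemma hasDerivAt_angle {u : ℝ} (hu : us < u) (φ : ℝ) :
    HasDerivAt (fun φ : ℝ => 64 * XC (Qc u φ)) (64 * (deriv XC (Qc u φ) * (I * Qc u φ))) φ := by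
  have hq : HasDerivAt (fun φ : ℝ => Qc u φ) (I * Qc u φ) φ := by
    unfold Qc
    have h1 : HasDerivAt (fun φ : ℝ => (-(2 * (Real.pi : ℂ) * u) + φ * I)) I φ := by
      have := ((Complex.ofRealCLM.hasDerivAt (x := φ)).mul_const I)
      simpa using this.const_add (-(2 * (Real.pi : ℂ) * u))
    have := h1.cexp
    convert this using 1
    ring
  apply HasDerivAt.const_mul
  have := (hasDerivAt_XC (q := Qc u φ) (by linarith [norm_Qc_lt φ hu])).scomp φ hq
  simpa [Function.comp_def, mul_comm] using this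

lemma no_atom {u : ℝ} (hu : us < u) : mu3.real {w | ZZ w = sR u} = 0 := by
  set P := mu3.real {w | ZZ w = sR u} with hP
  have hP0 : 0 ≤ P := measureReal_nonneg
  set f : ℝ → ℂ := fun φ => 64 * XC (Qc u φ) with hf
  set D0 : ℂ := 64 * (deriv XC (Qc u Real.pi) * (I * Qc u Real.pi)) with hD0
  have hfpi : f Real.pi = ((-sR u : ℝ) : ℂ) := sR_eq hu
  have hslope : Tendsto (slope f Real.pi) (𝓝[<] Real.pi) (𝓝 D0) := by
    have := hasDerivAt_iff_tendsto_slope.mp (hasDerivAt_angle hu Real.pi)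
    exact this.mono_left (nhdsWithin_mono _ (fun x hx => ne_of_lt hx))
  set Kf : ℝ → ℂ := fun φ => 3 / (16 * (Real.pi : ℂ) ^ 2) * (-(2 * Real.pi * u) + φ * I) ^ 2 *
    GC (Qc u φ) with hKf
  have hKc : Continuous Kf := by
    have : Continuous fun φ => GC (Qc u φ) := by
      apply GC_diff.continuousOn.comp_continuous
      · exact continuous_Qc.comp (by fun_prop : Continuous fun φ : ℝ => (u, φ))
      · intro φ
        exact mem_ball_of (by linarith [norm_Qc_lt φ hu])
    fun_prop
  have hD0im : D0.im < 0 := by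
    have hx : |(-Real.exp (-(2 * Real.pi * u)))| < 1 / 50 := abs_neg_exp_lt hu
    have hre : 0 < (deriv XC ((-Real.exp (-(2 * Real.pi * u)) : ℝ) : ℂ)).re := by
      apply deriv_XC_re
      rw [Complex.norm_real, Real.norm_eq_abs]
      exact hx.le
    have hp := Real.exp_pos (-(2 * Real.pi * u))
    rw [hD0, Qc_pi]
    have : (64 * (deriv XC ((-Real.exp (-(2 * Real.pi * u)) : ℝ) : ℂ) *
        (I * ((-Real.exp (-(2 * Real.pi * u)) : ℝ) : ℂ)))).im =
        -(64 * ((deriv XC ((-Real.exp (-(2 * Real.pi * u)) : ℝ) : ℂ)).re *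
          Real.exp (-(2 * Real.pi * u)))) := by
      simp only [Complex.mul_im, Complex.mul_re, Complex.I_re, Complex.I_im, Complex.ofReal_re,
        Complex.ofReal_im, zero_mul, mul_zero, one_mul, zero_sub, zero_add]
      norm_num
    rw [this]
    have := mul_pos hre hp
    linarith
  have hkey : ∀ᶠ φ in 𝓝[<] Real.pi, P * (-(slope f Real.pi φ).im) ≤
      ‖Kf φ‖ * ‖slope f Real.pi φ‖ ^ 2 * (Real.pi - φ) := by
    have h0 : ∀ᶠ φ in 𝓝[<] Real.pi, 0 < φ :=
      nhdsWithin_le_nhds (lt_mem_nhds Real.pi_pos)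
    filter_upwards [h0, self_mem_nhdsWithin] with φ hφ0 hφ1
    have hφ1' : φ < Real.pi := hφ1
    have hn := norm_Qc_lt φ hu
    have hsl := Qc_slit (u := u) hφ0 hφ1'
    have him : 0 < (f φ).im := by
      simp only [hf]
      have h1 : 0 < (XC (Qc u φ)).im := by
        apply XC_im_pos hn.le
        rw [Qc_im]
        have := Real.sin_pos_of_pos_of_lt_pi hφ0 hφ1'
        positivity
      simp only [Complex.mul_im]
      norm_num
      exact h1
    have h2 := atom_le him (sR u)
    have hW : W (f φ) = Kf φ := by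
      simp only [hf, hKf]
      rw [resolvent_cx hn hsl, log_Qc hφ0 hφ1']
    rw [hW] at h2
    have hd : 0 < Real.pi - φ := by linarith
    have hfs : f φ + sR u = (φ - Real.pi : ℝ) * slope f Real.pi φ := by
      rw [slope_def_module, hfpi, Complex.real_smul]
      have : ((φ - Real.pi : ℝ) : ℂ) ≠ 0 := by
        exact_mod_cast (by linarith : φ - Real.pi < 0).ne
      push_cast at this ⊢
      field_simp
      ring
    have hfi : (f φ).im = (Real.pi - φ) * (-(slope f Real.pi φ).im) := by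
      have := congrArg Complex.im hfs
      simp only [Complex.add_im, Complex.ofReal_im, add_zero, Complex.mul_im, Complex.ofReal_re,
        zero_mul] at this
      rw [this]
      ring
    have hfn : ‖f φ + sR u‖ ^ 2 = (Real.pi - φ) ^ 2 * ‖slope f Real.pi φ‖ ^ 2 := by
      rw [hfs, norm_mul, Complex.norm_real, mul_pow, Real.norm_eq_abs, sq_abs]
      ring
    rw [hfi, hfn] at h2
    have h3 : (Real.pi - φ) * (P * (-(slope f Real.pi φ).im)) ≤
        (Real.pi - φ) * (‖Kf φ‖ * ‖slope f Real.pi φ‖ ^ 2 * (Real.pi - φ)) := by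
      calc _ = P * ((Real.pi - φ) * (-(slope f Real.pi φ).im)) := by ring
        _ ≤ _ := h2
        _ = _ := by ring
    exact le_of_mul_le_mul_left h3 hd
  have hl : Tendsto (fun φ => P * (-(slope f Real.pi φ).im)) (𝓝[<] Real.pi)
      (𝓝 (P * (-D0.im))) :=
    (((Complex.continuous_im.tendsto D0).comp hslope).neg).const_mul P
  have hr : Tendsto (fun φ => ‖Kf φ‖ * ‖slope f Real.pi φ‖ ^ 2 * (Real.pi - φ)) (𝓝[<] Real.pi)
      (𝓝 (‖Kf Real.pi‖ * ‖D0‖ ^ 2 * (Real.pi - Real.pi))) := by
    refine Tendsto.mul (Tendsto.mul ?_ (hslope.norm.pow 2)) ?_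
    · exact (hKc.norm.tendsto _).mono_left nhdsWithin_le_nhds
    · exact ((continuous_const.sub continuous_id).tendsto _).mono_left nhdsWithin_le_nhds
  have hle := le_of_tendsto_of_tendsto hl hr hkey
  rw [sub_self, mul_zero] at hle
  nlinarith

end Pool.Agent.RV.A
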