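import Pool.Agent.Work.MP_5955e5_nt.A.Fricke

set_option autoImplicit false

namespace Pool.Agent.RV.A

open Filter Topology Complex
open Pool.RV (pinf)

/-- `∏ (1 - q^n)` -/
noncomputable def PC (q : ℂ) : ℂ := ∏' n : ℕ, (1 - q ^ (n + 1))

/-- `∏ (1 + q^n)` -/
noncomputable def QC (q : ℂ) : ℂ := ∏' n : ℕ, (1 + q ^ (n + 1))

/-- `q ∏ (1+q^n)^6 (1+q^(3n))^6` -/
noncomputable def XC (q : ℂ) : ℂ := q * (QC q * QC (q ^ 3)) ^ 6

noncomputable def GC (q : ℂ) : ℂ := (PC q * PC (q ^ 3)) ^ 4 / (PC (q ^ 2) * PC (q ^ 6)) ^ 2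

lemma summable_norm_pow {q : ℂ} (h : ‖q‖ < 1) : Summable fun n : ℕ => ‖q ^ (n + 1)‖ := by
  simp only [norm_pow]
  exact (summable_nat_add_iff 1).mpr (summable_geometric_of_lt_one (norm_nonneg _) h)

lemma mult_sub {q : ℂ} (h : ‖q‖ < 1) : Multipliable fun n : ℕ => 1 - q ^ (n + 1) :=
  ModularForm.multipliable_one_sub_pow h

lemma mult_add {q : ℂ} (h : ‖q‖ < 1) : Multipliable fun n : ℕ => 1 + q ^ (n + 1) :=
  multipliable_one_add_of_summable (summable_norm_pow h)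

lemma PC_ofReal {q : ℝ} (h0 : 0 ≤ q) (h1 : q < 1) : PC q = pinf q := by
  have h := (multipliable_real h0 h1).map_tprod Complex.ofRealHom Complex.continuous_ofReal
  rw [Complex.ofRealHom_eq_coe] at h
  unfold PC pinf
  rw [h]
  congr 1
  ext n
  rw [Complex.ofRealHom_eq_coe]
  push_cast
  rfl

lemma one_sub_pow_ne {q : ℂ} (h : ‖q‖ < 1) (n : ℕ) : 1 - q ^ (n + 1) ≠ 0 := by
  intro h2
  have h3 : q ^ (n + 1) = 1 := by linear_combination -h2
  have h4 : ‖q‖ ^ (n + 1) = 1 := by rw [← norm_pow, h3, norm_one]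
  have h5 : ‖q‖ ^ (n + 1) < 1 := pow_lt_one₀ (norm_nonneg _) h (by omega)
  linarith

lemma PC_ne_zero {q : ℂ} (h : ‖q‖ < 1) : PC q ≠ 0 := by
  unfold PC
  have := tprod_one_add_ne_zero_of_summable (f := fun n : ℕ => -q ^ (n + 1)) (R := ℂ)
    (fun n => by simpa [sub_eq_add_neg] using one_sub_pow_ne h n)
    (by simpa using summable_norm_pow h)
  simpa [sub_eq_add_neg] using this

lemma PC_diff : DifferentiableOn ℂ PC (Metric.ball 0 1) :=
  ModularForm.differentiableOn_tprod_one_sub_pow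

lemma conj_tprod_aux {f : ℕ → ℂ} (hf : Multipliable f) :
    (starRingEnd ℂ) (∏' n, f n) = ∏' n, (starRingEnd ℂ) (f n) :=
  hf.map_tprod (starRingEnd ℂ) Complex.continuous_conj

lemma PC_conj {q : ℂ} (h : ‖q‖ < 1) : PC ((starRingEnd ℂ) q) = (starRingEnd ℂ) (PC q) := by
  unfold PC
  rw [conj_tprod_aux (mult_sub h)]
  congr 1
  ext n
  simp

lemma QC_conj {q : ℂ} (h : ‖q‖ < 1) : QC ((starRingEnd ℂ) q) = (starRingEnd ℂ) (QC q) := by
  unfold QC
  rw [conj_tprod_aux (mult_add h)]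
  congr 1
  ext n
  simp

lemma norm_pow_lt {q : ℂ} (h : ‖q‖ < 1) {k : ℕ} (hk : k ≠ 0) : ‖q ^ k‖ < 1 := by
  rw [norm_pow]
  exact pow_lt_one₀ (norm_nonneg _) h hk

lemma QC_mul {q : ℂ} (h : ‖q‖ < 1) : QC q * PC q = PC (q ^ 2) := by
  unfold QC PC
  rw [← (mult_add h).tprod_mul (mult_sub h)]
  congr 1
  ext n
  ring

lemma QC_eq {q : ℂ} (h : ‖q‖ < 1) : QC q = PC (q ^ 2) / PC q := by
  rw [eq_div_iff (PC_ne_zero h), QC_mul h]

lemma XC_eq {q : ℂ} (h : ‖q‖ < 1) :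
    XC q = q * (PC (q ^ 2) * PC (q ^ 6) / (PC q * PC (q ^ 3))) ^ 6 := by
  unfold XC
  rw [QC_eq h, QC_eq (norm_pow_lt h three_ne_zero), ← pow_mul, div_mul_div_comm]

lemma XC_ofReal {q : ℝ} (h0 : 0 ≤ q) (h1 : q < 1) : XC q = XR q := by
  have hn : ‖(q : ℂ)‖ < 1 := by rw [Complex.norm_real, Real.norm_of_nonneg h0]; exact h1
  rw [XC_eq hn]
  unfold XR
  have e : ∀ k : ℕ, k ≠ 0 → PC ((q : ℂ) ^ k) = pinf (q ^ k) := by
    intro k hk
    rw [← Complex.ofReal_pow, PC_ofReal (pow_nonneg h0 k) (pow_lt_one₀ h0 h1 hk)]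
  rw [e 2 two_ne_zero, e 3 three_ne_zero, e 6 (by norm_num), PC_ofReal h0 h1]
  push_cast
  rfl

lemma GC_ofReal {q : ℝ} (h0 : 0 ≤ q) (h1 : q < 1) : GC q = GR q := by
  unfold GC GR
  have e : ∀ k : ℕ, k ≠ 0 → PC ((q : ℂ) ^ k) = pinf (q ^ k) := by
    intro k hk
    rw [← Complex.ofReal_pow, PC_ofReal (pow_nonneg h0 k) (pow_lt_one₀ h0 h1 hk)]
  rw [e 2 two_ne_zero, e 3 three_ne_zero, e 6 (by norm_num), PC_ofReal h0 h1]
  push_cast
  rfl

lemma XC_conj {q : ℂ} (h : ‖q‖ < 1) : XC ((starRingEnd ℂ) q) = (starRingEnd ℂ) (XC q) := by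
  unfold XC
  rw [← map_pow, QC_conj h, QC_conj (norm_pow_lt h three_ne_zero)]
  simp

lemma mapsTo_pow {k : ℕ} (hk : k ≠ 0) :
    Set.MapsTo (fun q : ℂ => q ^ k) (Metric.ball 0 1) (Metric.ball 0 1) := by
  intro q hq
  simp only [Metric.mem_ball, dist_zero_right] at hq ⊢
  exact norm_pow_lt hq hk

lemma PC_pow_diff {k : ℕ} (hk : k ≠ 0) :
    DifferentiableOn ℂ (fun q : ℂ => PC (q ^ k)) (Metric.ball 0 1) :=
  PC_diff.comp (by fun_prop) (mapsTo_pow hk)

lemma mem_ball1 {q : ℂ} (h : q ∈ Metric.ball (0 : ℂ) 1) : ‖q‖ < 1 := by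
  simpa [Metric.mem_ball, dist_zero_right] using h

lemma QC_diff : DifferentiableOn ℂ QC (Metric.ball 0 1) := by
  have h : DifferentiableOn ℂ (fun q => PC (q ^ 2) / PC q) (Metric.ball 0 1) :=
    (PC_pow_diff two_ne_zero).div PC_diff (fun q hq => PC_ne_zero (mem_ball1 hq))
  exact h.congr fun q hq => QC_eq (mem_ball1 hq)

/-- `E q = XC q / q` -/
noncomputable def EC (q : ℂ) : ℂ := (QC q * QC (q ^ 3)) ^ 6

lemma EC_diff : DifferentiableOn ℂ EC (Metric.ball 0 1) := by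
  have h3 : DifferentiableOn ℂ (fun q : ℂ => QC (q ^ 3)) (Metric.ball 0 1) :=
    QC_diff.comp (by fun_prop) (mapsTo_pow three_ne_zero)
  exact (QC_diff.mul h3).pow 6

lemma XC_diff : DifferentiableOn ℂ XC (Metric.ball 0 1) := differentiableOn_id.mul EC_diff

lemma GC_diff : DifferentiableOn ℂ GC (Metric.ball 0 1) := by
  refine ((PC_diff.mul (PC_pow_diff three_ne_zero)).pow 4).div
    (((PC_pow_diff two_ne_zero).mul (PC_pow_diff (by norm_num : 6 ≠ 0))).pow 2) ?_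
  intro q hq
  have h := mem_ball1 hq
  exact pow_ne_zero 2 (mul_ne_zero (PC_ne_zero (norm_pow_lt h two_ne_zero))
    (PC_ne_zero (norm_pow_lt h (by norm_num))))

lemma QC_bound {q : ℂ} (h : ‖q‖ < 1) : ‖QC q - 1‖ ≤ Real.exp (‖q‖ / (1 - ‖q‖)) - 1 := by
  have h1 := (mult_add h).hasProd.tendsto_prod_nat
  have h2 : Tendsto (fun n : ℕ => ‖∏ i ∈ Finset.range n, (1 + q ^ (i + 1)) - 1‖) atTop
      (𝓝 ‖QC q - 1‖) := (h1.sub_const 1).norm
  refine le_of_tendsto' h2 fun n => ?_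
  refine (Finset.norm_prod_one_add_sub_one_le _ _).trans ?_
  have h3 : ∑ i ∈ Finset.range n, ‖q ^ (i + 1)‖ ≤ ‖q‖ / (1 - ‖q‖) := by
    have hg := hasSum_geometric_of_lt_one (norm_nonneg q) h
    have hg2 : HasSum (fun i : ℕ => ‖q ^ (i + 1)‖) (‖q‖ / (1 - ‖q‖)) := by
      have := hg.mul_left ‖q‖
      rw [← div_eq_mul_inv] at this
      have e : (fun i : ℕ => ‖q ^ (i + 1)‖) = fun i : ℕ => ‖q‖ * ‖q‖ ^ i := by
        ext i
        rw [norm_pow, pow_succ']
      rw [e]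
      exact this
    exact sum_le_hasSum _ (fun _ _ => norm_nonneg _) hg2
  have := Real.exp_le_exp.mpr h3
  linarith

lemma exp_le_inv {t : ℝ} (ht : t < 1) : Real.exp t ≤ 1 / (1 - t) := by
  have h := Real.add_one_le_exp (-t)
  have h1 : 0 < 1 - t := by linarith
  rw [le_div_iff₀ h1]
  have h2 : Real.exp t * Real.exp (-t) = 1 := by rw [← Real.exp_add]; simp
  calc Real.exp t * (1 - t) ≤ Real.exp t * Real.exp (-t) := by
        apply mul_le_mul_of_nonneg_left _ (Real.exp_pos t).le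
        linarith
    _ = 1 := h2

lemma one_add_pow_sub_one_le {z : ℂ} {d : ℝ} (h : ‖z‖ ≤ d) (n : ℕ) :
    ‖(1 + z) ^ n - 1‖ ≤ (1 + d) ^ n - 1 := by
  have hd : 0 ≤ d := (norm_nonneg z).trans h
  induction n with
  | zero => simp
  | succ n ih =>
    have e : (1 + z) ^ (n + 1) - 1 = ((1 + z) ^ n - 1) * (1 + z) + z := by ring
    rw [e]
    have h1 : ‖1 + z‖ ≤ 1 + d := by
      calc ‖1 + z‖ ≤ ‖(1 : ℂ)‖ + ‖z‖ := norm_add_le _ _
        _ ≤ 1 + d := by rw [norm_one]; linarith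
    calc ‖((1 + z) ^ n - 1) * (1 + z) + z‖ ≤ ‖(1 + z) ^ n - 1‖ * ‖1 + z‖ + ‖z‖ := by
          refine (norm_add_le _ _).trans ?_
          rw [norm_mul]
      _ ≤ ((1 + d) ^ n - 1) * (1 + d) + d := by
          have : 0 ≤ (1 + d) ^ n - 1 := (norm_nonneg _).trans ih
          gcongr
      _ = (1 + d) ^ (n + 1) - 1 := by ring

lemma EC_bound {q : ℂ} {t : ℝ} (h : ‖q‖ < 1)
    (ht : 6 * (‖q‖ / (1 - ‖q‖) + ‖q ^ 3‖ / (1 - ‖q ^ 3‖)) ≤ t) (ht1 : t < 1) :
    ‖EC q - 1‖ ≤ 1 / (1 - t) - 1 := by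
  have b1 := QC_bound h
  have b3 := QC_bound (norm_pow_lt h three_ne_zero)
  set s1 := ‖q‖ / (1 - ‖q‖) with hs1
  set s3 := ‖q ^ 3‖ / (1 - ‖q ^ 3‖) with hs3
  have hprod : ‖QC q * QC (q ^ 3) - 1‖ ≤ Real.exp (s1 + s3) - 1 := by
    have e : QC q * QC (q ^ 3) - 1 = (QC q - 1) * (QC (q ^ 3) - 1) + (QC q - 1) +
      (QC (q ^ 3) - 1) := by ring
    have n1 : 0 ≤ Real.exp s1 - 1 := (norm_nonneg _).trans b1
    have n3 : 0 ≤ Real.exp s3 - 1 := (norm_nonneg _).trans b3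
    calc ‖QC q * QC (q ^ 3) - 1‖ ≤ ‖QC q - 1‖ * ‖QC (q ^ 3) - 1‖ + ‖QC q - 1‖ +
          ‖QC (q ^ 3) - 1‖ := by
          rw [e]
          refine (norm_add_le _ _).trans ?_
          gcongr
          refine (norm_add_le _ _).trans ?_
          rw [norm_mul]
      _ ≤ (Real.exp s1 - 1) * (Real.exp s3 - 1) + (Real.exp s1 - 1) + (Real.exp s3 - 1) := by
          gcongr
      _ = Real.exp (s1 + s3) - 1 := by rw [Real.exp_add]; ring
  have h2 := one_add_pow_sub_one_le hprod 6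
  have e2 : 1 + (QC q * QC (q ^ 3) - 1) = QC q * QC (q ^ 3) := by ring
  rw [e2] at h2
  have e3 : (1 + (Real.exp (s1 + s3) - 1)) ^ 6 = Real.exp (6 * (s1 + s3)) := by
    rw [add_sub_cancel, ← Real.exp_nat_mul]
    norm_num
  rw [e3] at h2
  unfold EC
  refine h2.trans ?_
  have h4 : Real.exp (6 * (s1 + s3)) ≤ Real.exp t := Real.exp_le_exp.mpr ht
  have h5 := exp_le_inv ht1
  linarith

lemma frac_mono {a b : ℝ} (hab : a ≤ b) (hb : b < 1) : a / (1 - a) ≤ b / (1 - b) := by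
  rw [div_le_div_iff₀ (by linarith) (by linarith)]
  nlinarith

lemma EC_bound_tenth {q : ℂ} (h : ‖q‖ ≤ 1 / 10) : ‖EC q - 1‖ ≤ 41 / 20 + 1 / 50 := by
  have hq1 : ‖q‖ < 1 := by linarith
  have h3 : ‖q ^ 3‖ ≤ 1 / 1000 := by
    rw [norm_pow]
    calc ‖q‖ ^ 3 ≤ (1 / 10 : ℝ) ^ 3 := by gcongr
      _ = 1 / 1000 := by norm_num
  have f1 := frac_mono h (by norm_num)
  have f3 := frac_mono h3 (by norm_num)
  have := EC_bound (t := 6 * ((1 / 10) / (1 - 1 / 10) + (1 / 1000) / (1 - 1 / 1000))) hq1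
    (by linarith) (by norm_num)
  refine this.trans ?_
  norm_num

lemma EC_bound_fiftieth {q : ℂ} (h : ‖q‖ ≤ 1 / 50) : ‖EC q - 1‖ ≤ 7 / 50 := by
  have hq1 : ‖q‖ < 1 := by linarith
  have h3 : ‖q ^ 3‖ ≤ 1 / 125000 := by
    rw [norm_pow]
    calc ‖q‖ ^ 3 ≤ (1 / 50 : ℝ) ^ 3 := by gcongr
      _ = 1 / 125000 := by norm_num
  have f1 := frac_mono h (by norm_num)
  have f3 := frac_mono h3 (by norm_num)
  have := EC_bound (t := 6 * ((1 / 50) / (1 - 1 / 50) + (1 / 125000) / (1 - 1 / 125000))) hq1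
    (by linarith) (by norm_num)
  refine this.trans ?_
  norm_num

lemma deriv_EC_bound {q : ℂ} (h : ‖q‖ ≤ 1 / 50) : ‖deriv EC q‖ ≤ 26 := by
  have hsub : Metric.closedBall q (2 / 25) ⊆ Metric.closedBall (0 : ℂ) (1 / 10) := by
    intro z hz
    rw [Metric.mem_closedBall, dist_eq_norm] at hz
    rw [Metric.mem_closedBall, dist_zero_right]
    calc ‖z‖ = ‖(z - q) + q‖ := by ring_nf
      _ ≤ ‖z - q‖ + ‖q‖ := norm_add_le _ _
      _ ≤ 1 / 10 := by linarith
  have hsub2 : Metric.closedBall q (2 / 25) ⊆ Metric.ball (0 : ℂ) 1 :=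
    hsub.trans (Metric.closedBall_subset_ball (by norm_num))
  have hd : DifferentiableOn ℂ (fun z => EC z - 1) (Metric.closedBall q (2 / 25)) :=
    (EC_diff.mono hsub2).sub_const 1
  have := Complex.norm_deriv_le_of_forall_mem_sphere_norm_le (f := fun z => EC z - 1)
    (C := 41 / 20 + 1 / 50) (by norm_num : (0 : ℝ) < 2 / 25) (hd.diffContOnCl_ball subset_rfl) (by
      intro z hz
      apply EC_bound_tenth
      simpa [Metric.mem_closedBall, dist_zero_right] using hsub (Metric.sphere_subset_closedBall hz))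
  rw [deriv_sub_const] at this
  refine this.trans ?_
  norm_num

lemma deriv_XC {q : ℂ} (h : ‖q‖ < 1) : deriv XC q = EC q + q * deriv EC q := by
  have hd : DifferentiableAt ℂ EC q :=
    EC_diff.differentiableAt (Metric.isOpen_ball.mem_nhds (by simpa using h))
  have h1 : HasDerivAt XC (1 * EC q + q * deriv EC q) q :=
    (hasDerivAt_id q).mul hd.hasDerivAt
  rw [h1.deriv, one_mul]

lemma deriv_XC_re {q : ℂ} (h : ‖q‖ ≤ 1 / 50) : 0 < (deriv XC q).re := by
  have h1 := EC_bound_fiftieth h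
  have h2 := deriv_EC_bound h
  rw [deriv_XC (by linarith)]
  have h3 : ‖EC q + q * deriv EC q - 1‖ ≤ 7 / 50 + 1 / 50 * 26 := by
    calc ‖EC q + q * deriv EC q - 1‖ = ‖(EC q - 1) + q * deriv EC q‖ := by ring_nf
      _ ≤ ‖EC q - 1‖ + ‖q‖ * ‖deriv EC q‖ := by
          refine (norm_add_le _ _).trans ?_
          rw [norm_mul]
      _ ≤ 7 / 50 + 1 / 50 * 26 := by gcongr
  have h4 := (Complex.abs_re_le_norm (EC q + q * deriv EC q - 1)).trans h3
  rw [Complex.sub_re, Complex.one_re] at h4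
  have h5 := (abs_le.mp h4).1
  linarith

/-- `Im XC` has the sign of `Im q` near the origin. -/
lemma XC_im_pos {q : ℂ} (h : ‖q‖ ≤ 1 / 50) (hi : 0 < q.im) : 0 < (XC q).im := by
  set g : ℝ → ℝ := fun t => (XC (q.re + t * I)).im with hg
  have hn : ∀ t ∈ Set.Icc (0 : ℝ) q.im, ‖(q.re + t * I : ℂ)‖ ≤ 1 / 50 := by
    intro t ht
    refine le_trans ?_ h
    rw [Complex.norm_def, Complex.norm_def, Complex.normSq_apply, Complex.normSq_apply]
    apply Real.sqrt_le_sqrt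
    simp
    nlinarith [ht.1, ht.2]
  have hder : ∀ t ∈ Set.Icc (0 : ℝ) q.im, HasDerivAt g ((deriv XC (q.re + t * I)).re) t := by
    intro t ht
    have h1 : HasDerivAt (fun t : ℝ => (q.re + t * I : ℂ)) I t := by
      have := (Complex.ofRealCLM.hasDerivAt (x := t)).mul_const I
      simpa using this.const_add (q.re : ℂ)
    have h2 : HasDerivAt XC (deriv XC (q.re + t * I)) (q.re + t * I) := by
      apply DifferentiableAt.hasDerivAt
      apply XC_diff.differentiableAt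
      apply Metric.isOpen_ball.mem_nhds
      rw [Metric.mem_ball, dist_zero_right]
      linarith [hn t ht]
    have h3 : HasDerivAt (fun t : ℝ => XC (q.re + t * I)) (deriv XC (q.re + t * I) * I) t := by
      have := h2.scomp t h1
      simpa [Function.comp_def, mul_comm] using this
    have h4 := (Complex.imCLM.hasFDerivAt.comp_hasDerivAt t h3)
    simpa [hg, Function.comp_def] using h4
  have hmono : StrictMonoOn g (Set.Icc 0 q.im) := by
    apply strictMonoOn_of_deriv_pos (convex_Icc _ _)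
    · exact fun t ht => (hder t ht).continuousAt.continuousWithinAt
    · intro t ht
      rw [interior_Icc] at ht
      have ht' := Set.Ioo_subset_Icc_self ht
      rw [(hder t ht').deriv]
      exact deriv_XC_re (hn t ht')
  have h0 : g 0 = 0 := by
    simp only [hg, Complex.ofReal_zero, zero_mul, add_zero]
    have hc := XC_conj (q := (q.re : ℂ)) (by
      have := hn 0 (Set.left_mem_Icc.mpr hi.le)
      simp at this
      rw [Complex.norm_real, Real.norm_eq_abs]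
      linarith)
    rw [Complex.conj_ofReal] at hc
    have := congrArg Complex.im hc
    rw [Complex.conj_im] at this
    linarith
  have h1 : g q.im = (XC q).im := by
    simp only [hg]
    rw [Complex.re_add_im]
  have := hmono (Set.left_mem_Icc.mpr hi.le) (Set.right_mem_Icc.mpr hi.le) hi
  rw [h0, h1] at this
  exact this

lemma XC_slit {q : ℂ} (h : ‖q‖ ≤ 1 / 50) (hs : q ∈ slitPlane) : XC q ∈ slitPlane := by
  rcases lt_trichotomy q.im 0 with hi | hi | hi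
  · have hc := XC_im_pos (q := (starRingEnd ℂ) q) (by rwa [RCLike.norm_conj]) (by
      rw [Complex.conj_im]; linarith)
    rw [XC_conj (by linarith), Complex.conj_im] at hc
    exact Or.inr (by linarith)
  · rcases hs with hr | hr
    · have hq : q = (q.re : ℂ) := by
        apply Complex.ext <;> simp [hi]
      have hlt : q.re < 1 := by
        have := (Complex.re_le_norm q)
        linarith
      rw [hq, XC_ofReal hr.le hlt]
      exact Or.inl (by simpa using XR_pos hr hlt)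
    · exact absurd hi hr
  · exact Or.inr (XC_im_pos h hi).ne'

end Pool.Agent.RV.A
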