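import Pool.Agent.Work.MP_5955e5_nt.A.GenFun

set_option autoImplicit false

namespace Pool.Agent.RV.A

open Real
open Pool.RV (pinf)

/-- the Dedekind eta function on the imaginary axis -/
noncomputable def etaR (y : ℝ) : ℝ := exp (-(π * y / 12)) * pinf (exp (-(2 * π * y)))

lemma exp_neg_lt {y : ℝ} (hy : 0 < y) : exp (-(2 * π * y)) < 1 := by
  rw [Real.exp_lt_one_iff]
  have := Real.pi_pos
  have : 0 < 2 * π * y := by positivity
  linarith

lemma etaR_pos {y : ℝ} (hy : 0 < y) : 0 < etaR y :=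
  mul_pos (exp_pos _) (Pool.RV.pinf_pos (exp_pos _).le (exp_neg_lt hy))

lemma multipliable_real {q : ℝ} (h0 : 0 ≤ q) (h1 : q < 1) :
    Multipliable fun n : ℕ => 1 - q ^ (n + 1) := by
  have h : Summable fun n : ℕ => ‖-q ^ (n + 1)‖ := by
    simp only [norm_neg, norm_pow, Real.norm_of_nonneg h0]
    exact (summable_nat_add_iff 1).mpr (summable_geometric_of_lt_one h0 h1)
  have := multipliable_one_add_of_summable h
  simpa [sub_eq_add_neg] using this

lemma eta_I (y : ℝ) (hy : 0 < y) : ModularForm.eta (Complex.I * y) = etaR y := by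
  unfold ModularForm.eta etaR pinf
  rw [Complex.ofReal_mul]
  congr 1
  · rw [Function.Periodic.qParam, Complex.ofReal_exp]
    congr 1
    push_cast
    have := Complex.I_mul_I
    linear_combination (2 * π * y / 24 : ℂ) * this
  · have h := (multipliable_real (exp_pos _).le (exp_neg_lt hy)).map_tprod Complex.ofRealHom
      Complex.continuous_ofReal
    rw [Complex.ofRealHom_eq_coe] at h
    rw [h]
    congr 1
    ext n
    rw [Complex.ofRealHom_eq_coe, ModularForm.eta_q_eq_pow]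
    push_cast
    congr 3
    have := Complex.I_mul_I
    linear_combination (2 * π * y : ℂ) * this

lemma sqrt_I_mul {y : ℝ} (hy : 0 < y) :
    (Complex.sqrt Complex.I)⁻¹ * Complex.sqrt (Complex.I * y) = (√y : ℝ) := by
  have hne : Complex.I * (y : ℂ) ≠ 0 := by
    have : (y : ℂ) ≠ 0 := by exact_mod_cast hy.ne'
    exact mul_ne_zero Complex.I_ne_zero this
  rw [sqrt_eq_exp hne, sqrt_eq_exp Complex.I_ne_zero, mul_comm Complex.I,
    Complex.log_ofReal_mul hy Complex.I_ne_zero, ← Complex.exp_neg, ← Complex.exp_add]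
  have : -(Complex.log Complex.I / 2) + (((Real.log y : ℝ) : ℂ) + Complex.log Complex.I) / 2 =
      ((Real.log y / 2 : ℝ) : ℂ) := by
    push_cast
    ring
  rw [this, ← Complex.ofReal_exp, Real.exp_half, Real.exp_log hy]

lemma etaR_inv {y : ℝ} (hy : 0 < y) : etaR (1 / y) = √y * etaR y := by
  have h := ModularForm.eta_comp_eq_csqrt_I_inv (x := Complex.I * y) (by
    simp [UpperHalfPlane.upperHalfPlaneSet, hy])
  simp only [Function.comp, Pi.smul_apply, Pi.mul_apply, smul_eq_mul] at h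
  have h2 : (-1 : ℂ) / (Complex.I * y) = Complex.I * ((1 / y : ℝ) : ℂ) := by
    have : (y : ℂ) ≠ 0 := by exact_mod_cast hy.ne'
    push_cast
    field_simp
    have := Complex.I_mul_I
    linear_combination (-1 : ℂ) * this
  rw [h2, eta_I _ (by positivity), eta_I _ hy, ← mul_assoc, sqrt_I_mul hy] at h
  exact_mod_cast h

lemma pinf_exp (k : ℕ) (y : ℝ) :
    pinf (exp (-(2 * π * y)) ^ k) = exp (π * (k * y) / 12) * etaR (k * y) := by
  unfold etaR
  rw [← mul_assoc, ← Real.exp_add, ← Real.exp_nat_mul]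
  have e1 : π * (k * y) / 12 + -(π * (k * y) / 12) = 0 := by ring
  rw [e1, Real.exp_zero, one_mul]
  congr 2
  ring

lemma XR_exp {y : ℝ} (hy : 0 < y) : XR (exp (-(2 * π * y))) =
    (etaR (2 * y) * etaR (6 * y) / (etaR y * etaR (3 * y))) ^ 6 := by
  have h1 := pinf_exp 1 y
  have h2 := pinf_exp 2 y
  have h3 := pinf_exp 3 y
  have h6 := pinf_exp 6 y
  push_cast at h1 h2 h3 h6
  rw [pow_one, one_mul] at h1
  unfold XR
  rw [h1, h2, h3, h6]
  have p1 := etaR_pos hy
  have p3 := etaR_pos (y := 3 * y) (by positivity)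
  have e : exp (-(2 * π * y)) * (exp (π * (2 * y) / 12) * etaR (2 * y) *
      (exp (π * (6 * y) / 12) * etaR (6 * y)) /
      (exp (π * y / 12) * etaR y * (exp (π * (3 * y) / 12) * etaR (3 * y)))) ^ 6 =
      (exp (-(2 * π * y)) * (exp (π * (2 * y) / 12) * exp (π * (6 * y) / 12)) ^ 6 /
        (exp (π * y / 12) * exp (π * (3 * y) / 12)) ^ 6) *
      (etaR (2 * y) * etaR (6 * y) / (etaR y * etaR (3 * y))) ^ 6 := by
    field_simp
  rw [e]
  have e2 : exp (-(2 * π * y)) * (exp (π * (2 * y) / 12) * exp (π * (6 * y) / 12)) ^ 6 /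
        (exp (π * y / 12) * exp (π * (3 * y) / 12)) ^ 6 = 1 := by
    rw [← Real.exp_add, ← Real.exp_add, ← Real.exp_nat_mul, ← Real.exp_nat_mul, ← Real.exp_add,
      ← Real.exp_sub, Real.exp_eq_one_iff]
    push_cast
    ring
  rw [e2, one_mul]

lemma GR_exp {y : ℝ} (hy : 0 < y) : GR (exp (-(2 * π * y))) =
    (etaR y * etaR (3 * y)) ^ 4 / (etaR (2 * y) * etaR (6 * y)) ^ 2 := by
  have h1 := pinf_exp 1 y
  have h2 := pinf_exp 2 y
  have h3 := pinf_exp 3 y
  have h6 := pinf_exp 6 y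
  push_cast at h1 h2 h3 h6
  rw [pow_one, one_mul] at h1
  unfold GR
  rw [h1, h2, h3, h6]
  have p2 := etaR_pos (y := 2 * y) (by positivity)
  have p6 := etaR_pos (y := 6 * y) (by positivity)
  have e : (exp (π * y / 12) * etaR y * (exp (π * (3 * y) / 12) * etaR (3 * y))) ^ 4 /
      (exp (π * (2 * y) / 12) * etaR (2 * y) * (exp (π * (6 * y) / 12) * etaR (6 * y))) ^ 2 =
      ((exp (π * y / 12) * exp (π * (3 * y) / 12)) ^ 4 /
        (exp (π * (2 * y) / 12) * exp (π * (6 * y) / 12)) ^ 2) *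
      ((etaR y * etaR (3 * y)) ^ 4 / (etaR (2 * y) * etaR (6 * y)) ^ 2) := by
    field_simp
  rw [e]
  have e2 : (exp (π * y / 12) * exp (π * (3 * y) / 12)) ^ 4 /
        (exp (π * (2 * y) / 12) * exp (π * (6 * y) / 12)) ^ 2 = 1 := by
    rw [← Real.exp_add, ← Real.exp_add, ← Real.exp_nat_mul, ← Real.exp_nat_mul,
      ← Real.exp_sub, Real.exp_eq_one_iff]
    push_cast
    ring
  rw [e2, one_mul]

lemma fricke_eta {y : ℝ} (hy : 0 < y) :
    XR (exp (-(2 * π * (1 / (6 * y))))) = 1 / (64 * XR (exp (-(2 * π * y)))) ∧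
    GR (exp (-(2 * π * (1 / (6 * y))))) = 48 * y ^ 2 * (GR (exp (-(2 * π * y))) *
      XR (exp (-(2 * π * y)))) := by
  have p1 := etaR_pos hy
  have p2 := etaR_pos (y := 2 * y) (by positivity)
  have p3 := etaR_pos (y := 3 * y) (by positivity)
  have p6 := etaR_pos (y := 6 * y) (by positivity)
  rw [XR_exp (y := 1 / (6 * y)) (by positivity), GR_exp (y := 1 / (6 * y)) (by positivity),
    XR_exp hy, GR_exp hy]
  have e1 : etaR (1 / (6 * y)) = √(6 * y) * etaR (6 * y) := etaR_inv (by positivity)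
  have e2 : etaR (2 * (1 / (6 * y))) = √(3 * y) * etaR (3 * y) := by
    rw [← etaR_inv (by positivity)]
    congr 1
    field_simp
    norm_num
  have e3 : etaR (3 * (1 / (6 * y))) = √(2 * y) * etaR (2 * y) := by
    rw [← etaR_inv (by positivity)]
    congr 1
    field_simp
    norm_num
  have e6 : etaR (6 * (1 / (6 * y))) = √y * etaR y := by
    rw [← etaR_inv (by positivity)]
    congr 1
    field_simp
  rw [e1, e2, e3, e6]
  have s1 : (√(3 * y) * √y) ^ 2 = 3 * y ^ 2 := by
    rw [mul_pow, Real.sq_sqrt (by positivity), Real.sq_sqrt (by positivity)]; ring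
  have s2 : (√(6 * y) * √(2 * y)) ^ 2 = 12 * y ^ 2 := by
    rw [mul_pow, Real.sq_sqrt (by positivity), Real.sq_sqrt (by positivity)]; ring
  have q1 : 0 < √(3 * y) * √y := by positivity
  have q2 : 0 < √(6 * y) * √(2 * y) := by positivity
  constructor
  · have : (√(3 * y) * etaR (3 * y) * (√y * etaR y) /
        (√(6 * y) * etaR (6 * y) * (√(2 * y) * etaR (2 * y)))) ^ 6 =
        ((√(3 * y) * √y) ^ 2 / (√(6 * y) * √(2 * y)) ^ 2) ^ 3 *
        (1 / (etaR (2 * y) * etaR (6 * y) / (etaR y * etaR (3 * y))) ^ 6) := by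
      field_simp
    rw [this, s1, s2]
    field_simp
    norm_num
  · have : (√(6 * y) * etaR (6 * y) * (√(2 * y) * etaR (2 * y))) ^ 4 /
        (√(3 * y) * etaR (3 * y) * (√y * etaR y)) ^ 2 =
        ((√(6 * y) * √(2 * y)) ^ 2) ^ 2 / (√(3 * y) * √y) ^ 2 *
        ((etaR (2 * y) * etaR (6 * y)) ^ 4 / (etaR y * etaR (3 * y)) ^ 2) := by
      field_simp
    rw [this, s1, s2]
    field_simp
    ring

lemma XR_pos {q : ℝ} (h0 : 0 < q) (h1 : q < 1) : 0 < XR q := by
  unfold XR
  have p1 := Pool.RV.pinf_pos h0.le h1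
  have p2 := Pool.RV.pinf_pos (q := q ^ 2) (by positivity) (pow_lt_one₀ h0.le h1 two_ne_zero)
  have p3 := Pool.RV.pinf_pos (q := q ^ 3) (by positivity) (pow_lt_one₀ h0.le h1 three_ne_zero)
  have p6 := Pool.RV.pinf_pos (q := q ^ 6) (by positivity) (pow_lt_one₀ h0.le h1 (by norm_num))
  positivity

/-- the resolvent of the walk near the origin -/
theorem resolvent_real {q : ℝ} (h0 : 0 < q) (h1 : q < 1) :
    ∫ a in (0 : ℝ)..1, ∫ b in (0 : ℝ)..1, ∫ c in (0 : ℝ)..1, 1 / (64 * XR q + Z a b c) =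
      3 / (16 * π ^ 2) * log q ^ 2 * GR q := by
  have hpi := Real.pi_pos
  have hl : log q < 0 := Real.log_neg h0 h1
  set y := -log q / (2 * π) with hy
  have hy0 : 0 < y := by
    apply div_pos _ (by positivity)
    linarith
  have hq : exp (-(2 * π * y)) = q := by
    rw [hy]
    have : -(2 * π * (-log q / (2 * π))) = log q := by field_simp
    rw [this, Real.exp_log h0]
  obtain ⟨f1, f2⟩ := fricke_eta hy0
  rw [hq] at f1 f2
  set q' := exp (-(2 * π * (1 / (6 * y)))) with hq'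
  have hq'0 : 0 < q' := exp_pos _
  have hq'1 : q' < 1 := exp_neg_lt (by positivity)
  have hD := D_XR hq'0 hq'1
  have hX := XR_pos h0 h1
  have hX' := XR_pos hq'0 hq'1
  unfold D at hD
  have hterm : ∀ a b c : ℝ, 1 / (64 * XR q + Z a b c) = XR q' * (1 / (1 + XR q' * Z a b c)) := by
    intro a b c
    have hZ : 0 ≤ Z a b c := by unfold Z; positivity
    rw [f1]
    have h3 : 0 < 64 * XR q + Z a b c := by positivity
    field_simp
  simp_rw [hterm]
  simp_rw [intervalIntegral.integral_const_mul]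
  rw [hD, f1, f2]
  have hy2 : y ^ 2 = log q ^ 2 / (4 * π ^ 2) := by
    rw [hy]
    field_simp
    ring
  rw [hy2]
  field_simp
  ring

end Pool.Agent.RV.A
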