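import Pool.Agent.Work.MP_5955e5_nt.A.ThetaAgm
import Pool.Agent.Work.MP_5955e5_nt.GaussProd

set_option autoImplicit false

namespace Pool.Agent.RV.A

open Pool.RV (pinf)

lemma th4_term (q : ℝ) (n : ℤ) : (-1 : ℝ) ^ n * q ^ (n ^ 2) = Pool.RV.th4 q n := by
  unfold Pool.RV.th4
  have h1 : (-1 : ℝ) ^ n = (-1) ^ n.natAbs := by
    rcases Int.natAbs_eq n with h | h
    · conv_lhs => rw [h]
      rw [zpow_natCast]
    · conv_lhs => rw [h]
      rw [zpow_neg, zpow_natCast, ← inv_pow]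
      norm_num
  have h2 : n ^ 2 = ((n.natAbs ^ 2 : ℕ) : ℤ) := by
    push_cast
    rw [sq_abs]
  rw [h1, h2, zpow_natCast]

lemma th4_eq {q : ℝ} (h0 : 0 < q) (h1 : q < 1) : th4 q = pinf q ^ 2 / pinf (q ^ 2) := by
  unfold th4
  simp_rw [th4_term]
  exact (Pool.RV.gauss_theta4 h0 h1).tsum_eq

lemma ps_eq {r : ℝ} (h0 : 0 < r) (h1 : r < 1) :
    ps r = 2 * (pinf ((r ^ 2) ^ 2) ^ 2 / pinf (r ^ 2)) := by
  have hg := Pool.RV.gauss_psi (pow_pos h0 2) (r2_lt h0 h1)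
  have hterm : ∀ k : ℕ, r ^ ((k : ℤ) * ((k : ℤ) + 1)) = (r ^ 2) ^ ((k + 1).choose 2) := by
    intro k
    rw [← pow_mul, ← zpow_natCast]
    congr 1
    have := Nat.triangle_succ k
    have h2 : 2 * ((k + 1).choose 2) = k * (k + 1) := by
      rw [Nat.choose_two_right, Nat.add_sub_cancel]
      have : 2 ∣ (k + 1) * k := by
        rcases Nat.even_or_odd k with h | h
        · exact Dvd.dvd.mul_left h.two_dvd _
        · exact Dvd.dvd.mul_right (h.add_one).two_dvd _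
      rw [Nat.mul_div_cancel' this, mul_comm]
    push_cast
    exact_mod_cast h2.symm
  have hA : HasSum (fun k : ℕ => r ^ ((k : ℤ) * ((k : ℤ) + 1)))
      (pinf ((r ^ 2) ^ 2) ^ 2 / pinf (r ^ 2)) := by
    simp_rw [hterm]
    exact hg
  have hB : HasSum (fun k : ℕ => r ^ ((-((k : ℤ) + 1)) * (-((k : ℤ) + 1) + 1)))
      (pinf ((r ^ 2) ^ 2) ^ 2 / pinf (r ^ 2)) := by
    have : ∀ k : ℕ, (-((k : ℤ) + 1)) * (-((k : ℤ) + 1) + 1) = (k : ℤ) * ((k : ℤ) + 1) := by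
      intro k; ring
    simp_rw [this]
    exact hA
  have h := HasSum.of_nat_of_neg_add_one (f := fun n : ℤ => r ^ (n * (n + 1))) hA hB
  unfold ps
  rw [h.tsum_eq]
  ring

/-- `q ∏ (1+q^n)^6 (1+q^(3n))^6` -/
noncomputable def XR (q : ℝ) : ℝ := q * (pinf (q ^ 2) * pinf (q ^ 6) / (pinf q * pinf (q ^ 3))) ^ 6

/-- `∏ (1-q^n)^4 (1-q^(3n))^4 / ((1-q^(2n))^2 (1-q^(6n))^2)` -/
noncomputable def GR (q : ℝ) : ℝ := (pinf q * pinf (q ^ 3)) ^ 4 / (pinf (q ^ 2) * pinf (q ^ 6)) ^ 2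

/-- (a1): the generating function of the walk is modular. -/
theorem D_XR {q : ℝ} (h0 : 0 < q) (h1 : q < 1) : D (XR q) = GR q := by
  set r := √q with hr
  have hr0 : 0 < r := Real.sqrt_pos.mpr h0
  have hr2 : r ^ 2 = q := Real.sq_sqrt h0.le
  have hr1 : r < 1 := by
    rw [hr, Real.sqrt_lt' one_pos]; simpa using h1
  have h30 : 0 < r ^ 3 := pow_pos hr0 3
  have h31 : r ^ 3 < 1 := pow_lt_one₀ hr0.le hr1 three_ne_zero
  have hr32 : (r ^ 3) ^ 2 = q ^ 3 := by rw [← hr2]; ring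
  have hq30 : 0 < q ^ 3 := pow_pos h0 3
  have hq31 : q ^ 3 < 1 := pow_lt_one₀ h0.le h1 three_ne_zero
  have hq36 : (q ^ 3) ^ 2 = q ^ 6 := by ring
  have hD := D_theta hr0 hr1
  have e1 : th3 r * th4 r = (pinf q ^ 2 / pinf (q ^ 2)) ^ 2 := by
    rw [th3_mul_th4 hr0 hr1, hr2, th4_eq h0 h1]
  have e3 : th3 (r ^ 3) * th4 (r ^ 3) = (pinf (q ^ 3) ^ 2 / pinf (q ^ 6)) ^ 2 := by
    rw [th3_mul_th4 h30 h31, hr32, th4_eq hq30 hq31, hq36]
  have f1 : ps r = 2 * (pinf (q ^ 2) ^ 2 / pinf q) := by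
    rw [ps_eq hr0 hr1, hr2]
  have f3 : ps (r ^ 3) = 2 * (pinf (q ^ 6) ^ 2 / pinf (q ^ 3)) := by
    rw [ps_eq h30 h31, hr32, hq36]
  have p1 := Pool.RV.pinf_pos h0.le h1
  have p2 := Pool.RV.pinf_pos (q := q ^ 2) (by positivity) (pow_lt_one₀ h0.le h1 two_ne_zero)
  have p3 := Pool.RV.pinf_pos (q := q ^ 3) (by positivity) hq31
  have p6 := Pool.RV.pinf_pos (q := q ^ 6) (by positivity) (pow_lt_one₀ h0.le h1 (by norm_num))
  have hG : th3 r * th4 r * th3 (r ^ 3) * th4 (r ^ 3) = GR q := by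
    rw [mul_assoc, e1, e3, GR]
    field_simp
  have hX : r ^ 2 * ps r ^ 2 * ps (r ^ 3) ^ 2 /
      (16 * (th3 r * th4 r * th3 (r ^ 3) * th4 (r ^ 3))) = XR q := by
    rw [hG, f1, f3, hr2, GR, XR]
    field_simp
    ring
  rw [hX, hG] at hD
  exact hD

end Pool.Agent.RV.A
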