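import Pool.Agent.Work.MP_5955e5_nt.A.Law

/-!
# Cell RV, block (a): Jensen's formula on the circle `mu0`
-/

set_option autoImplicit false

namespace Pool.Agent.RV.A

open Filter Topology Complex MeasureTheory

lemma e_circleMap (b : ℝ) : e b = circleMap 0 1 (2 * Real.pi * b) := by
  unfold e circleMap
  push_cast
  rw [zero_add, one_mul]
  congr 1
  ring

lemma integral_mu0 (f : ℝ → ℝ) : ∫ b, f b ∂mu0 = ∫ b in (0 : ℝ)..1, f b := by
  unfold mu0
  rw [intervalIntegral.integral_of_le zero_le_one]

lemma integrable_mu0 {f : ℝ → ℝ} (hf : IntervalIntegrable f volume 0 1) : Integrable f mu0 := by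
  rw [intervalIntegrable_iff_integrableOn_Ioc_of_le zero_le_one] at hf
  exact hf

lemma integrable_circle {f : ℂ → ℝ} (hf : CircleIntegrable f 0 1) :
    Integrable (fun b => f (e b)) mu0 := by
  apply integrable_mu0
  have h1 : IntervalIntegrable (fun θ => f (circleMap 0 1 θ)) volume 0 (2 * Real.pi) := hf
  have h2 := h1.comp_mul_left (c := 2 * Real.pi)
  have hpi : (2 * Real.pi) ≠ 0 := by positivity
  rw [zero_div, div_self hpi] at h2
  refine h2.congr ?_
  intro b _
  simp only [e_circleMap]

lemma integral_circle (f : ℂ → ℝ) :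
    ∫ b, f (e b) ∂mu0 = Real.circleAverage f 0 1 := by
  rw [integral_mu0]
  simp only [e_circleMap]
  have hpi : (2 * Real.pi) ≠ 0 := by positivity
  rw [intervalIntegral.integral_comp_mul_left (fun θ => f (circleMap 0 1 θ)) hpi]
  unfold Real.circleAverage
  simp

lemma countable_e (c : ℂ) : {b : ℝ | e b = c}.Countable := by
  rcases Set.eq_empty_or_nonempty {b : ℝ | e b = c} with h | ⟨b0, hb0⟩
  · rw [h]
    exact Set.countable_empty
  · refine (Set.countable_range (fun n : ℤ => b0 + n)).mono ?_
    intro b hb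
    have h1 : e b = e b0 := hb.trans hb0.symm
    unfold e at h1
    obtain ⟨n, hn⟩ := Complex.exp_eq_exp_iff_exists_int.mp h1
    refine ⟨n, ?_⟩
    have hpi : (2 * (Real.pi : ℂ) * I) ≠ 0 := Complex.two_pi_I_ne_zero
    have h2 : (2 * (Real.pi : ℂ) * I) * (b : ℂ) = (2 * (Real.pi : ℂ) * I) * ((b0 + n : ℝ) : ℂ) := by
      push_cast
      linear_combination hn
    have h3 := mul_left_cancel₀ hpi h2
    exact_mod_cast h3.symm

lemma ae_ne_e (c : ℂ) : ∀ᵐ b ∂mu0, e b ≠ c := by
  have := (countable_e c).ae_notMem (volume : Measure ℝ)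
  unfold mu0
  filter_upwards [ae_restrict_of_ae (s := Set.Ioc (0 : ℝ) 1) this] with b hb
  exact hb

/-- the integrand is integrable -/
lemma integrable_jensen (A B : ℂ) : Integrable (fun b => Real.log ‖A + e b * B‖) mu0 := by
  have : CircleIntegrable (fun z => Real.log ‖A + z * B‖) 0 1 :=
    MeromorphicOn.circleIntegrable_log_norm (f := fun z => A + z * B) (fun z hz ↦ by fun_prop)
  exact integrable_circle this

/-- Jensen's formula -/
lemma jensen_e (A B : ℂ) : ∫ b, Real.log ‖A + e b * B‖ ∂mu0 = Real.log (max ‖A‖ ‖B‖) := by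
  by_cases hB : B = 0
  · subst hB
    simp
  have hB' : 0 < ‖B‖ := norm_pos_iff.mpr hB
  have h := integral_circle (fun z => Real.log ‖z + A / B‖)
  have h2 : Real.circleAverage (fun z => Real.log ‖z + A / B‖) 0 1 = Real.posLog ‖A / B‖ :=
    circleAverage_log_norm_add_const_eq_posLog
  rw [h2] at h
  have hi : Integrable (fun b => Real.log ‖e b + A / B‖) mu0 := by
    have := integrable_jensen (A / B) 1
    refine this.congr (Eventually.of_forall fun b => ?_)
    simp only [mul_one]
    rw [add_comm]
  -- the exceptional set is null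
  have hae : ∀ᵐ b ∂mu0, Real.log ‖A + e b * B‖ = Real.log ‖B‖ + Real.log ‖e b + A / B‖ := by
    filter_upwards [ae_ne_e (-(A / B))] with b hb
    have hne : e b + A / B ≠ 0 := fun h0 => hb (by linear_combination h0)
    rw [← Real.log_mul hB'.ne' (norm_pos_iff.mpr hne).ne', ← norm_mul]
    congr 2
    field_simp
    ring
  rw [integral_congr_ae hae, integral_add (integrable_const _) hi, h]
  simp only [integral_const, probReal_univ, smul_eq_mul, one_mul, norm_div]
  rcases le_total ‖A‖ ‖B‖ with hAB | hAB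
  · rw [max_eq_right hAB, Real.posLog_eq_zero_iff _ |>.mpr, add_zero]
    rw [abs_of_nonneg (by positivity), div_le_one hB']
    exact hAB
  · have hA' : 0 < ‖A‖ := lt_of_lt_of_le hB' hAB
    rw [max_eq_left hAB, Real.posLog_eq_log, Real.log_div hA'.ne' hB'.ne']
    · ring
    · rw [abs_of_nonneg (by positivity), le_div_iff₀ hB', one_mul]
      exact hAB

end Pool.Agent.RV.A
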