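import Pool.Agent.Work.MP_5955e5_nt.A.Cx

set_option autoImplicit false

namespace Pool.Agent.RV.A

open Filter Topology Complex MeasureTheory

noncomputable def mu0 : Measure ℝ := volume.restrict (Set.Ioc (0 : ℝ) 1)

noncomputable def mu3 : Measure (ℝ × ℝ × ℝ) := mu0.prod (mu0.prod mu0)

instance : IsProbabilityMeasure mu0 := ⟨by simp [mu0]⟩

instance : IsProbabilityMeasure mu3 := by unfold mu3; infer_instance

/-- squared length -/
noncomputable def ZZ (w : ℝ × ℝ × ℝ) : ℝ := Z w.1 w.2.1 w.2.2

@[fun_prop]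
lemma continuous_ZZ : Continuous ZZ := continuous_Z (by fun_prop) (by fun_prop) (by fun_prop)

lemma ZZ_nonneg (w : ℝ × ℝ × ℝ) : 0 ≤ ZZ w := by unfold ZZ Z; positivity

lemma ZZ_le (w : ℝ × ℝ × ℝ) : ZZ w ≤ 16 := by
  unfold ZZ Z
  have h : ‖1 + e w.1 + e w.2.1 + e w.2.2‖ ≤ 4 := by
    refine (norm_add_le _ _).trans ?_
    have h1 := norm_add_le (1 + e w.1) (e w.2.1)
    have h2 := norm_add_le 1 (e w.1)
    rw [norm_e] at *
    rw [norm_one] at h2
    linarith
  calc ‖1 + e w.1 + e w.2.1 + e w.2.2‖ ^ 2 ≤ 4 ^ 2 := by gcongr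
    _ = 16 := by norm_num

lemma slit_ball {u : ℂ} (hu : u ∈ slitPlane) : ∃ δ > 0, ∀ z ∈ Metric.ball u δ, ∀ t : ℝ, 0 ≤ t →
    ((t : ℂ) + z ∈ slitPlane ∧ δ ≤ ‖(t : ℂ) + z‖) := by
  rcases hu with h | h
  · refine ⟨u.re / 2, by linarith, fun z hz t ht => ?_⟩
    rw [Metric.mem_ball, dist_eq_norm] at hz
    have h1 := (Complex.abs_re_le_norm (z - u)).trans hz.le
    rw [sub_re] at h1
    have h2 := (abs_le.mp h1).1
    have h3 : u.re / 2 ≤ ((t : ℂ) + z).re := by
      rw [add_re, ofReal_re]
      linarith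
    exact ⟨Or.inl (by linarith), h3.trans (re_le_norm _)⟩
  · have h0 : 0 < |u.im| := abs_pos.mpr h
    refine ⟨|u.im| / 2, by linarith, fun z hz t ht => ?_⟩
    rw [Metric.mem_ball, dist_eq_norm] at hz
    have h1 := (Complex.abs_im_le_norm (z - u)).trans hz.le
    rw [sub_im] at h1
    have h2 : |u.im| ≤ |z.im| + |z.im - u.im| := by
      calc |u.im| = |z.im - (z.im - u.im)| := by ring_nf
        _ ≤ |z.im| + |z.im - u.im| := abs_sub _ _
    have h3 : |u.im| / 2 ≤ |((t : ℂ) + z).im| := by
      rw [add_im, ofReal_im, zero_add]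
      linarith
    refine ⟨Or.inr ?_, h3.trans (Complex.abs_im_le_norm _)⟩
    intro h4
    rw [h4, abs_zero] at h3
    linarith

/-- Stieltjes transform of the law of `Z` -/
noncomputable def W (u : ℂ) : ℂ := ∫ w, 1 / ((ZZ w : ℂ) + u) ∂mu3

noncomputable def V (u : ℂ) : ℂ := ∫ w, Complex.log ((ZZ w : ℂ) + u) ∂mu3

lemma measurable_log_ZZ (u : ℂ) : Measurable fun w => Complex.log ((ZZ w : ℂ) + u) := by
  apply Complex.measurable_log.comp
  have := continuous_ZZ.measurable
  fun_prop

lemma integrable_log_ZZ {u : ℂ} (hu : u ∈ slitPlane) :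
    Integrable (fun w => Complex.log ((ZZ w : ℂ) + u)) mu3 := by
  obtain ⟨δ, hδ, hb⟩ := slit_ball hu
  have hc : ContinuousOn (fun x : ℝ => Complex.log ((x : ℂ) + u)) (Set.Icc 0 16) := by
    apply ContinuousOn.clog
    · fun_prop
    · intro x hx
      exact (hb u (Metric.mem_ball_self hδ) x hx.1).1
  obtain ⟨C, hC⟩ := isCompact_Icc.exists_bound_of_continuousOn hc
  refine Integrable.of_bound (measurable_log_ZZ u).aestronglyMeasurable C ?_
  exact Eventually.of_forall fun w => hC (ZZ w) ⟨ZZ_nonneg w, ZZ_le w⟩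

lemma hasDerivAt_V {u : ℂ} (hu : u ∈ slitPlane) : HasDerivAt V (W u) u := by
  obtain ⟨δ, hδ, hb⟩ := slit_ball hu
  refine (hasDerivAt_integral_of_dominated_loc_of_deriv_le (μ := mu3)
    (F := fun (u : ℂ) w => Complex.log ((ZZ w : ℂ) + u))
    (F' := fun (u : ℂ) w => 1 / ((ZZ w : ℂ) + u)) (bound := fun _ => 1 / δ)
    (Metric.ball_mem_nhds u hδ) ?_ ?_ ?_ ?_ ?_ ?_).2
  · exact Eventually.of_forall fun u => (measurable_log_ZZ u).aestronglyMeasurable
  · exact integrable_log_ZZ hu
  · have := continuous_ZZ.measurable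
    exact (by fun_prop : Measurable fun w => 1 / ((ZZ w : ℂ) + u)).aestronglyMeasurable
  · refine Eventually.of_forall fun w x hx => ?_
    rw [norm_div, norm_one]
    exact one_div_le_one_div_of_le hδ (hb x hx _ (ZZ_nonneg w)).2
  · exact integrable_const _
  · refine Eventually.of_forall fun w x hx => ?_
    have h1 := (hb x hx _ (ZZ_nonneg w)).1
    have h2 : HasDerivAt (fun u : ℂ => (ZZ w : ℂ) + u) 1 x := by
      simpa using (hasDerivAt_id x).const_add (ZZ w : ℂ)
    exact h2.clog h1

lemma W_diff : DifferentiableOn ℂ W slitPlane := by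
  have h : DifferentiableOn ℂ V slitPlane := fun u hu =>
    (hasDerivAt_V hu).differentiableAt.differentiableWithinAt
  exact (h.deriv isOpen_slitPlane).congr fun u hu => (hasDerivAt_V hu).deriv.symm

lemma W_real {q : ℝ} (h0 : 0 < q) (h1 : q < 1) :
    W (64 * XR q : ℝ) = (3 / (16 * Real.pi ^ 2) * Real.log q ^ 2 * GR q : ℝ) := by
  have hX := XR_pos h0 h1
  rw [← resolvent_real h0 h1]
  unfold W
  have hpt : ∀ w, 1 / ((ZZ w : ℂ) + (64 * XR q : ℝ)) = ((1 / (64 * XR q + ZZ w) : ℝ) : ℂ) := by
    intro w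
    push_cast
    rw [add_comm]
  simp_rw [hpt]
  rw [integral_complex_ofReal]
  congr 1
  have hcont : Continuous fun w : ℝ × ℝ × ℝ => 1 / (64 * XR q + ZZ w) := by
    refine continuous_const.div (by fun_prop) fun w => ?_
    have := ZZ_nonneg w
    positivity
  have hb : ∀ w, ‖1 / (64 * XR q + ZZ w)‖ ≤ 1 / (64 * XR q) := by
    intro w
    have := ZZ_nonneg w
    rw [Real.norm_of_nonneg (by positivity)]
    apply one_div_le_one_div_of_le (by positivity)
    linarith
  have hint : Integrable (fun w => 1 / (64 * XR q + ZZ w)) mu3 :=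
    Integrable.of_bound hcont.aestronglyMeasurable _ (Eventually.of_forall hb)
  unfold mu3 at hint ⊢
  rw [integral_prod _ hint, intervalIntegral.integral_of_le zero_le_one]
  refine integral_congr_ae (Eventually.of_forall fun a => ?_)
  have hint2 : Integrable (fun w : ℝ × ℝ => 1 / (64 * XR q + ZZ (a, w))) (mu0.prod mu0) :=
    Integrable.of_bound (hcont.comp (by fun_prop)).aestronglyMeasurable _
      (Eventually.of_forall fun w => hb _)
  simp only
  rw [integral_prod _ hint2, intervalIntegral.integral_of_le zero_le_one]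
  refine integral_congr_ae (Eventually.of_forall fun b => ?_)
  simp only
  rw [intervalIntegral.integral_of_le zero_le_one]
  rfl

/-- the slit disc -/
def Usl : Set ℂ := Metric.ball (0 : ℂ) (1 / 50) ∩ slitPlane

lemma Usl_preconnected : IsPreconnected Usl := by
  have hs : StarConvex ℝ ((1 / 100 : ℝ) : ℂ) slitPlane := by
    intro y hy a b ha hb hab
    rcases hy with h | h
    · left
      simp only [Complex.add_re, Complex.real_smul, Complex.mul_re, Complex.ofReal_re,
        Complex.ofReal_im, zero_mul, sub_zero]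
      rcases ha.eq_or_lt with rfl | ha'
      · have : b = 1 := by linarith
        rw [this]; linarith
      · nlinarith [mul_nonneg hb h.le]
    · rcases hb.eq_or_lt with rfl | hb'
      · left
        have : a = 1 := by linarith
        rw [this]
        norm_num
      · right
        simp only [Complex.add_im, Complex.real_smul, Complex.mul_im, Complex.ofReal_re,
          Complex.ofReal_im, zero_mul, mul_zero, add_zero, zero_add]
        exact mul_ne_zero hb'.ne' h
  have hb : StarConvex ℝ ((1 / 100 : ℝ) : ℂ) (Metric.ball (0 : ℂ) (1 / 50)) := by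
    apply (convex_ball _ _).starConvex
    rw [Metric.mem_ball, dist_zero_right, Complex.norm_real]
    norm_num
  have h := hb.inter hs
  refine (h.isPathConnected ⟨?_, ?_⟩).isConnected.isPreconnected
  · rw [Metric.mem_ball, dist_zero_right, Complex.norm_real]
    norm_num
  · left
    norm_num

theorem resolvent_cx {q : ℂ} (hq : ‖q‖ < 1 / 50) (hs : q ∈ slitPlane) :
    W (64 * XC q) = 3 / (16 * (Real.pi : ℂ) ^ 2) * Complex.log q ^ 2 * GC q := by
  have hopen : IsOpen Usl := Metric.isOpen_ball.inter isOpen_slitPlane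
  have hsub : Usl ⊆ Metric.ball (0 : ℂ) 1 := fun z hz =>
    Metric.ball_subset_ball (by norm_num) hz.1
  have h64 : ∀ z : ℂ, z ∈ slitPlane → 64 * z ∈ slitPlane := by
    intro z hz
    rcases hz with h | h
    · left
      simp [h]
    · right
      simp [h]
  have hmaps : Set.MapsTo (fun q => 64 * XC q) Usl slitPlane := by
    intro z hz
    apply h64
    have : ‖z‖ < 1 / 50 := by simpa using hz.1
    exact XC_slit this.le hz.2
  have hf : AnalyticOnNhd ℂ (fun q => W (64 * XC q)) Usl := by
    apply DifferentiableOn.analyticOnNhd _ hopen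
    exact W_diff.comp ((XC_diff.mono hsub).const_mul 64) hmaps
  have hg : AnalyticOnNhd ℂ (fun q => 3 / (16 * (Real.pi : ℂ) ^ 2) * Complex.log q ^ 2 * GC q)
      Usl := by
    apply DifferentiableOn.analyticOnNhd _ hopen
    have hlog : DifferentiableOn ℂ Complex.log Usl := fun z hz =>
      (Complex.differentiableAt_log hz.2).differentiableWithinAt
    exact ((hlog.pow 2).const_mul _).mul (GC_diff.mono hsub)
  have hz0 : ((1 / 100 : ℝ) : ℂ) ∈ Usl := by
    constructor
    · rw [Metric.mem_ball, dist_zero_right, Complex.norm_real]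
      norm_num
    · left
      norm_num
  have hfreq : ∃ᶠ z in 𝓝[≠] ((1 / 100 : ℝ) : ℂ), W (64 * XC z) =
      3 / (16 * (Real.pi : ℂ) ^ 2) * Complex.log z ^ 2 * GC z := by
    have ht : Tendsto (fun x : ℝ => (x : ℂ)) (𝓝[≠] (1 / 100 : ℝ)) (𝓝[≠] ((1 / 100 : ℝ) : ℂ)) := by
      apply tendsto_nhdsWithin_of_tendsto_nhds_of_eventually_within
      · exact Complex.continuous_ofReal.continuousAt.tendsto.mono_left nhdsWithin_le_nhds
      · filter_upwards [self_mem_nhdsWithin] with x hx
        intro h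
        exact hx (Complex.ofReal_injective h)
    apply ht.frequently
    apply Eventually.frequently
    have h1 : ∀ᶠ x in 𝓝 (1 / 100 : ℝ), 0 < x ∧ x < 1 :=
      (lt_mem_nhds (by norm_num)).and (gt_mem_nhds (by norm_num))
    filter_upwards [nhdsWithin_le_nhds h1] with x hx
    rw [XC_ofReal hx.1.le hx.2, GC_ofReal hx.1.le hx.2]
    have := W_real hx.1 hx.2
    push_cast at this ⊢
    rw [this, Complex.ofReal_log hx.1.le]
  exact hf.eqOn_of_preconnected_of_frequently_eq hg Usl_preconnected hz0 hfreq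
    ⟨by simpa using hq, hs⟩

end Pool.Agent.RV.A
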