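import Pool.Agent.Work.MP_5955e5_nt.A.Atom

set_option autoImplicit false

namespace Pool.Agent.RV.A

open Filter Topology Complex MeasureTheory

lemma sR_EC {u : ℝ} : sR u = 64 * Real.exp (-(2 * Real.pi * u)) *
    (EC ((-Real.exp (-(2 * Real.pi * u)) : ℝ) : ℂ)).re := by
  unfold sR
  have : XC ((-Real.exp (-(2 * Real.pi * u)) : ℝ) : ℂ) =
    ((-Real.exp (-(2 * Real.pi * u)) : ℝ) : ℂ) *
      EC ((-Real.exp (-(2 * Real.pi * u)) : ℝ) : ℂ) := rfl
  rw [this, Complex.re_ofReal_mul]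
  ring

lemma EC_re_bounds {u : ℝ} (hu : us < u) :
    43 / 50 ≤ (EC ((-Real.exp (-(2 * Real.pi * u)) : ℝ) : ℂ)).re ∧
      (EC ((-Real.exp (-(2 * Real.pi * u)) : ℝ) : ℂ)).re ≤ 57 / 50 := by
  have h := EC_bound_fiftieth (q := ((-Real.exp (-(2 * Real.pi * u)) : ℝ) : ℂ)) (by
    rw [Complex.norm_real, Real.norm_eq_abs]
    exact (abs_neg_exp_lt hu).le)
  have h2 := (Complex.abs_re_le_norm _).trans h
  rw [Complex.sub_re, Complex.one_re] at h2
  obtain ⟨h3, h4⟩ := abs_le.mp h2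
  constructor <;> linarith

lemma sR_pos {u : ℝ} (hu : us < u) : 0 < sR u := by
  rw [sR_EC]
  have := (EC_re_bounds hu).1
  have := Real.exp_pos (-(2 * Real.pi * u))
  have h3 : (0 : ℝ) < (EC ((-Real.exp (-(2 * Real.pi * u)) : ℝ) : ℂ)).re := by linarith
  positivity

lemma sR_le {u : ℝ} (hu : us < u) : sR u ≤ 73 * Real.exp (-(2 * Real.pi * u)) := by
  rw [sR_EC]
  have h1 := (EC_re_bounds hu).2
  have h2 := Real.exp_pos (-(2 * Real.pi * u))
  nlinarith

lemma sR_hasDerivAt {u : ℝ} (hu : us < u) :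
    HasDerivAt sR (-(128 * Real.pi * Real.exp (-(2 * Real.pi * u)) *
      (deriv XC ((-Real.exp (-(2 * Real.pi * u)) : ℝ) : ℂ)).re)) u := by
  have hx : ‖((-Real.exp (-(2 * Real.pi * u)) : ℝ) : ℂ)‖ < 1 := by
    rw [Complex.norm_real, Real.norm_eq_abs]
    linarith [abs_neg_exp_lt hu]
  have h1 : HasDerivAt (fun u : ℝ => -Real.exp (-(2 * Real.pi * u)))
      (2 * Real.pi * Real.exp (-(2 * Real.pi * u))) u := by
    have := (((hasDerivAt_id u).const_mul (2 * Real.pi)).neg).exp.neg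
    refine HasDerivAt.congr_deriv (f := fun u : ℝ => -Real.exp (-(2 * Real.pi * u))) this ?_
    simp only [Pi.neg_apply, id]
    ring
  have h2 : HasDerivAt (fun u : ℝ => XC ((-Real.exp (-(2 * Real.pi * u)) : ℝ) : ℂ))
      (deriv XC ((-Real.exp (-(2 * Real.pi * u)) : ℝ) : ℂ) *
        ((2 * Real.pi * Real.exp (-(2 * Real.pi * u)) : ℝ) : ℂ)) u := by
    have h3 := (hasDerivAt_XC hx).scomp u h1.ofReal_comp
    simpa [Function.comp_def, mul_comm] using h3
  have h4 := Complex.reCLM.hasFDerivAt.comp_hasDerivAt u h2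
  have h5 : HasDerivAt (fun u : ℝ => (XC ((-Real.exp (-(2 * Real.pi * u)) : ℝ) : ℂ)).re)
      ((deriv XC ((-Real.exp (-(2 * Real.pi * u)) : ℝ) : ℂ)).re *
        (2 * Real.pi * Real.exp (-(2 * Real.pi * u)))) u := by
    refine HasDerivAt.congr_deriv (f := fun u : ℝ =>
      (XC ((-Real.exp (-(2 * Real.pi * u)) : ℝ) : ℂ)).re) h4 ?_
    rw [Complex.reCLM_apply, Complex.re_mul_ofReal]
  refine (h5.const_mul (-64)).congr_deriv ?_
  ring

lemma deriv_XC_neg_re {u : ℝ} (hu : us < u) :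
    0 < (deriv XC ((-Real.exp (-(2 * Real.pi * u)) : ℝ) : ℂ)).re := by
  apply deriv_XC_re
  rw [Complex.norm_real, Real.norm_eq_abs]
  exact (abs_neg_exp_lt hu).le

lemma sR_cont : ContinuousOn sR (Set.Ioi us) := fun _ hu =>
  (sR_hasDerivAt hu).continuousAt.continuousWithinAt

lemma sR_anti : StrictAntiOn sR (Set.Ioi us) := by
  apply strictAntiOn_of_deriv_neg (convex_Ioi _) sR_cont
  intro u hu
  rw [interior_Ioi] at hu
  rw [(sR_hasDerivAt hu).deriv]
  have h1 := deriv_XC_neg_re hu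
  have h2 := Real.exp_pos (-(2 * Real.pi * u))
  have h3 := Real.pi_pos
  have : 0 < 128 * Real.pi * Real.exp (-(2 * Real.pi * u)) *
      (deriv XC ((-Real.exp (-(2 * Real.pi * u)) : ℝ) : ℂ)).re := by positivity
  linarith

lemma tendsto_exp_zero : Tendsto (fun u : ℝ => Real.exp (-(2 * Real.pi * u))) atTop (𝓝 0) := by
  apply Real.tendsto_exp_atBot.comp
  apply tendsto_neg_atTop_atBot.comp
  exact tendsto_id.const_mul_atTop (by have := Real.pi_pos; positivity)

lemma sR_tendsto : Tendsto sR atTop (𝓝 0) := by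
  have h1 : Tendsto (fun u : ℝ => 73 * Real.exp (-(2 * Real.pi * u))) atTop (𝓝 0) := by
    simpa using tendsto_exp_zero.const_mul 73
  refine squeeze_zero' ?_ ?_ h1
  · filter_upwards [eventually_gt_atTop us] with u hu using (sR_pos hu).le
  · filter_upwards [eventually_gt_atTop us] with u hu using sR_le hu

lemma tendsto_V_im {u : ℝ} (hu : us < u) :
    Tendsto (fun φ => (V (64 * XC (Qc u φ))).im) (𝓝[<] Real.pi)
      (𝓝 (Real.pi * mu3.real {w | ZZ w < sR u})) := by
  have hA : MeasurableSet {w | ZZ w < sR u} :=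
    continuous_ZZ.measurable measurableSet_Iio
  have hev : ∀ᶠ φ in 𝓝[<] Real.pi, 0 < φ ∧ φ < Real.pi := by
    have h0 : ∀ᶠ φ in 𝓝[<] Real.pi, 0 < φ := nhdsWithin_le_nhds (lt_mem_nhds Real.pi_pos)
    filter_upwards [h0, self_mem_nhdsWithin] with φ h1 h2 using ⟨h1, h2⟩
  have hcont : Tendsto (fun φ : ℝ => 64 * XC (Qc u φ)) (𝓝[<] Real.pi)
      (𝓝 ((-sR u : ℝ) : ℂ)) := by
    rw [← sR_eq hu]
    exact (hasDerivAt_angle hu Real.pi).continuousAt.tendsto.mono_left nhdsWithin_le_nhds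
  have him : ∀ φ : ℝ, 0 < φ → φ < Real.pi → 0 < (64 * XC (Qc u φ)).im := by
    intro φ h0 h1
    have h2 : 0 < (XC (Qc u φ)).im := by
      apply XC_im_pos (norm_Qc_lt φ hu).le
      rw [Qc_im]
      have := Real.sin_pos_of_pos_of_lt_pi h0 h1
      positivity
    simp only [Complex.mul_im]
    norm_num
    exact h2
  have hlim : ∫ w, Set.indicator {w | ZZ w < sR u} (fun _ => Real.pi) w ∂mu3 =
      Real.pi * mu3.real {w | ZZ w < sR u} := by
    rw [integral_indicator_const _ hA, smul_eq_mul, mul_comm]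
  rw [← hlim]
  have hmain : Tendsto (fun φ => ∫ w, Complex.arg ((ZZ w : ℂ) + 64 * XC (Qc u φ)) ∂mu3)
      (𝓝[<] Real.pi)
      (𝓝 (∫ w, Set.indicator {w | ZZ w < sR u} (fun _ => Real.pi) w ∂mu3)) := by
    apply tendsto_integral_filter_of_dominated_convergence (fun _ => Real.pi)
    · refine Eventually.of_forall fun φ => ?_
      apply Measurable.aestronglyMeasurable
      apply Complex.measurable_arg.comp
      have := continuous_ZZ.measurable
      fun_prop
    · refine Eventually.of_forall fun φ => Eventually.of_forall fun w => ?_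
      rw [Real.norm_eq_abs]
      exact Complex.abs_arg_le_pi _
    · exact integrable_const _
    · have hae : ∀ᵐ w ∂mu3, ZZ w ≠ sR u := by
        have := no_atom hu
        rw [measureReal_eq_zero_iff] at this
        rw [ae_iff]
        simpa using this
      filter_upwards [hae] with w hw
      have hz : Tendsto (fun φ : ℝ => (ZZ w : ℂ) + 64 * XC (Qc u φ)) (𝓝[<] Real.pi)
          (𝓝 ((ZZ w - sR u : ℝ) : ℂ)) := by
        have := hcont.const_add (ZZ w : ℂ)
        convert this using 2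
        push_cast
        ring
      rcases lt_or_gt_of_ne hw with h | h
      · rw [Set.indicator_of_mem (by exact h)]
        have hc := Complex.continuousWithinAt_arg_of_re_neg_of_im_zero
          (z := ((ZZ w - sR u : ℝ) : ℂ)) (by rw [Complex.ofReal_re]; linarith)
          (Complex.ofReal_im _)
        have hc2 : Tendsto Complex.arg (𝓝[{z : ℂ | 0 ≤ z.im}] ((ZZ w - sR u : ℝ) : ℂ))
            (𝓝 Real.pi) := by
          have := hc.tendsto
          rwa [Complex.arg_ofReal_of_neg (by linarith)] at this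
        apply hc2.comp
        apply tendsto_nhdsWithin_of_tendsto_nhds_of_eventually_within _ hz
        filter_upwards [hev] with φ hφ
        rw [Complex.add_im, Complex.ofReal_im, zero_add]
        exact (him φ hφ.1 hφ.2).le
      · rw [Set.indicator_of_notMem (by simpa using h.le)]
        have hc := (Complex.continuousAt_arg (x := ((ZZ w - sR u : ℝ) : ℂ))
          (Or.inl (by rw [Complex.ofReal_re]; linarith))).tendsto
        rw [Complex.arg_ofReal_of_nonneg (by linarith)] at hc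
        exact hc.comp hz
  refine hmain.congr' ?_
  filter_upwards [hev] with φ hφ
  rw [V_im (slit64 (XC_slit (norm_Qc_lt φ hu).le (Qc_slit hφ.1 hφ.2)))]

lemma PC_real {x : ℝ} (h : |x| < 1) : ((PC x).re : ℂ) = PC x := by
  have hc := PC_conj (q := (x : ℂ)) (by rwa [Complex.norm_real, Real.norm_eq_abs])
  rw [Complex.conj_ofReal] at hc
  exact Complex.conj_eq_iff_re.mp hc.symm

lemma GC_real {x : ℝ} (h : |x| < 1) : ∃ y : ℝ, 0 ≤ y ∧ GC x = y := by
  have hk : ∀ k : ℕ, k ≠ 0 → PC ((x : ℂ) ^ k) = (((PC ((x ^ k : ℝ) : ℂ)).re : ℝ) : ℂ) := by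
    intro k hk
    rw [← Complex.ofReal_pow, PC_real]
    rw [abs_pow]
    exact pow_lt_one₀ (abs_nonneg x) h hk
  refine ⟨((PC x).re * (PC ((x ^ 3 : ℝ) : ℂ)).re) ^ 4 /
    ((PC ((x ^ 2 : ℝ) : ℂ)).re * (PC ((x ^ 6 : ℝ) : ℂ)).re) ^ 2, ?_, ?_⟩
  · apply div_nonneg
    · exact Even.pow_nonneg (by decide) _
    · positivity
  · unfold GC
    rw [hk 2 two_ne_zero, hk 3 three_ne_zero, hk 6 (by norm_num), ← PC_real h]
    push_cast
    simp

lemma epsC_im {x : ℝ} (h : |x| < 1) : (epsC x).im = 0 := by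
  obtain ⟨y, _, hy⟩ := GC_real h
  unfold epsC
  rw [hy]
  simp [deriv_XC_im h]

/-- density of the law in the variable `u` -/
noncomputable def kap (u : ℝ) : ℝ :=
  -96 * u * (epsC ((-Real.exp (-(2 * Real.pi * u)) : ℝ) : ℂ)).re

lemma kap_nonneg {u : ℝ} (hu : us < u) : 0 ≤ kap u := by
  have hx := abs_neg_exp_lt hu
  obtain ⟨y, hy0, hy⟩ := GC_real (x := -Real.exp (-(2 * Real.pi * u))) (by linarith)
  have hd := deriv_XC_neg_re hu
  unfold kap epsC
  rw [hy]
  simp only [Complex.re_mul_ofReal, Complex.re_ofReal_mul]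
  have := us_pos.trans hu
  have h3 := Real.exp_pos (-(2 * Real.pi * u))
  have : 0 ≤ 96 * u * (Real.exp (-(2 * Real.pi * u)) *
    (deriv XC ((-Real.exp (-(2 * Real.pi * u)) : ℝ) : ℂ)).re * y) := by positivity
  calc (0 : ℝ) ≤ _ := this
    _ = _ := by ring

lemma alg_im (u E : ℝ) :
    (24 / (Real.pi : ℂ) * (-(2 * Real.pi * u) + Real.pi * I) ^ 2 * (E : ℂ)).im =
      -(96 * Real.pi * u) * E := by
  have hpi' : (Real.pi : ℂ) ≠ 0 := by exact_mod_cast Real.pi_ne_zero
  have : 24 / (Real.pi : ℂ) * (-(2 * Real.pi * u) + Real.pi * I) ^ 2 * (E : ℂ) =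
      ((24 * Real.pi * (4 * u ^ 2 - 1) * E : ℝ) : ℂ) +
        ((-(96 * Real.pi * u) * E : ℝ) : ℂ) * I := by
    push_cast
    have h2 : (-(2 * (Real.pi : ℂ) * u) + Real.pi * I) ^ 2 =
        (Real.pi : ℂ) ^ 2 * (4 * u ^ 2 - 1) - (Real.pi : ℂ) ^ 2 * 4 * u * I := by
      linear_combination (Real.pi : ℂ) ^ 2 * Complex.I_sq
    rw [h2]
    field_simp
    ring
  rw [this]
  simp only [Complex.add_im, Complex.ofReal_im, Complex.mul_im, Complex.ofReal_re, Complex.I_im,
    Complex.I_re, mul_one, mul_zero, add_zero, zero_add]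

lemma hray_pi {u u1 : ℝ} (hu1 : us < u1) (hu : u1 ≤ u) :
    (hray u1 Real.pi u).im = Real.pi * kap u := by
  have hlt := hu1.trans_le hu
  have him := epsC_im (x := -Real.exp (-(2 * Real.pi * u))) (by linarith [abs_neg_exp_lt hlt])
  have hre : epsC ((-Real.exp (-(2 * Real.pi * u)) : ℝ) : ℂ) =
      ((epsC ((-Real.exp (-(2 * Real.pi * u)) : ℝ) : ℂ)).re : ℂ) := by
    apply Complex.ext
    · rw [Complex.ofReal_re]
    · rw [him, Complex.ofReal_im]
  unfold hray
  rw [max_eq_left hu, Qc_pi]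
  unfold kap
  generalize epsC ((-Real.exp (-(2 * Real.pi * u)) : ℝ) : ℂ) = E at *
  have h2 := alg_im u E.re
  rw [← hre] at h2
  rw [h2]
  ring

lemma continuous_hray_u {u1 : ℝ} (hu1 : us < u1) (φ : ℝ) : Continuous (hray u1 φ) := by
  have := (continuous_hray hu1).comp (by fun_prop : Continuous fun u : ℝ => (φ, u))
  exact this

lemma hray_pi_int {u1 u2 : ℝ} (hu1 : us < u1) (hu : u1 ≤ u2) :
    (∫ u in u1..u2, hray u1 Real.pi u).im = Real.pi * ∫ u in u1..u2, kap u := by
  have hci : Continuous (hray u1 Real.pi) := continuous_hray_u hu1 Real.pi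
  have hii : IntervalIntegrable (hray u1 Real.pi) volume u1 u2 := hci.intervalIntegrable u1 u2
  have := Complex.imCLM.intervalIntegral_comp_comm hii
  simp only [Complex.imCLM_apply] at this
  rw [← this, ← intervalIntegral.integral_const_mul]
  apply intervalIntegral.integral_congr
  intro u hu'
  rw [Set.uIcc_of_le hu] at hu'
  exact hray_pi hu1 hu'.1

lemma hray_tendsto {u1 : ℝ} (u2 : ℝ) (hu1 : us < u1) :
    Tendsto (fun φ : ℝ => (∫ u in u1..u2, hray u1 φ u).im) (𝓝[<] Real.pi)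
      (𝓝 (∫ u in u1..u2, hray u1 Real.pi u).im) := by
  have hc : Continuous fun φ : ℝ => ∫ u in u1..u2, hray u1 φ u :=
    intervalIntegral.continuous_parametric_intervalIntegral_of_continuous'
      (continuous_hray hu1) u1 u2
  have h := (Complex.continuous_im.comp hc).tendsto Real.pi
  exact h.mono_left nhdsWithin_le_nhds

lemma law_interval {u1 u2 : ℝ} (hu1 : us < u1) (hu : u1 ≤ u2) :
    mu3.real {w | ZZ w < sR u1} - mu3.real {w | ZZ w < sR u2} = ∫ u in u1..u2, kap u := by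
  have hpi := Real.pi_pos
  have h1 := (tendsto_V_im hu1).sub (tendsto_V_im (hu1.trans_le hu))
  have h2 := hray_tendsto u2 hu1
  have h3 : (fun φ => (V (64 * XC (Qc u1 φ))).im - (V (64 * XC (Qc u2 φ))).im) =ᶠ[𝓝[<] Real.pi]
      fun φ : ℝ => (∫ u in u1..u2, hray u1 φ u).im := by
    have h0 : ∀ᶠ φ in 𝓝[<] Real.pi, 0 < φ := nhdsWithin_le_nhds (lt_mem_nhds Real.pi_pos)
    filter_upwards [h0, self_mem_nhdsWithin] with φ hφ0 hφ1
    rw [← ray hφ0 hφ1 hu1 hu, Complex.sub_im]
  have h4 := tendsto_nhds_unique (h1.congr' h3) h2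
  rw [hray_pi_int hu1 hu, ← mul_sub] at h4
  exact mul_left_cancel₀ hpi.ne' h4

end Pool.Agent.RV.A
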