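import Pool.Agent.Work.MP_5955e5_nt.A.Limit

set_option autoImplicit false

namespace Pool.Agent.RV.A

open Filter Topology Complex MeasureTheory

lemma kap_cont : ContinuousOn kap (Set.Ioi us) := by
  unfold kap
  have h : ContinuousOn (fun u : ℝ => epsC ((-Real.exp (-(2 * Real.pi * u)) : ℝ) : ℂ))
      (Set.Ioi us) := by
    apply epsC_cont.comp (by fun_prop)
    intro u hu
    apply mem_ball_of
    rw [Complex.norm_real, Real.norm_eq_abs]
    linarith [abs_neg_exp_lt hu]
  exact (by fun_prop : ContinuousOn (fun u : ℝ => -96 * u) (Set.Ioi us)).mul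
    (Complex.continuous_re.comp_continuousOn h)

lemma kap_ii {u1 u2 : ℝ} (h1 : us < u1) (h : u1 ≤ u2) : IntervalIntegrable kap volume u1 u2 := by
  apply ContinuousOn.intervalIntegrable
  apply kap_cont.mono
  rw [Set.uIcc_of_le h]
  exact fun x hx => h1.trans_le hx.1

lemma kap_integrable {u1 : ℝ} (h1 : us < u1) : IntegrableOn kap (Set.Ioi u1) := by
  apply integrableOn_Ioi_of_intervalIntegral_norm_bounded 1 u1 (l := atTop) (b := fun b : ℝ => b)
  · intro b
    rcases le_total u1 b with h | h
    · exact (intervalIntegrable_iff_integrableOn_Ioc_of_le h).mp (kap_ii h1 h)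
    · rw [Set.Ioc_eq_empty (not_lt.mpr h)]
      exact integrableOn_empty
  · exact tendsto_id
  · filter_upwards [eventually_ge_atTop u1] with b hb
    have : ∫ x in u1..b, ‖kap x‖ = ∫ x in u1..b, kap x := by
      apply intervalIntegral.integral_congr
      intro x hx
      rw [Set.uIcc_of_le hb] at hx
      exact Real.norm_of_nonneg (kap_nonneg (h1.trans_le hx.1))
    rw [this, ← law_interval h1 hb]
    have h2 : mu3.real {w | ZZ w < sR u1} ≤ 1 := measureReal_le_one
    have h3 : 0 ≤ mu3.real {w | ZZ w < sR b} := measureReal_nonneg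
    linarith

lemma tendsto_zero_law : Tendsto (fun u => mu3.real {w | ZZ w < sR u}) atTop
    (𝓝 (mu3.real {w | ZZ w ≤ 0})) := by
  have hA : ∀ a, MeasurableSet {w | ZZ w < a} := fun a =>
    continuous_ZZ.measurable measurableSet_Iio
  have hB : MeasurableSet {w | ZZ w ≤ 0} := continuous_ZZ.measurable measurableSet_Iic
  have e1 : ∀ u, mu3.real {w | ZZ w < sR u} =
      ∫ w, Set.indicator {w | ZZ w < sR u} (fun _ => (1 : ℝ)) w ∂mu3 := by
    intro u
    rw [integral_indicator_const _ (hA _), smul_eq_mul, mul_one]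
  have e2 : mu3.real {w | ZZ w ≤ 0} =
      ∫ w, Set.indicator {w | ZZ w ≤ 0} (fun _ => (1 : ℝ)) w ∂mu3 := by
    rw [integral_indicator_const _ hB, smul_eq_mul, mul_one]
  simp_rw [e1]
  rw [e2]
  apply tendsto_integral_filter_of_dominated_convergence (fun _ => 1)
  · exact Eventually.of_forall fun u =>
      ((measurable_const.indicator (hA _)).aestronglyMeasurable)
  · refine Eventually.of_forall fun u => Eventually.of_forall fun w => ?_
    refine (norm_indicator_le_norm_self _ _).trans ?_
    simp
  · exact integrable_const _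
  · refine Eventually.of_forall fun w => ?_
    rcases le_or_gt (ZZ w) 0 with h | h
    · rw [Set.indicator_of_mem (by exact h)]
      apply tendsto_const_nhds.congr'
      filter_upwards [eventually_gt_atTop us] with u hu
      rw [Set.indicator_of_mem]
      exact h.trans_lt (sR_pos hu)
    · rw [Set.indicator_of_notMem (by simpa using h)]
      apply tendsto_const_nhds.congr'
      filter_upwards [sR_tendsto.eventually_lt_const h] with u hu
      rw [Set.indicator_of_notMem]
      simpa using hu.le

lemma tail_law {u1 : ℝ} (h1 : us < u1) :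
    mu3.real {w | 0 < ZZ w ∧ ZZ w < sR u1} = ∫ u in Set.Ioi u1, kap u := by
  have hA : ∀ a, MeasurableSet {w | ZZ w < a} := fun a =>
    continuous_ZZ.measurable measurableSet_Iio
  have hB : MeasurableSet {w | ZZ w ≤ 0} := continuous_ZZ.measurable measurableSet_Iic
  have h2 : Tendsto (fun b => ∫ u in u1..b, kap u) atTop (𝓝 (∫ u in Set.Ioi u1, kap u)) :=
    intervalIntegral_tendsto_integral_Ioi u1 (kap_integrable h1) tendsto_id
  have h3 : Tendsto (fun b => ∫ u in u1..b, kap u) atTop
      (𝓝 (mu3.real {w | ZZ w < sR u1} - mu3.real {w | ZZ w ≤ 0})) := by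
    apply (tendsto_const_nhds.sub tendsto_zero_law).congr'
    filter_upwards [eventually_ge_atTop u1] with b hb
    exact law_interval h1 hb
  rw [tendsto_nhds_unique h2 h3]
  have h4 : {w | 0 < ZZ w ∧ ZZ w < sR u1} = {w | ZZ w < sR u1} \ {w | ZZ w ≤ 0} := by
    ext w
    simp only [Set.mem_sdiff, Set.mem_ofPred_eq, not_le]
    tauto
  rw [h4, measureReal_sdiff _ hB]
  intro w hw
  exact lt_of_le_of_lt hw (sR_pos h1)

lemma tail_law' {u1 : ℝ} (h1 : us < u1) :
    mu3 {w | 0 < ZZ w ∧ ZZ w < sR u1} = ∫⁻ u in Set.Ioi u1, ENNReal.ofReal (kap u) := by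
  rw [← ofReal_integral_eq_lintegral_ofReal (kap_integrable h1), ← tail_law h1, ofReal_measureReal]
  rw [EventuallyLE, ae_restrict_iff' measurableSet_Ioi]
  exact Eventually.of_forall fun u hu => kap_nonneg (h1.trans hu)

/-- the law of `Z` on `(0, 1)` -/
noncomputable def nu : Measure ℝ := (mu3.restrict {w | 0 < ZZ w ∧ ZZ w < 1}).map ZZ

noncomputable def nu' (c : ℝ) : Measure ℝ :=
  ((volume.restrict (Set.Ioi c)).withDensity (fun u => ENNReal.ofReal (kap u))).map sR

lemma sR_aem {c : ℝ} (hc : us < c) : AEMeasurable sR (volume.restrict (Set.Ioi c)) :=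
  (sR_cont.mono (Set.Ioi_subset_Ioi hc.le)).aemeasurable measurableSet_Ioi

lemma kap_aem {c : ℝ} (hc : us < c) :
    AEMeasurable (fun u => ENNReal.ofReal (kap u)) (volume.restrict (Set.Ioi c)) :=
  ((kap_cont.mono (Set.Ioi_subset_Ioi hc.le)).aemeasurable measurableSet_Ioi).ennreal_ofReal

lemma sR_aem' {c : ℝ} (hc : us < c) : AEMeasurable sR
    ((volume.restrict (Set.Ioi c)).withDensity (fun u => ENNReal.ofReal (kap u))) :=
  (sR_aem hc).mono_ac (withDensity_absolutelyContinuous _ _)

lemma measurableSet_A : MeasurableSet {w | 0 < ZZ w ∧ ZZ w < 1} :=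
  (continuous_ZZ.measurable measurableSet_Ioi).inter (continuous_ZZ.measurable measurableSet_Iio)

theorem nu_eq {c : ℝ} (hc : us < c) (h1 : sR c = 1) : nu = nu' c := by
  have hfin : IsFiniteMeasure nu := by unfold nu; infer_instance
  apply Measure.ext_of_Iic
  intro a
  unfold nu nu'
  rw [Measure.map_apply continuous_ZZ.measurable measurableSet_Iic,
    Measure.map_apply_of_aemeasurable (sR_aem' hc) measurableSet_Iic, withDensity_apply',
    Measure.restrict_restrict' measurableSet_Ioi,
    Measure.restrict_apply' measurableSet_A]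
  rcases le_or_gt a 0 with ha | ha
  · have e1 : ZZ ⁻¹' Set.Iic a ∩ {w | 0 < ZZ w ∧ ZZ w < 1} = ∅ := by
      ext w
      simp only [Set.mem_inter_iff, Set.mem_preimage, Set.mem_Iic, Set.mem_ofPred_eq,
        Set.mem_empty_iff_false, iff_false]
      rintro ⟨h2, h3, h4⟩
      linarith
    have e2 : sR ⁻¹' Set.Iic a ∩ Set.Ioi c = ∅ := by
      ext u
      simp only [Set.mem_inter_iff, Set.mem_preimage, Set.mem_Iic, Set.mem_Ioi,
        Set.mem_empty_iff_false, iff_false]
      rintro ⟨h2, h3⟩
      linarith [sR_pos (hc.trans h3)]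
    rw [e1, e2]
    simp
  · rcases le_or_gt 1 a with ha1 | ha1
    · have e1 : ZZ ⁻¹' Set.Iic a ∩ {w | 0 < ZZ w ∧ ZZ w < 1} = {w | 0 < ZZ w ∧ ZZ w < sR c} := by
        ext w
        simp only [Set.mem_inter_iff, Set.mem_preimage, Set.mem_Iic, Set.mem_ofPred_eq, h1]
        constructor
        · exact fun h => h.2
        · exact fun h => ⟨by linarith [h.2], h⟩
      have e2 : sR ⁻¹' Set.Iic a ∩ Set.Ioi c = Set.Ioi c := by
        ext u
        simp only [Set.mem_inter_iff, Set.mem_preimage, Set.mem_Iic, Set.mem_Ioi,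
          and_iff_right_iff_imp]
        intro h3
        have := sR_anti hc (hc.trans h3) h3
        linarith
      rw [e1, e2, tail_law' hc]
    · obtain ⟨w, hw, hwa⟩ : ∃ w, c < w ∧ sR w = a := by
        have h2 : ∀ᶠ u in atTop, sR u < a := sR_tendsto.eventually_lt_const ha
        obtain ⟨b, hb, hbc⟩ := (h2.and (eventually_gt_atTop c)).exists
        have hcont : ContinuousOn sR (Set.Icc c b) :=
          sR_cont.mono fun x hx => hc.trans_le hx.1
        have := intermediate_value_Ioo' hbc.le hcont (show a ∈ Set.Ioo (sR b) (sR c) from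
          ⟨hb, by rw [h1]; exact ha1⟩)
        obtain ⟨w, hw, hwa⟩ := this
        exact ⟨w, hw.1, hwa⟩
      have hwu : us < w := hc.trans hw
      have e1 : (ZZ ⁻¹' Set.Iic a ∩ {w | 0 < ZZ w ∧ ZZ w < 1} : Set (ℝ × ℝ × ℝ)) =ᵐ[mu3]
          ({v | 0 < ZZ v ∧ ZZ v < sR w} : Set (ℝ × ℝ × ℝ)) := by
        have hae : ∀ᵐ v ∂mu3, ZZ v ≠ sR w := by
          have := no_atom hwu
          rw [measureReal_eq_zero_iff] at this
          rw [ae_iff]
          simpa using this
        rw [Filter.eventuallyEq_set]
        filter_upwards [hae] with v hv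
        rw [hwa] at hv ⊢
        constructor
        · rintro ⟨h2, h3, h4⟩
          exact ⟨h3, lt_of_le_of_ne h2 hv⟩
        · rintro ⟨h2, h3⟩
          exact ⟨h3.le, h2, h3.trans ha1⟩
      have e2 : sR ⁻¹' Set.Iic a ∩ Set.Ioi c = Set.Ici w := by
        ext u
        simp only [Set.mem_inter_iff, Set.mem_preimage, Set.mem_Iic, Set.mem_Ioi, Set.mem_Ici]
        rw [← hwa]
        constructor
        · rintro ⟨h2, h3⟩
          by_contra h4
          push Not at h4
          have := sR_anti (hc.trans h3) hwu h4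
          linarith
        · intro h2
          exact ⟨sR_anti.antitoneOn hwu (hwu.trans_le h2) h2, hw.trans_le h2⟩
      rw [measure_congr e1, e2, tail_law' hwu]
      exact (setLIntegral_congr Ioi_ae_eq_Ici)

end Pool.Agent.RV.A
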