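import Pool.Agent.Work.MP_5955e5_nt.A.Law

set_option autoImplicit false

namespace Pool.Agent.RV.A

open Filter Topology Complex MeasureTheory

/-- `q X'(q) G(q)` -/
noncomputable def epsC (q : ℂ) : ℂ := q * deriv XC q * GC q

/-- `exp (- 2 π u + i φ)` -/
noncomputable def Qc (u φ : ℝ) : ℂ := Complex.exp (-(2 * Real.pi * u) + φ * I)

@[fun_prop]
lemma continuous_Qc : Continuous fun x : ℝ × ℝ => Qc x.1 x.2 := by
  unfold Qc
  fun_prop

lemma norm_Qc (u φ : ℝ) : ‖Qc u φ‖ = Real.exp (-(2 * Real.pi * u)) := by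
  unfold Qc
  rw [Complex.norm_exp]
  simp

lemma Qc_pi (u : ℝ) : Qc u Real.pi = ((-Real.exp (-(2 * Real.pi * u)) : ℝ) : ℂ) := by
  unfold Qc
  rw [Complex.exp_add, Complex.exp_pi_mul_I]
  push_cast
  ring

lemma Qc_im (u φ : ℝ) : (Qc u φ).im = Real.exp (-(2 * Real.pi * u)) * Real.sin φ := by
  unfold Qc
  rw [Complex.exp_im]
  simp

/-- the left end -/
noncomputable def us : ℝ := Real.log 50 / (2 * Real.pi)

lemma exp_lt_of_us {u : ℝ} (hu : us < u) : Real.exp (-(2 * Real.pi * u)) < 1 / 50 := by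
  have hpi := Real.pi_pos
  unfold us at hu
  rw [div_lt_iff₀ (by positivity)] at hu
  have h : -(2 * Real.pi * u) < -Real.log 50 := by linarith
  calc Real.exp (-(2 * Real.pi * u)) < Real.exp (-Real.log 50) := Real.exp_lt_exp.mpr h
    _ = 1 / 50 := by rw [Real.exp_neg, Real.exp_log (by norm_num)]; norm_num

lemma us_pos : 0 < us := by
  unfold us
  have := Real.log_pos (by norm_num : (1 : ℝ) < 50)
  positivity

lemma norm_Qc_lt {u : ℝ} (φ : ℝ) (hu : us < u) : ‖Qc u φ‖ < 1 / 50 := by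
  rw [norm_Qc]
  exact exp_lt_of_us hu

lemma Qc_slit {u φ : ℝ} (h0 : 0 < φ) (h1 : φ < Real.pi) : Qc u φ ∈ slitPlane := by
  right
  rw [Qc_im]
  have := Real.sin_pos_of_pos_of_lt_pi h0 h1
  positivity

lemma log_Qc {u φ : ℝ} (h0 : 0 < φ) (h1 : φ < Real.pi) :
    Complex.log (Qc u φ) = -(2 * Real.pi * u) + φ * I := by
  unfold Qc
  have him : (-(2 * (Real.pi : ℂ) * u) + φ * I).im = φ := by simp
  rw [Complex.log_exp]
  · rw [him]; linarith [Real.pi_pos]
  · rw [him]; linarith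

lemma hasDerivAt_Qc (u φ : ℝ) :
    HasDerivAt (fun u : ℝ => Qc u φ) (-(2 * Real.pi) * Qc u φ) u := by
  unfold Qc
  have h1 : HasDerivAt (fun u : ℝ => (-(2 * (Real.pi : ℂ) * u) + φ * I)) (-(2 * Real.pi)) u := by
    have := ((Complex.ofRealCLM.hasDerivAt (x := u)).const_mul (2 * (Real.pi : ℂ))).neg
    simpa using this.add_const (φ * I)
  have := h1.cexp
  convert this using 1
  ring

lemma mem_ball_of {q : ℂ} (h : ‖q‖ < 1) : q ∈ Metric.ball (0 : ℂ) 1 := by
  simpa [Metric.mem_ball, dist_zero_right] using h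

lemma epsC_cont : ContinuousOn epsC (Metric.ball 0 1) := by
  unfold epsC
  exact (continuousOn_id.mul (XC_diff.deriv Metric.isOpen_ball).continuousOn).mul
    GC_diff.continuousOn

lemma hasDerivAt_XC {q : ℂ} (h : ‖q‖ < 1) : HasDerivAt XC (deriv XC q) q :=
  (XC_diff.differentiableAt (Metric.isOpen_ball.mem_nhds (mem_ball_of h))).hasDerivAt

lemma slit64 {z : ℂ} (hz : z ∈ slitPlane) : 64 * z ∈ slitPlane := by
  rcases hz with h | h
  · left
    simp [h]
  · right
    simp [h]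

lemma hasDerivAt_ray {φ u : ℝ} (h0 : 0 < φ) (h1 : φ < Real.pi) (hu : us < u) :
    HasDerivAt (fun u : ℝ => -V (64 * XC (Qc u φ)))
      (24 / Real.pi * (-(2 * Real.pi * u) + φ * I) ^ 2 * epsC (Qc u φ)) u := by
  have hn := norm_Qc_lt φ hu
  have hs := Qc_slit (u := u) h0 h1
  have hX : HasDerivAt (fun u : ℝ => 64 * XC (Qc u φ))
      (64 * (deriv XC (Qc u φ) * (-(2 * Real.pi) * Qc u φ))) u := by
    apply HasDerivAt.const_mul
    have := (hasDerivAt_XC (q := Qc u φ) (by linarith)).scomp u (hasDerivAt_Qc u φ)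
    simpa [Function.comp_def, mul_comm] using this
  have hV := (hasDerivAt_V (slit64 (XC_slit hn.le hs))).scomp u hX
  have hV2 := hV.neg
  rw [resolvent_cx hn hs, log_Qc h0 h1] at hV2
  refine HasDerivAt.congr_deriv (f := fun u : ℝ => -V (64 * XC (Qc u φ))) hV2 ?_
  unfold epsC
  simp only [smul_eq_mul]
  have hpi : (Real.pi : ℂ) ≠ 0 := by exact_mod_cast Real.pi_ne_zero
  field_simp
  ring

/-- the integrand, made continuous everywhere -/
noncomputable def hray (u1 φ u : ℝ) : ℂ :=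
  24 / Real.pi * (-(2 * Real.pi * u) + φ * I) ^ 2 * epsC (Qc (max u u1) φ)

lemma continuous_hray {u1 : ℝ} (hu1 : us < u1) :
    Continuous (Function.uncurry (hray u1)) := by
  unfold hray Function.uncurry
  have h : Continuous fun x : ℝ × ℝ => epsC (Qc (max x.2 u1) x.1) := by
    apply epsC_cont.comp_continuous
    · exact continuous_Qc.comp (by fun_prop : Continuous fun x : ℝ × ℝ => (max x.2 u1, x.1))
    · intro x
      apply mem_ball_of
      have := norm_Qc_lt x.1 (hu1.trans_le (le_max_right x.2 u1))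
      linarith
  fun_prop

lemma ray {φ u1 u2 : ℝ} (h0 : 0 < φ) (h1 : φ < Real.pi) (hu1 : us < u1) (hu : u1 ≤ u2) :
    V (64 * XC (Qc u1 φ)) - V (64 * XC (Qc u2 φ)) = ∫ u in u1..u2, hray u1 φ u := by
  have hc : Continuous (hray u1 φ) := by
    have := (continuous_hray hu1).comp (by fun_prop : Continuous fun u : ℝ => (φ, u))
    exact this
  have h := intervalIntegral.integral_eq_sub_of_hasDerivAt (a := u1) (b := u2)
    (f := fun u : ℝ => -V (64 * XC (Qc u φ))) (f' := hray u1 φ) (by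
      intro u hu'
      rw [Set.uIcc_of_le hu] at hu'
      unfold hray
      rw [max_eq_left hu'.1]
      exact hasDerivAt_ray h0 h1 (hu1.trans_le hu'.1)) (hc.intervalIntegrable _ _)
  rw [h]
  ring

/-- `s(u) = - 64 X(-exp (-2 π u))` -/
noncomputable def sR (u : ℝ) : ℝ := -64 * (XC ((-Real.exp (-(2 * Real.pi * u)) : ℝ) : ℂ)).re

lemma XC_real {x : ℝ} (h : |x| < 1) : ((XC x).re : ℂ) = XC x := by
  have hc := XC_conj (q := (x : ℂ)) (by rwa [Complex.norm_real, Real.norm_eq_abs])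
  rw [Complex.conj_ofReal] at hc
  exact Complex.conj_eq_iff_re.mp hc.symm

lemma sR_eq {u : ℝ} (hu : us < u) :
    64 * XC (Qc u Real.pi) = ((-sR u : ℝ) : ℂ) := by
  have h := exp_lt_of_us hu
  have hx : |(-Real.exp (-(2 * Real.pi * u)))| < 1 := by
    rw [abs_neg, abs_of_pos (Real.exp_pos _)]
    linarith
  rw [Qc_pi, ← XC_real hx]
  unfold sR
  push_cast
  ring

end Pool.Agent.RV.A
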