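import Pool.Agent.Work.MP_5955e5_nt.A.Jensen

/-!
# Cell RV, block (a), step A2, first half: reduction of `∫ log |1 + x + y + z|` to two variables
-/

set_option autoImplicit false

namespace Pool.Agent.RV.A

open Filter Topology Complex MeasureTheory

lemma integrable_prod_of_le {α β : Type*} [MeasurableSpace α] [MeasurableSpace β]
    {μ : Measure α} {ν : Measure β} [IsProbabilityMeasure μ] [IsProbabilityMeasure ν]
    {h : α × β → ℝ} (hm : Measurable h) {C : ℝ} (hC : 0 ≤ C) (hle : ∀ z, h z ≤ C)
    (h1 : ∀ᵐ x ∂μ, Integrable (fun y => h (x, y)) ν)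
    (h2 : Integrable (fun x => ∫ y, h (x, y) ∂ν) μ) : Integrable h (μ.prod ν) := by
  rw [integrable_prod_iff hm.aestronglyMeasurable]
  refine ⟨h1, ?_⟩
  have h3 : Integrable (fun x => 2 * C - ∫ y, h (x, y) ∂ν) μ := (integrable_const _).sub h2
  refine h3.mono' hm.norm.aestronglyMeasurable.integral_prod_right' ?_
  filter_upwards [h1] with x hx
  rw [Real.norm_of_nonneg (integral_nonneg fun y => norm_nonneg _)]
  have h4 : ∀ y, ‖h (x, y)‖ ≤ 2 * C - h (x, y) := by
    intro y
    rw [Real.norm_eq_abs, abs_le]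
    constructor <;> linarith [hle (x, y)]
  calc ∫ y, ‖h (x, y)‖ ∂ν ≤ ∫ y, (2 * C - h (x, y)) ∂ν :=
        integral_mono hx.norm ((integrable_const _).sub hx) h4
    _ = 2 * C - ∫ y, h (x, y) ∂ν := by
        rw [integral_sub (integrable_const _) hx]
        simp

lemma log_le_of_le {x C : ℝ} (hx : 0 ≤ x) (h : x ≤ C) (hC : 1 ≤ C) : Real.log x ≤ Real.log C := by
  rcases hx.eq_or_lt with h0 | h0
  · rw [← h0, Real.log_zero]
    exact Real.log_nonneg hC
  · exact Real.log_le_log h0 h

@[fun_prop]
lemma cont_e : Continuous e := continuous_e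

lemma norm_three (a b : ℝ) : ‖1 + e a + e b‖ ≤ 3 := by
  refine (norm_add_le _ _).trans ?_
  have h2 := norm_add_le 1 (e a)
  rw [norm_e] at *
  rw [norm_one] at h2
  linarith

lemma logmax_bounds (x : ℝ) (h : x ≤ 3) :
    ‖Real.log (max x 1)‖ ≤ Real.log 3 := by
  have h1 : (1 : ℝ) ≤ max x 1 := le_max_right _ _
  rw [Real.norm_of_nonneg (Real.log_nonneg h1)]
  exact Real.log_le_log (by linarith) (max_le h (by norm_num))

lemma inner_F (a b : ℝ) : ∫ c, Real.log ‖1 + e a + e b + e c‖ ∂mu0 =
    Real.log (max ‖1 + e a + e b‖ 1) := by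
  have := jensen_e (1 + e a + e b) 1
  simpa using this

lemma inner_G (a b : ℝ) : ∫ c, Real.log ‖(1 + e a) + e b * (1 + e c)‖ ∂mu0 =
    Real.log (max ‖1 + e a + e b‖ 1) := by
  have := jensen_e (1 + e a + e b) (e b)
  rw [norm_e] at this
  rw [← this]
  congr 1
  ext c
  congr 2
  ring

lemma int_inner_F (a b : ℝ) : Integrable (fun c => Real.log ‖1 + e a + e b + e c‖) mu0 := by
  have := integrable_jensen (1 + e a + e b) 1
  simpa using this

lemma int_inner_G (a b : ℝ) :
    Integrable (fun c => Real.log ‖(1 + e a) + e b * (1 + e c)‖) mu0 := by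
  have := integrable_jensen (1 + e a + e b) (e b)
  refine this.congr (Eventually.of_forall fun c => ?_)
  simp only
  congr 2
  ring

lemma int_mid (a : ℝ) : Integrable (fun b => Real.log (max ‖1 + e a + e b‖ 1)) mu0 := by
  refine Integrable.of_bound (C := Real.log 3) ?_ (Eventually.of_forall fun b => ?_)
  · apply Measurable.aestronglyMeasurable
    apply Real.measurable_log.comp
    apply Continuous.measurable
    fun_prop
  · exact logmax_bounds _ (norm_three a b)

lemma int_F2 (a : ℝ) :
    Integrable (fun w : ℝ × ℝ => Real.log ‖1 + e a + e w.1 + e w.2‖) (mu0.prod mu0) := by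
  refine integrable_prod_of_le (C := Real.log 4) ?_ (Real.log_nonneg (by norm_num)) ?_
    (Eventually.of_forall fun b => int_inner_F a b) ?_
  · apply Real.measurable_log.comp
    apply Continuous.measurable
    fun_prop
  · intro w
    refine log_le_of_le (norm_nonneg _) ?_ (by norm_num)
    refine (norm_add_le _ _).trans ?_
    have := norm_three a w.1
    rw [norm_e]
    linarith
  · simp only [inner_F]
    exact int_mid a

lemma int_G2 (a : ℝ) :
    Integrable (fun w : ℝ × ℝ => Real.log ‖(1 + e a) + e w.1 * (1 + e w.2)‖)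
      (mu0.prod mu0) := by
  refine integrable_prod_of_le (C := Real.log 4) ?_ (Real.log_nonneg (by norm_num)) ?_
    (Eventually.of_forall fun b => int_inner_G a b) ?_
  · apply Real.measurable_log.comp
    apply Continuous.measurable
    fun_prop
  · intro w
    refine log_le_of_le (norm_nonneg _) ?_ (by norm_num)
    refine (norm_add_le _ _).trans ?_
    rw [norm_mul, norm_e]
    have h1 := norm_add_le 1 (e a)
    have h2 := norm_add_le 1 (e w.2)
    rw [norm_e, norm_one] at h1 h2
    linarith
  · simp only [inner_G]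
    exact int_mid a

lemma mid_F (a : ℝ) : ∫ w : ℝ × ℝ, Real.log ‖1 + e a + e w.1 + e w.2‖ ∂(mu0.prod mu0) =
    ∫ b, Real.log (max ‖1 + e a + e b‖ 1) ∂mu0 := by
  rw [integral_prod _ (int_F2 a)]
  simp only [inner_F]

lemma mid_G (a : ℝ) : ∫ b, Real.log (max ‖1 + e a + e b‖ 1) ∂mu0 =
    ∫ c, Real.log (max ‖1 + e a‖ ‖1 + e c‖) ∂mu0 := by
  have h := integral_integral_swap (f := fun b c => Real.log ‖(1 + e a) + e b * (1 + e c)‖)
    (int_G2 a)
  simp only [inner_G, jensen_e] at h
  exact h

lemma int_R3' : Integrable (fun w : ℝ × ℝ × ℝ => Real.log ‖1 + e w.1 + e w.2.1 + e w.2.2‖)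
    mu3 := by
  refine integrable_prod_of_le (C := Real.log 4) ?_ (Real.log_nonneg (by norm_num)) ?_
    (Eventually.of_forall fun a => int_F2 a) ?_
  · apply Real.measurable_log.comp
    apply Continuous.measurable
    fun_prop
  · intro w
    refine log_le_of_le (norm_nonneg _) ?_ (by norm_num)
    refine (norm_add_le _ _).trans ?_
    have := norm_three w.1 w.2.1
    rw [norm_e]
    linarith
  · refine Integrable.of_bound (C := Real.log 3) ?_ (Eventually.of_forall fun a => ?_)
    · have hm : Measurable fun w : ℝ × ℝ × ℝ => Real.log ‖1 + e w.1 + e w.2.1 + e w.2.2‖ := by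
        apply Real.measurable_log.comp
        apply Continuous.measurable
        fun_prop
      exact hm.aestronglyMeasurable.integral_prod_right'
    · simp only
      rw [mid_F a]
      refine (norm_integral_le_of_norm_le_const (C := Real.log 3)
        (Eventually.of_forall fun b => logmax_bounds _ (norm_three a b))).trans ?_
      simp

/-- reduction to two variables -/
theorem int_log_R3_two : ∫ w, Real.log ‖1 + e w.1 + e w.2.1 + e w.2.2‖ ∂mu3 =
    ∫ a in (0 : ℝ)..1, ∫ c in (0 : ℝ)..1, Real.log (max ‖1 + e a‖ ‖1 + e c‖) := by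
  have h := int_R3'
  unfold mu3 at h ⊢
  rw [integral_prod _ h, ← integral_mu0]
  congr 1
  ext a
  simp only
  rw [mid_F, mid_G, integral_mu0]

end Pool.Agent.RV.A
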