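import Pool.Agent.Work.MP_5955e5_nt.A.Smyth1

/-!
# Cell RV, block (a), step A2, second half: `∫∫ log max = 8 ∫ a log (2 sin π a)`
-/

set_option autoImplicit false

namespace Pool.Agent.RV.A

open Filter Topology MeasureTheory

/-- `log (2 sin (π a))` -/
noncomputable def gs (a : ℝ) : ℝ := Real.log (2 * Real.sin (Real.pi * a))

lemma norm_one_add_e (a : ℝ) : ‖1 + e (a + 1 / 2)‖ = 2 * |Real.sin (Real.pi * a)| := by
  have h := e_one_add ((a + 1 / 2) / 2)
  rw [show 2 * ((a + 1 / 2) / 2) = a + 1 / 2 by ring] at h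
  rw [h, norm_mul, norm_e, mul_one, Complex.norm_real, Real.norm_eq_abs, abs_mul,
    abs_of_pos (by norm_num : (0 : ℝ) < 2),
    show 2 * Real.pi * ((a + 1 / 2) / 2) = Real.pi * a + Real.pi / 2 by ring,
    Real.cos_add_pi_div_two, abs_neg]

lemma gs_int (a b : ℝ) : IntervalIntegrable gs volume a b := by
  have h1 : IntervalIntegrable (fun x => Real.log ‖2 * Real.sin (Real.pi * x)‖) volume a b :=
    MeromorphicOn.intervalIntegrable_log_norm (f := fun x : ℝ => 2 * Real.sin (Real.pi * x))
      (fun z hz ↦ by fun_prop)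
  refine h1.congr ?_
  intro x _
  simp only [Real.norm_eq_abs, Real.log_abs]
  rfl

/-- halving a symmetric integral -/
lemma half_int {f : ℝ → ℝ} (hf : ∀ x, f (1 - x) = f x)
    (hi : IntervalIntegrable f volume 0 (1 / 2)) :
    ∫ x in (0 : ℝ)..1, f x = 2 * ∫ x in (0 : ℝ)..(1 / 2), f x := by
  have h1 : ∫ x in (1 / 2 : ℝ)..1, f x = ∫ x in (0 : ℝ)..(1 / 2), f x := by
    have := intervalIntegral.integral_comp_sub_left f (1 : ℝ) (a := 0) (b := 1 / 2)
    simp only [hf] at this
    rw [this]
    norm_num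
  have h2 : IntervalIntegrable f volume (1 / 2) 1 := by
    have := (hi.comp_sub_left 1).symm
    simp only [hf] at this
    norm_num at this
    exact this
  rw [← intervalIntegral.integral_add_adjacent_intervals hi h2, h1]
  ring

lemma sin_pos' {a : ℝ} (h0 : 0 < a) (h1 : a < 1) : 0 < Real.sin (Real.pi * a) := by
  apply Real.sin_pos_of_pos_of_lt_pi
  · have := Real.pi_pos; positivity
  · have := Real.pi_pos; nlinarith

lemma sin_mono' {a c : ℝ} (h0 : 0 ≤ a) (hac : a ≤ c) (h1 : c ≤ 1 / 2) :
    Real.sin (Real.pi * a) ≤ Real.sin (Real.pi * c) := by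
  have := Real.pi_pos
  apply Real.sin_le_sin_of_le_of_le_pi_div_two
  · nlinarith
  · nlinarith
  · nlinarith

/-- the inner integral -/
noncomputable def Is (a : ℝ) : ℝ :=
  ∫ c in (0 : ℝ)..1, Real.log (max (2 * |Real.sin (Real.pi * a)|) (2 * |Real.sin (Real.pi * c)|))

lemma Is_symm (a : ℝ) : Is (1 - a) = Is a := by
  unfold Is
  rw [show Real.pi * (1 - a) = Real.pi - Real.pi * a by ring, Real.sin_pi_sub]

lemma Is_eq {a : ℝ} (h0 : 0 < a) (h1 : a ≤ 1 / 2) :
    Is a = 2 * (a * gs a + ∫ c in a..(1 / 2), gs c) := by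
  have hsa : 0 < Real.sin (Real.pi * a) := sin_pos' h0 (by linarith)
  have hcont : Continuous fun c : ℝ =>
      Real.log (max (2 * |Real.sin (Real.pi * a)|) (2 * |Real.sin (Real.pi * c)|)) := by
    refine Continuous.log (by fun_prop) ?_
    intro c
    have : 0 < 2 * |Real.sin (Real.pi * a)| := by positivity
    exact (lt_of_lt_of_le this (le_max_left _ _)).ne'
  unfold Is
  rw [half_int (f := fun c : ℝ =>
      Real.log (max (2 * |Real.sin (Real.pi * a)|) (2 * |Real.sin (Real.pi * c)|))) ?_
      (hcont.intervalIntegrable _ _)]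
  · congr 1
    rw [← intervalIntegral.integral_add_adjacent_intervals (b := a)
      (hcont.intervalIntegrable _ _) (hcont.intervalIntegrable _ _)]
    congr 1
    · have : ∫ c in (0 : ℝ)..a, Real.log (max (2 * |Real.sin (Real.pi * a)|)
          (2 * |Real.sin (Real.pi * c)|)) = ∫ c in (0 : ℝ)..a, gs a := by
        apply intervalIntegral.integral_congr
        intro c hc
        rw [Set.uIcc_of_le h0.le] at hc
        simp only
        rw [max_eq_left, abs_of_pos hsa]
        · rfl
        · rw [abs_of_pos hsa, abs_of_nonneg]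
          · have := sin_mono' hc.1 hc.2 h1
            linarith
          · have := sin_mono' le_rfl hc.1 (hc.2.trans h1)
            simpa using this
      rw [this]
      simp
    · apply intervalIntegral.integral_congr
      intro c hc
      rw [Set.uIcc_of_le h1] at hc
      simp only
      have h3 := sin_mono' h0.le hc.1 hc.2
      rw [max_eq_right, abs_of_nonneg (hsa.le.trans h3)]
      · rfl
      · rw [abs_of_pos hsa, abs_of_nonneg (hsa.le.trans h3)]
        linarith
  · intro c
    rw [show Real.pi * (1 - c) = Real.pi - Real.pi * c by ring, Real.sin_pi_sub]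

/-- `∫_a^{1/2} gs` -/
noncomputable def Kg (a : ℝ) : ℝ := ∫ c in a..(1 / 2), gs c

lemma Kg_cont : Continuous Kg := by
  have h := intervalIntegral.continuous_primitive (fun a b => gs_int a b) (1 / 2)
  have : Kg = fun a => -∫ c in (1 / 2)..a, gs c := by
    ext a
    unfold Kg
    rw [intervalIntegral.integral_symm]
  rw [this]
  exact h.neg

lemma Kg_deriv {a : ℝ} (h0 : 0 < a) (h1 : a < 1) : HasDerivAt Kg (-gs a) a := by
  have hc : ContinuousAt gs a := by
    unfold gs
    refine ContinuousAt.log (by fun_prop) ?_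
    have := sin_pos' h0 h1
    positivity
  have hm : StronglyMeasurableAtFilter gs (𝓝 a) volume := by
    have : Measurable gs := by
      unfold gs
      exact Real.measurable_log.comp (by fun_prop)
    exact this.stronglyMeasurable.stronglyMeasurableAtFilter
  exact intervalIntegral.integral_hasDerivAt_left (gs_int _ _) hm hc

lemma a_gs_int (a b : ℝ) : IntervalIntegrable (fun x => x * gs x) volume a b :=
  (gs_int a b).continuousOn_mul continuousOn_id

lemma parts : ∫ a in (0 : ℝ)..(1 / 2), Kg a = ∫ a in (0 : ℝ)..(1 / 2), a * gs a := by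
  have h := intervalIntegral.integral_eq_sub_of_hasDerivAt_of_le (a := 0) (b := 1 / 2)
    (f := fun a => a * Kg a) (f' := fun a => Kg a - a * gs a) (by norm_num)
    (by have := Kg_cont; fun_prop) ?_ ?_
  · rw [intervalIntegral.integral_sub (Kg_cont.intervalIntegrable _ _) (a_gs_int _ _)] at h
    have h0 : Kg (1 / 2) = 0 := by
      unfold Kg
      simp
    rw [h0] at h
    linarith
  · intro x hx
    have h5 : HasDerivAt (fun a => a * Kg a) (1 * Kg x + x * (-gs x)) x :=
      (hasDerivAt_id x).mul (Kg_deriv hx.1 (by linarith [hx.2]))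
    have h6 : Kg x - x * gs x = 1 * Kg x + x * (-gs x) := by ring
    rw [h6]
    exact h5
  · exact (Kg_cont.intervalIntegrable _ _).sub (a_gs_int _ _)

lemma Is_int : IntervalIntegrable Is volume 0 (1 / 2) := by
  have h1 : IntervalIntegrable (fun a => 2 * (a * gs a + Kg a)) volume 0 (1 / 2) :=
    ((a_gs_int _ _).add (Kg_cont.intervalIntegrable _ _)).const_mul 2
  refine h1.congr ?_
  intro a ha
  rw [Set.uIoc_of_le (by norm_num)] at ha
  exact (Is_eq ha.1 ha.2).symm

lemma int_Is : ∫ a in (0 : ℝ)..1, Is a = 8 * ∫ a in (0 : ℝ)..(1 / 2), a * gs a := by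
  rw [half_int Is_symm Is_int]
  have h1 : ∫ a in (0 : ℝ)..(1 / 2), Is a =
      ∫ a in (0 : ℝ)..(1 / 2), 2 * (a * gs a + Kg a) := by
    apply intervalIntegral.integral_congr_ae
    refine Eventually.of_forall fun a ha => ?_
    rw [Set.uIoc_of_le (by norm_num)] at ha
    exact Is_eq ha.1 ha.2
  rw [h1, intervalIntegral.integral_const_mul,
    intervalIntegral.integral_add (a_gs_int _ _) (Kg_cont.intervalIntegrable _ _), parts]
  ring

theorem int_log_R3_one : ∫ w, Real.log ‖1 + e w.1 + e w.2.1 + e w.2.2‖ ∂mu3 =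
    8 * ∫ a in (0 : ℝ)..(1 / 2), a * gs a := by
  rw [int_log_R3_two, ← int_Is]
  have hp : ∀ x : ℝ, Function.Periodic (fun c : ℝ => Real.log (max x ‖1 + e c‖)) 1 := by
    intro x c
    simp only
    rw [e_periodic]
  have hp2 : Function.Periodic
      (fun a : ℝ => ∫ c in (0 : ℝ)..1, Real.log (max ‖1 + e a‖ ‖1 + e c‖)) 1 := by
    intro a
    simp only
    rw [e_periodic]
  rw [← circle_shift' hp2 (1 / 2)]
  congr 1
  ext a
  rw [← circle_shift' (hp _) (1 / 2)]
  simp only [norm_one_add_e]
  rfl

end Pool.Agent.RV.A
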