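import Mathlib

set_option autoImplicit false

namespace Pool.Agent.RV.A

/-- theta constants for a real nome; `ps r = 2 psi (r ^ 2)` -/
noncomputable def th3 (r : ℝ) : ℝ := ∑' n : ℤ, r ^ (n ^ 2)

noncomputable def th4 (r : ℝ) : ℝ := ∑' n : ℤ, (-1) ^ n * r ^ (n ^ 2)

noncomputable def ps (r : ℝ) : ℝ := ∑' n : ℤ, r ^ (n * (n + 1))

lemma summable_abs {r : ℝ} (h0 : 0 < r) (h1 : r < 1) : Summable fun n : ℤ => r ^ |n| := by
  have hg := summable_geometric_of_lt_one h0.le h1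
  apply Summable.of_nat_of_neg
  · simpa using hg
  · simpa using hg

lemma summable_zpow {r : ℝ} (h0 : 0 < r) (h1 : r < 1) (f : ℤ → ℤ) (C : ℤ)
    (h : ∀ n, |n| - C ≤ f n) : Summable fun n : ℤ => r ^ f n := by
  have hs := (summable_abs h0 h1).mul_right (r ^ (-C))
  refine Summable.of_nonneg_of_le (fun n => by positivity) (fun n => ?_) hs
  rw [← zpow_add₀ h0.ne']
  exact zpow_le_zpow_right_of_le_one₀ h0 h1.le (h n)

lemma abs_le_sq (n : ℤ) : |n| - 0 ≤ n ^ 2 := by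
  rw [sub_zero]
  rcases abs_cases n with ⟨h, _⟩ | ⟨h, _⟩ <;> rw [h] <;> nlinarith

lemma abs_le_pronic (n : ℤ) : |n| - 1 ≤ n * (n + 1) := by
  rcases abs_cases n with ⟨h, _⟩ | ⟨h, _⟩ <;> rw [h] <;> nlinarith

lemma summable_sq {r : ℝ} (h0 : 0 < r) (h1 : r < 1) : Summable fun n : ℤ => r ^ (n ^ 2) :=
  summable_zpow h0 h1 _ 0 abs_le_sq

lemma summable_pronic {r : ℝ} (h0 : 0 < r) (h1 : r < 1) :
    Summable fun n : ℤ => r ^ (n * (n + 1)) :=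
  summable_zpow h0 h1 _ 1 abs_le_pronic

lemma abs_neg_one_zpow (n : ℤ) : |(-1 : ℝ) ^ n| = 1 := by
  rw [abs_zpow]; simp

lemma summable_signed {r : ℝ} {f : ℤ → ℤ} (h0 : 0 < r) (h : Summable fun n : ℤ => r ^ f n) :
    Summable fun n : ℤ => (-1) ^ n * r ^ f n := by
  apply Summable.of_norm
  refine h.congr fun n => ?_
  rw [norm_mul, Real.norm_eq_abs, Real.norm_eq_abs, abs_neg_one_zpow, one_mul,
    abs_of_pos (by positivity)]

lemma tsum_mul {f g : ℤ → ℝ} (hf : Summable f) (hg : Summable g) :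
    (∑' m, f m) * (∑' n, g n) = ∑' p : ℤ × ℤ, f p.1 * g p.2 ∧
      Summable fun p : ℤ × ℤ => f p.1 * g p.2 := by
  have hs : Summable fun p : ℤ × ℤ => f p.1 * g p.2 :=
    summable_mul_of_summable_norm hf.norm hg.norm
  exact ⟨hf.tsum_mul_tsum hg hs, hs⟩

/-- parity equivalence of `ℤ × ℤ` -/
def parity : (ℤ × ℤ) ⊕ (ℤ × ℤ) ≃ ℤ × ℤ where
  toFun := fun p => match p with
    | Sum.inl (u, v) => (u + v, u - v)
    | Sum.inr (u, v) => (u + v + 1, u - v)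
  invFun := fun p => if (p.1 + p.2) % 2 = 0 then Sum.inl ((p.1 + p.2) / 2, (p.1 - p.2) / 2)
    else Sum.inr ((p.1 + p.2 - 1) / 2, (p.1 - p.2 - 1) / 2)
  left_inv := by
    rintro (⟨u, v⟩ | ⟨u, v⟩)
    · simp only
      rw [if_pos (by omega)]
      congr 2 <;> omega
    · simp only
      rw [if_neg (by omega)]
      congr 2 <;> omega
  right_inv := by
    rintro ⟨m, n⟩
    simp only
    by_cases h : (m + n) % 2 = 0
    · rw [if_pos h]
      simp only [Prod.mk.injEq]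
      constructor <;> omega
    · rw [if_neg h]
      simp only [Prod.mk.injEq]
      constructor <;> omega

lemma parity_split {F : ℤ × ℤ → ℝ} (hF : Summable F) :
    ∑' p, F p = (∑' p : ℤ × ℤ, F (p.1 + p.2, p.1 - p.2)) +
      ∑' p : ℤ × ℤ, F (p.1 + p.2 + 1, p.1 - p.2) := by
  rw [← parity.tsum_eq F]
  have hs : Summable fun x => F (parity x) := (Equiv.summable_iff parity).mpr hF
  exact Summable.tsum_sum (hs.comp_injective Sum.inl_injective)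
    (hs.comp_injective Sum.inr_injective)

lemma neg_one_zpow_add_sub (u v : ℤ) : (-1 : ℝ) ^ (u + v) * (-1) ^ (u - v) = 1 := by
  rw [← zpow_add₀ (by norm_num)]
  rw [show u + v + (u - v) = 2 * u by ring, zpow_mul]
  norm_num

lemma neg_one_zpow_sub (u v : ℤ) : (-1 : ℝ) ^ (u - v) = (-1) ^ u * (-1) ^ v := by
  rw [zpow_sub₀ (by norm_num), div_eq_mul_inv, ← inv_zpow]
  norm_num

section
variable {r : ℝ} (h0 : 0 < r) (h1 : r < 1)
include h0 h1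

lemma r2_lt : r ^ 2 < 1 := pow_lt_one₀ h0.le h1 two_ne_zero

lemma even33 : ∑' p : ℤ × ℤ, r ^ ((p.1 + p.2) ^ 2) * r ^ ((p.1 - p.2) ^ 2) = th3 (r ^ 2) ^ 2 := by
  have h := (tsum_mul (summable_sq (pow_pos h0 2) (r2_lt h0 h1))
    (summable_sq (pow_pos h0 2) (r2_lt h0 h1))).1
  unfold th3
  rw [sq (∑' n : ℤ, _), h]
  congr 1
  ext p
  rw [← zpow_natCast r 2, ← zpow_mul, ← zpow_mul, ← zpow_add₀ h0.ne', ← zpow_add₀ h0.ne']
  congr 1
  push_cast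
  ring

lemma odd33 : ∑' p : ℤ × ℤ, r ^ ((p.1 + p.2 + 1) ^ 2) * r ^ ((p.1 - p.2) ^ 2) =
    r * ps (r ^ 2) ^ 2 := by
  have h := (tsum_mul (summable_pronic (pow_pos h0 2) (r2_lt h0 h1))
    (summable_pronic (pow_pos h0 2) (r2_lt h0 h1))).1
  unfold ps
  rw [sq (∑' n : ℤ, _), h, ← tsum_mul_left]
  congr 1
  ext p
  nth_rw 3 [← zpow_one r]
  rw [← zpow_natCast r 2, ← zpow_mul, ← zpow_mul, ← zpow_add₀ h0.ne', ← zpow_add₀ h0.ne',
    ← zpow_add₀ h0.ne']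
  congr 1
  push_cast
  ring

lemma th3_sq : th3 r ^ 2 = th3 (r ^ 2) ^ 2 + r * ps (r ^ 2) ^ 2 := by
  obtain ⟨h, hs⟩ := tsum_mul (summable_sq h0 h1) (summable_sq h0 h1)
  rw [← even33 h0 h1, ← odd33 h0 h1]
  rw [sq (th3 r)]
  unfold th3
  rw [h, parity_split hs]

lemma th4_sq : th4 r ^ 2 = th3 (r ^ 2) ^ 2 - r * ps (r ^ 2) ^ 2 := by
  obtain ⟨h, hs⟩ := tsum_mul (summable_signed h0 (summable_sq h0 h1))
    (summable_signed h0 (summable_sq h0 h1))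
  rw [← even33 h0 h1, ← odd33 h0 h1]
  rw [sq (th4 r)]
  unfold th4
  rw [h, parity_split hs, sub_eq_add_neg, ← tsum_neg]
  congr 1
  · congr 1
    ext p
    have := neg_one_zpow_add_sub p.1 p.2
    calc _ = ((-1 : ℝ) ^ (p.1 + p.2) * (-1) ^ (p.1 - p.2)) *
          (r ^ ((p.1 + p.2) ^ 2) * r ^ ((p.1 - p.2) ^ 2)) := by ring
      _ = _ := by rw [this, one_mul]
  · congr 1
    ext p
    have := neg_one_zpow_add_sub p.1 p.2
    calc _ = -((-1 : ℝ) ^ (p.1 + p.2) * (-1) ^ (p.1 - p.2)) *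
          (r ^ ((p.1 + p.2 + 1) ^ 2) * r ^ ((p.1 - p.2) ^ 2)) := by
            rw [zpow_add₀ (by norm_num) (p.1 + p.2) 1]; ring
      _ = _ := by rw [this]; ring

lemma th3_mul_th4 : th3 r * th4 r = th4 (r ^ 2) ^ 2 := by
  obtain ⟨h, hs⟩ := tsum_mul (summable_sq h0 h1) (summable_signed h0 (summable_sq h0 h1))
  have h2 := (tsum_mul (summable_signed (pow_pos h0 2) (summable_sq (pow_pos h0 2) (r2_lt h0 h1)))
    (summable_signed (pow_pos h0 2) (summable_sq (pow_pos h0 2) (r2_lt h0 h1)))).1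
  have h3 := (tsum_mul (summable_signed (pow_pos h0 2)
      (summable_pronic (pow_pos h0 2) (r2_lt h0 h1)))
    (summable_signed (pow_pos h0 2) (summable_pronic (pow_pos h0 2) (r2_lt h0 h1)))).1
  have hz : ∑' n : ℤ, (-1 : ℝ) ^ n * (r ^ 2) ^ (n * (n + 1)) = 0 := by
    have hrefl : ∑' n : ℤ, (-1 : ℝ) ^ n * (r ^ 2) ^ (n * (n + 1)) =
        ∑' n : ℤ, -((-1 : ℝ) ^ n * (r ^ 2) ^ (n * (n + 1))) := by
      rw [← (Equiv.subLeft (-1 : ℤ)).tsum_eq]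
      congr 1
      ext n
      simp only [Equiv.subLeft_apply]
      rw [neg_one_zpow_sub, show (-1 - n) * (-1 - n + 1) = n * (n + 1) by ring]
      norm_num
    rw [tsum_neg] at hrefl
    linarith
  unfold th3 th4
  rw [h, parity_split hs, sq (∑' n : ℤ, _), h2]
  have hodd : ∑' p : ℤ × ℤ, r ^ ((p.1 + p.2 + 1) ^ 2) *
      ((-1) ^ (p.1 - p.2) * r ^ ((p.1 - p.2) ^ 2)) = 0 := by
    rw [hz, mul_zero] at h3
    have : r * ∑' p : ℤ × ℤ, (-1 : ℝ) ^ p.1 * (r ^ 2) ^ (p.1 * (p.1 + 1)) *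
        ((-1) ^ p.2 * (r ^ 2) ^ (p.2 * (p.2 + 1))) = 0 := by
      rw [← h3, mul_zero]
    rw [← tsum_mul_left] at this
    rw [← this]
    congr 1
    ext p
    rw [neg_one_zpow_sub]
    have e : r ^ ((p.1 + p.2 + 1) ^ 2) * r ^ ((p.1 - p.2) ^ 2) =
        r * ((r ^ 2) ^ (p.1 * (p.1 + 1)) * (r ^ 2) ^ (p.2 * (p.2 + 1))) := by
      nth_rw 3 [← zpow_one r]
      rw [← zpow_natCast r 2, ← zpow_mul, ← zpow_mul, ← zpow_add₀ h0.ne', ← zpow_add₀ h0.ne',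
        ← zpow_add₀ h0.ne']
      congr 1
      push_cast
      ring
    calc _ = (-1) ^ p.1 * (-1) ^ p.2 * (r ^ ((p.1 + p.2 + 1) ^ 2) * r ^ ((p.1 - p.2) ^ 2)) := by
          ring
      _ = _ := by rw [e]; ring
  rw [hodd, add_zero]
  congr 1
  ext p
  rw [neg_one_zpow_sub]
  have e : r ^ ((p.1 + p.2) ^ 2) * r ^ ((p.1 - p.2) ^ 2) =
      (r ^ 2) ^ (p.1 ^ 2) * (r ^ 2) ^ (p.2 ^ 2) := by
    rw [← zpow_natCast r 2, ← zpow_mul, ← zpow_mul, ← zpow_add₀ h0.ne', ← zpow_add₀ h0.ne']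
    congr 1
    push_cast
    ring
  calc _ = (-1) ^ p.1 * (-1) ^ p.2 * (r ^ ((p.1 + p.2) ^ 2) * r ^ ((p.1 - p.2) ^ 2)) := by
        ring
    _ = _ := by rw [e]; ring

lemma ps_sq : ps r ^ 2 = 2 * ps (r ^ 2) * th3 (r ^ 2) := by
  obtain ⟨h, hs⟩ := tsum_mul (summable_pronic h0 h1) (summable_pronic h0 h1)
  have h2 := (tsum_mul (summable_pronic (pow_pos h0 2) (r2_lt h0 h1))
    (summable_sq (pow_pos h0 2) (r2_lt h0 h1))).1
  have h3 := (tsum_mul (summable_sq (pow_pos h0 2) (r2_lt h0 h1))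
    (summable_pronic (pow_pos h0 2) (r2_lt h0 h1))).1
  have hshift : ∑' n : ℤ, (r ^ 2) ^ ((n + 1) ^ 2) = th3 (r ^ 2) := by
    unfold th3
    exact (Equiv.addRight (1 : ℤ)).tsum_eq (fun n : ℤ => (r ^ 2) ^ (n ^ 2))
  have hss : Summable fun n : ℤ => (r ^ 2) ^ ((n + 1) ^ 2) :=
    (Equiv.summable_iff (Equiv.addRight (1 : ℤ))).mpr (summable_sq (pow_pos h0 2) (r2_lt h0 h1))
  have h4 := (tsum_mul hss (summable_pronic (pow_pos h0 2) (r2_lt h0 h1))).1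
  rw [sq (ps r)]
  have e0 : ps r * ps r = (∑' m : ℤ, r ^ (m * (m + 1))) * (∑' n : ℤ, r ^ (n * (n + 1))) := rfl
  rw [e0, h, parity_split hs]
  have e1 : ∑' p : ℤ × ℤ, r ^ ((p.1 + p.2) * (p.1 + p.2 + 1)) *
      r ^ ((p.1 - p.2) * (p.1 - p.2 + 1)) = ps (r ^ 2) * th3 (r ^ 2) := by
    unfold ps th3
    rw [h2]
    congr 1
    ext p
    rw [← zpow_natCast r 2, ← zpow_mul, ← zpow_mul, ← zpow_add₀ h0.ne', ← zpow_add₀ h0.ne']
    congr 1
    push_cast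
    ring
  have e2 : ∑' p : ℤ × ℤ, r ^ ((p.1 + p.2 + 1) * (p.1 + p.2 + 1 + 1)) *
      r ^ ((p.1 - p.2) * (p.1 - p.2 + 1)) = th3 (r ^ 2) * ps (r ^ 2) := by
    rw [← hshift]
    unfold ps
    rw [h4]
    congr 1
    ext p
    rw [← zpow_natCast r 2, ← zpow_mul, ← zpow_mul, ← zpow_add₀ h0.ne', ← zpow_add₀ h0.ne']
    congr 1
    push_cast
    ring
  rw [e1, e2]
  ring

/-- the cubic relation -/
lemma cubic : th3 r * th3 (r ^ 3) - th4 r * th4 (r ^ 3) = r * ps r * ps (r ^ 3) := by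
  have h30 : 0 < r ^ 3 := pow_pos h0 3
  have h31 : r ^ 3 < 1 := pow_lt_one₀ h0.le h1 three_ne_zero
  obtain ⟨h, hs⟩ := tsum_mul (summable_sq h0 h1) (summable_sq h30 h31)
  obtain ⟨h', hs'⟩ := tsum_mul (summable_signed h0 (summable_sq h0 h1))
    (summable_signed h30 (summable_sq h30 h31))
  obtain ⟨h'', hs''⟩ := tsum_mul (summable_pronic h0 h1) (summable_pronic h30 h31)
  have e0 : th3 r * th3 (r ^ 3) = (∑' m : ℤ, r ^ (m ^ 2)) * (∑' n : ℤ, (r ^ 3) ^ (n ^ 2)) := rfl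
  have e0' : th4 r * th4 (r ^ 3) = (∑' m : ℤ, (-1) ^ m * r ^ (m ^ 2)) *
    (∑' n : ℤ, (-1) ^ n * (r ^ 3) ^ (n ^ 2)) := rfl
  have e0'' : r * ps r * ps (r ^ 3) = r * ((∑' m : ℤ, r ^ (m * (m + 1))) *
    (∑' n : ℤ, (r ^ 3) ^ (n * (n + 1)))) := by unfold ps; ring
  rw [e0, e0', e0'', h, h', h'', parity_split hs, parity_split hs', parity_split hs'']
  set A := ∑' p : ℤ × ℤ, r ^ ((p.1 + p.2) ^ 2) * (r ^ 3) ^ ((p.1 - p.2) ^ 2) with hA
  set B := ∑' p : ℤ × ℤ, r ^ ((p.1 + p.2 + 1) ^ 2) * (r ^ 3) ^ ((p.1 - p.2) ^ 2) with hB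
  have i1 : ∑' p : ℤ × ℤ, (-1) ^ (p.1 + p.2) * r ^ ((p.1 + p.2) ^ 2) *
      ((-1) ^ (p.1 - p.2) * (r ^ 3) ^ ((p.1 - p.2) ^ 2)) = A := by
    rw [hA]
    congr 1
    ext p
    have := neg_one_zpow_add_sub p.1 p.2
    calc _ = ((-1 : ℝ) ^ (p.1 + p.2) * (-1) ^ (p.1 - p.2)) *
          (r ^ ((p.1 + p.2) ^ 2) * (r ^ 3) ^ ((p.1 - p.2) ^ 2)) := by ring
      _ = _ := by rw [this, one_mul]
  have i2 : ∑' p : ℤ × ℤ, (-1) ^ (p.1 + p.2 + 1) * r ^ ((p.1 + p.2 + 1) ^ 2) *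
      ((-1) ^ (p.1 - p.2) * (r ^ 3) ^ ((p.1 - p.2) ^ 2)) = -B := by
    rw [hB, ← tsum_neg]
    congr 1
    ext p
    have := neg_one_zpow_add_sub p.1 p.2
    calc _ = -((-1 : ℝ) ^ (p.1 + p.2) * (-1) ^ (p.1 - p.2)) *
          (r ^ ((p.1 + p.2 + 1) ^ 2) * (r ^ 3) ^ ((p.1 - p.2) ^ 2)) := by
            rw [zpow_add₀ (by norm_num) (p.1 + p.2) 1]; ring
      _ = _ := by rw [this]; ring
  have key : ∀ s t : ℤ, r * (r ^ ((s + t) * (s + t + 1)) *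
      (r ^ 3) ^ ((s - t) * (s - t + 1))) =
      r ^ ((s + (s - t) + 1) ^ 2) * (r ^ 3) ^ ((s - (s - t)) ^ 2) := by
    intro s t
    nth_rw 1 [← zpow_one r]
    rw [← zpow_natCast r 3, ← zpow_mul, ← zpow_mul, ← zpow_add₀ h0.ne', ← zpow_add₀ h0.ne',
      ← zpow_add₀ h0.ne']
    congr 1
    push_cast
    ring
  have i3 : r * ∑' p : ℤ × ℤ, r ^ ((p.1 + p.2) * (p.1 + p.2 + 1)) *
      (r ^ 3) ^ ((p.1 - p.2) * (p.1 - p.2 + 1)) = B := by
    rw [hB, ← tsum_mul_left]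
    let φ : ℤ × ℤ ≃ ℤ × ℤ :=
      { toFun := fun p => (p.1, p.1 - p.2)
        invFun := fun p => (p.1, p.1 - p.2)
        left_inv := fun p => by ext <;> simp
        right_inv := fun p => by ext <;> simp }
    rw [← φ.tsum_eq (fun p : ℤ × ℤ => r ^ ((p.1 + p.2 + 1) ^ 2) *
      (r ^ 3) ^ ((p.1 - p.2) ^ 2))]
    congr 1
    ext p
    exact key p.1 p.2
  have i4 : r * ∑' p : ℤ × ℤ, r ^ ((p.1 + p.2 + 1) * (p.1 + p.2 + 1 + 1)) *
      (r ^ 3) ^ ((p.1 - p.2) * (p.1 - p.2 + 1)) = B := by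
    rw [← i3]
    congr 1
    let φ : ℤ × ℤ ≃ ℤ × ℤ :=
      { toFun := fun p => (-p.2 - 1, -p.1 - 1)
        invFun := fun p => (-p.2 - 1, -p.1 - 1)
        left_inv := fun p => by ext <;> simp
        right_inv := fun p => by ext <;> simp }
    rw [← φ.tsum_eq (fun p : ℤ × ℤ => r ^ ((p.1 + p.2) * (p.1 + p.2 + 1)) *
      (r ^ 3) ^ ((p.1 - p.2) * (p.1 - p.2 + 1)))]
    congr 1
    ext p
    simp only [φ, Equiv.coe_fn_mk]
    congr 2 <;> ring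
  rw [i1, i2, mul_add, i3, i4]
  ring

lemma th3_ge_one : 1 ≤ th3 r := by
  have h := (summable_sq h0 h1).sum_le_tsum {(0 : ℤ)} (fun n _ => by positivity)
  unfold th3
  simpa using h

lemma ps_pos : 0 < ps r := by
  have h := (summable_pronic h0 h1).sum_le_tsum {(0 : ℤ)} (fun n _ => by positivity)
  have : (1 : ℝ) ≤ ps r := by
    unfold ps
    simpa using h
  linarith

lemma th3_le : th3 r ≤ 1 + 2 * r / (1 - r) := by
  have h2 : ∑' n : ℤ, r ^ |n| = 1 + 2 * r / (1 - r) := by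
    have hg := hasSum_geometric_of_lt_one h0.le h1
    have h3 : HasSum (fun n : ℕ => r ^ |((n : ℤ))|) (1 - r)⁻¹ := by simpa using hg
    have h4 : HasSum (fun n : ℕ => r ^ |(-((n : ℤ) + 1))|) (r * (1 - r)⁻¹) := by
      have hfun : (fun n : ℕ => r ^ |(-((n : ℤ) + 1))|) = fun n : ℕ => r * r ^ n := by
        ext n
        rw [abs_neg, abs_of_nonneg (by positivity), zpow_add_one₀ h0.ne', zpow_natCast, mul_comm]
      rw [hfun]
      exact hg.mul_left r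
    have h5 := HasSum.of_nat_of_neg_add_one (f := fun n : ℤ => r ^ |n|) h3 h4
    rw [h5.tsum_eq]
    have : 1 - r ≠ 0 := by linarith
    field_simp
    ring
  rw [← h2]
  refine (summable_sq h0 h1).tsum_le_tsum (fun n => ?_) (summable_abs h0 h1)
  have := abs_le_sq n
  rw [sub_zero] at this
  exact zpow_le_zpow_right_of_le_one₀ h0 h1.le this

end

end Pool.Agent.RV.A
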