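import Pool.Agent.Work.MP_5955e5_nt.A.Walk
import Pool.Agent.Work.MP_5955e5_nt.A.Theta

set_option autoImplicit false
set_option linter.unusedSectionVars false

namespace Pool.Agent.RV.A

open Filter Topology Real

section
variable {r : ℝ} (h0 : 0 < r) (h1 : r < 1)
include h0 h1

lemma iter_pos (n : ℕ) : 0 < r ^ (2 ^ n) := pow_pos h0 _

lemma iter_lt (n : ℕ) : r ^ (2 ^ n) < 1 := pow_lt_one₀ h0.le h1 (by positivity)

lemma iter_tendsto : Tendsto (fun n : ℕ => r ^ (2 ^ n)) atTop (𝓝 0) :=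
  (tendsto_pow_atTop_nhds_zero_of_lt_one h0.le h1).comp
    (tendsto_pow_atTop_atTop_of_one_lt one_lt_two)

lemma th3_iter : Tendsto (fun n : ℕ => th3 (r ^ (2 ^ n))) atTop (𝓝 1) := by
  have hu : Tendsto (fun n : ℕ => 1 + 2 * (r ^ (2 ^ n)) / (1 - r ^ (2 ^ n))) atTop
      (𝓝 (1 + 2 * 0 / (1 - 0))) := by
    have := iter_tendsto h0 h1
    apply Tendsto.const_add
    apply Tendsto.div (this.const_mul 2) (this.const_sub 1)
    norm_num
  have h2 : (1 : ℝ) + 2 * 0 / (1 - 0) = 1 := by norm_num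
  rw [h2] at hu
  exact tendsto_of_tendsto_of_tendsto_of_le_of_le tendsto_const_nhds hu
    (fun n => th3_ge_one (iter_pos h0 h1 n) (iter_lt h0 h1 n))
    (fun n => th3_le (iter_pos h0 h1 n) (iter_lt h0 h1 n))

lemma th4_nonneg : 0 ≤ th4 r := by
  have h := th3_mul_th4 h0 h1
  have h3 := th3_ge_one h0 h1
  have : 0 ≤ th3 r * th4 r := by rw [h]; positivity
  nlinarith

lemma th4_sq' : th4 r ^ 2 = 2 * th3 (r ^ 2) ^ 2 - th3 r ^ 2 := by
  have h2 := th3_sq h0 h1
  have h3 := th4_sq h0 h1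
  linarith

lemma iter_succ (n : ℕ) : r ^ (2 ^ (n + 1)) = (r ^ (2 ^ n)) ^ 2 := by
  rw [← pow_mul, pow_succ]

lemma th4_iter_sq : Tendsto (fun n : ℕ => th4 (r ^ (2 ^ n)) ^ 2) atTop (𝓝 1) := by
  have h := th3_iter h0 h1
  have h2 := h.comp (tendsto_add_atTop_nat 1)
  have h3 : Tendsto (fun n : ℕ => 2 * th3 (r ^ (2 ^ (n + 1))) ^ 2 - th3 (r ^ (2 ^ n)) ^ 2) atTop
      (𝓝 (2 * 1 ^ 2 - 1 ^ 2)) := ((h2.pow 2).const_mul 2).sub (h.pow 2)
  norm_num at h3
  refine h3.congr fun n => ?_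
  rw [th4_sq' (iter_pos h0 h1 n) (iter_lt h0 h1 n), iter_succ h0 h1]

lemma th4_pos : 0 < th4 r := by
  rcases (th4_nonneg h0 h1).lt_or_eq with h | h
  · exact h
  · exfalso
    have hz : ∀ n : ℕ, th4 (r ^ (2 ^ n)) = 0 := by
      intro n
      induction n with
      | zero => simpa using h.symm
      | succ n ih =>
        have h2 := th3_mul_th4 (iter_pos h0 h1 n) (iter_lt h0 h1 n)
        rw [ih, mul_zero, ← iter_succ h0 h1] at h2
        exact pow_eq_zero_iff two_ne_zero |>.mp h2.symm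
    have h3 := th4_iter_sq h0 h1
    simp_rw [hz] at h3
    have h4 := tendsto_nhds_unique h3 tendsto_const_nhds
    norm_num at h4

lemma th4_le_th3 : th4 r ^ 2 ≤ th3 r ^ 2 := by
  have h2 := th3_sq h0 h1
  have h3 := th4_sq h0 h1
  have h4 := ps_pos (pow_pos h0 2) (r2_lt h0 h1)
  nlinarith [mul_pos h0 (pow_pos h4 2)]

/-- Jacobi's quartic identity -/
lemma jacobi4 : th3 r ^ 4 - th4 r ^ 4 = r * ps r ^ 4 := by
  have h2 := th3_sq h0 h1
  have h3 := th4_sq h0 h1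
  have h4 := ps_sq h0 h1
  have e1 : th3 r ^ 4 - th4 r ^ 4 = (th3 r ^ 2) ^ 2 - (th4 r ^ 2) ^ 2 := by ring
  have e2 : ps r ^ 4 = (ps r ^ 2) ^ 2 := by ring
  rw [e1, e2, h2, h3, h4]
  ring

end

lemma M_mono {a b c : ℝ} (hb : 0 < b) (hab : b ≤ a) (hc : 0 < c) : M a c ≤ M b c := by
  have ha : 0 < a := lt_of_lt_of_le hb hab
  unfold M
  have hpi := Real.pi_pos
  apply mul_le_mul_of_nonneg_left _ (by positivity)
  have hi : ∀ {x : ℝ}, 0 < x →
      MeasureTheory.Integrable fun y : ℝ => 1 / √((x ^ 2 + y ^ 2) * (c ^ 2 + y ^ 2)) := by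
    intro x hx
    have := integrable_quad (P := x ^ 2) (Q := 1) (R := c ^ 2) (S := 1) (by positivity) one_pos
      (by positivity) one_pos
    simpa using this
  refine MeasureTheory.integral_mono (hi ha) (hi hb) fun y => ?_
  apply one_div_le_one_div_of_le
  · positivity
  · apply Real.sqrt_le_sqrt
    gcongr

lemma M_theta {r : ℝ} (h0 : 0 < r) (h1 : r < 1) : M (th3 r ^ 2) (th4 r ^ 2) = 1 := by
  have hinv : ∀ n : ℕ, M (th3 (r ^ (2 ^ n)) ^ 2) (th4 (r ^ (2 ^ n)) ^ 2) =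
      M (th3 r ^ 2) (th4 r ^ 2) := by
    intro n
    induction n with
    | zero => simp
    | succ n ih =>
      rw [← ih]
      have p3 := th3_ge_one (iter_pos h0 h1 n) (iter_lt h0 h1 n)
      have p4 := th4_pos (iter_pos h0 h1 n) (iter_lt h0 h1 n)
      rw [M_landen (a := th3 (r ^ (2 ^ n)) ^ 2) (by positivity) (by positivity)]
      have e1 : (th3 (r ^ (2 ^ n)) ^ 2 + th4 (r ^ (2 ^ n)) ^ 2) / 2 =
          th3 (r ^ (2 ^ (n + 1))) ^ 2 := by
        rw [th4_sq' (iter_pos h0 h1 n) (iter_lt h0 h1 n), iter_succ h0 h1]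
        ring
      have e2 : √(th3 (r ^ (2 ^ n)) ^ 2 * th4 (r ^ (2 ^ n)) ^ 2) =
          th4 (r ^ (2 ^ (n + 1))) ^ 2 := by
        rw [← mul_pow, Real.sqrt_sq (by positivity),
          th3_mul_th4 (iter_pos h0 h1 n) (iter_lt h0 h1 n), iter_succ h0 h1]
      rw [e1, e2]
  have hlo : ∀ n : ℕ, 1 / th3 (r ^ (2 ^ n)) ^ 2 ≤ M (th3 r ^ 2) (th4 r ^ 2) := by
    intro n
    rw [← hinv n]
    have p3 := th3_ge_one (iter_pos h0 h1 n) (iter_lt h0 h1 n)
    have p4 := th4_pos (iter_pos h0 h1 n) (iter_lt h0 h1 n)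
    rw [← M_self (by positivity), M_comm (th3 _ ^ 2) (th4 _ ^ 2)]
    exact M_mono (by positivity) (th4_le_th3 (iter_pos h0 h1 n) (iter_lt h0 h1 n)) (by positivity)
  have hhi : ∀ n : ℕ, M (th3 r ^ 2) (th4 r ^ 2) ≤ 1 / th4 (r ^ (2 ^ n)) ^ 2 := by
    intro n
    rw [← hinv n]
    have p3 := th3_ge_one (iter_pos h0 h1 n) (iter_lt h0 h1 n)
    have p4 := th4_pos (iter_pos h0 h1 n) (iter_lt h0 h1 n)
    rw [← M_self (c := th4 _ ^ 2) (by positivity)]
    exact M_mono (by positivity) (th4_le_th3 (iter_pos h0 h1 n) (iter_lt h0 h1 n)) (by positivity)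
  have t3 : Tendsto (fun n : ℕ => 1 / th3 (r ^ (2 ^ n)) ^ 2) atTop (𝓝 (1 / 1 ^ 2)) :=
    tendsto_const_nhds.div ((th3_iter h0 h1).pow 2) (by norm_num)
  have t4 : Tendsto (fun n : ℕ => 1 / th4 (r ^ (2 ^ n)) ^ 2) atTop (𝓝 (1 / 1)) :=
    tendsto_const_nhds.div (th4_iter_sq h0 h1) (by norm_num)
  norm_num at t3 t4
  apply le_antisymm
  · exact ge_of_tendsto' t4 (by simpa using hhi)
  · exact le_of_tendsto' t3 (by simpa using hlo)

/-- the walk generating function in terms of theta constants of nome `r` and `r ^ 3` -/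
theorem D_theta {r : ℝ} (h0 : 0 < r) (h1 : r < 1) :
    D (r ^ 2 * ps r ^ 2 * ps (r ^ 3) ^ 2 / (16 * (th3 r * th4 r * th3 (r ^ 3) * th4 (r ^ 3)))) =
      th3 r * th4 r * th3 (r ^ 3) * th4 (r ^ 3) := by
  have h30 : 0 < r ^ 3 := pow_pos h0 3
  have h31 : r ^ 3 < 1 := pow_lt_one₀ h0.le h1 three_ne_zero
  have a3 := th3_ge_one h0 h1
  have a4 := th4_pos h0 h1
  have b3 := th3_ge_one h30 h31
  have b4 := th4_pos h30 h31
  have hcub := cubic h0 h1
  have hja := jacobi4 h0 h1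
  have hjb := jacobi4 h30 h31
  have hMa := M_theta h0 h1
  have hMb := M_theta h30 h31
  set A3 := th3 r
  set A4 := th4 r
  set B3 := th3 (r ^ 3)
  set B4 := th4 (r ^ 3)
  have pa3 : 0 < A3 := by linarith
  have pb3 : 0 < B3 := by linarith
  set X := r ^ 2 * ps r ^ 2 * ps (r ^ 3) ^ 2 / (16 * (A3 * A4 * B3 * B4)) with hX
  have hXe : 16 * X * (A3 * A4 * B3 * B4) = (A3 * B3 - A4 * B4) ^ 2 := by
    rw [hcub, hX]
    field_simp
  have hX0 : 0 ≤ X := by rw [hX]; positivity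
  have hquart : (A3 * B3 - A4 * B4) ^ 4 = (A3 ^ 4 - A4 ^ 4) * (B3 ^ 4 - B4 ^ 4) := by
    rw [hcub, hja, hjb]
    ring
  -- the two hyperbolic parameters
  set x := 2 * Real.log (A3 / A4) with hx
  set y := 2 * Real.log (B3 / B4) with hy
  have ex : exp (x / 2) = A3 / A4 := by
    rw [hx, mul_div_cancel_left₀ _ two_ne_zero, Real.exp_log (by positivity)]
  have ey : exp (y / 2) = B3 / B4 := by
    rw [hy, mul_div_cancel_left₀ _ two_ne_zero, Real.exp_log (by positivity)]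
  have ex' : exp (-x / 2) = A4 / A3 := by
    rw [neg_div, Real.exp_neg, ex, inv_div]
  have ey' : exp (-y / 2) = B4 / B3 := by
    rw [neg_div, Real.exp_neg, ey, inv_div]
  have eex : exp x = (A3 / A4) ^ 2 := by
    rw [← ex, ← Real.exp_nat_mul]; congr 1; push_cast; ring
  have eey : exp y = (B3 / B4) ^ 2 := by
    rw [← ey, ← Real.exp_nat_mul]; congr 1; push_cast; ring
  have eex' : exp (-x) = (A4 / A3) ^ 2 := by
    rw [← ex', ← Real.exp_nat_mul]; congr 1; push_cast; ring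
  have eey' : exp (-y) = (B4 / B3) ^ 2 := by
    rw [← ey', ← Real.exp_nat_mul]; congr 1; push_cast; ring
  have hX' : X = (A3 * B3 - A4 * B4) ^ 2 / (16 * (A3 * A4 * B3 * B4)) := by
    rw [← hXe]
    field_simp
  have h1' : cosh x * cosh y = 1 + 32 * X + 64 * X ^ 2 := by
    rw [Real.cosh_eq, Real.cosh_eq, eex, eey, eex', eey', hX']
    field_simp
    ring_nf
    ring_nf at hquart
    linear_combination (256 : ℝ) * hquart
  have h2' : sinh x * sinh y = 64 * X ^ 2 := by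
    rw [Real.sinh_eq, Real.sinh_eq, eex, eey, eex', eey', hX']
    field_simp
    ring_nf
    ring_nf at hquart
    linear_combination (-256 : ℝ) * hquart
  rw [D_eq_prod hX0 h1' h2', ex, ey, ex', ey']
  have mA : M (A4 / A3) (A3 / A4) = A3 * A4 := by
    have := M_smul (a := A3 ^ 2) (b := A4 ^ 2) (l := 1 / (A3 * A4)) (by positivity) (by positivity)
      (by positivity)
    rw [hMa] at this
    have e1 : 1 / (A3 * A4) * A3 ^ 2 = A3 / A4 := by field_simp
    have e2 : 1 / (A3 * A4) * A4 ^ 2 = A4 / A3 := by field_simp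
    rw [e1, e2, M_comm] at this
    rw [this]
    field_simp
  have mB : M (B4 / B3) (B3 / B4) = B3 * B4 := by
    have := M_smul (a := B3 ^ 2) (b := B4 ^ 2) (l := 1 / (B3 * B4)) (by positivity) (by positivity)
      (by positivity)
    rw [hMb] at this
    have e1 : 1 / (B3 * B4) * B3 ^ 2 = B3 / B4 := by field_simp
    have e2 : 1 / (B3 * B4) * B4 ^ 2 = B4 / B3 := by field_simp
    rw [e1, e2, M_comm] at this
    rw [this]
    field_simp
  rw [mA, mB]
  ring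

end Pool.Agent.RV.A
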