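import Pool.Agent.Work.MP_5955e5_nt.A.Add

set_option autoImplicit false

namespace Pool.Agent.RV.A

open MeasureTheory Real Set

lemma M_one_one : M 1 1 = 1 := by
  unfold M
  have h : ∀ y : ℝ, 1 / √((1 ^ 2 + y ^ 2) * (1 ^ 2 + y ^ 2)) = (1 + y ^ 2)⁻¹ := by
    intro y
    rw [one_pow, Real.sqrt_mul_self (by positivity), one_div]
  simp_rw [h]
  rw [integral_univ_inv_one_add_sq]
  exact one_div_mul_cancel Real.pi_pos.ne'

lemma M_self {c : ℝ} (hc : 0 < c) : M c c = 1 / c := by
  have h := M_smul one_pos one_pos hc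
  rwa [mul_one, M_one_one] at h

lemma circle_poisson {α β : ℝ} (hα : 0 < α) (hβ : 0 < β) :
    ∫ s in (0 : ℝ)..1, 1 / (α * cos (π * s) ^ 2 + β * sin (π * s) ^ 2) = 1 / √(α * β) := by
  have h := circle_quad hα hβ hα hβ
  rw [mul_comm β α, M_self (by positivity)] at h
  rw [← h]
  congr 1
  ext s
  rw [Real.sqrt_mul_self (by positivity)]

/-- the exponential `t ↦ exp (2 π i t)` -/
noncomputable def e (t : ℝ) : ℂ := Complex.exp (2 * π * Complex.I * t)

lemma e_add (s t : ℝ) : e (s + t) = e s * e t := by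
  unfold e
  rw [← Complex.exp_add]
  congr 1
  push_cast
  ring

lemma e_eq (t : ℝ) : e t = ⟨cos (2 * π * t), sin (2 * π * t)⟩ := by
  unfold e
  rw [show 2 * (π : ℂ) * Complex.I * t = ((2 * π * t : ℝ) : ℂ) * Complex.I by push_cast; ring]
  apply Complex.ext
  · rw [Complex.exp_ofReal_mul_I_re]
  · rw [Complex.exp_ofReal_mul_I_im]

lemma e_one_add (t : ℝ) : 1 + e (2 * t) = (2 * cos (2 * π * t) : ℝ) * e t := by
  rw [e_eq, e_eq]
  have h1 : cos (2 * π * (2 * t)) = 2 * cos (2 * π * t) ^ 2 - 1 := by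
    rw [show 2 * π * (2 * t) = 2 * (2 * π * t) by ring, Real.cos_two_mul]
  have h2 : sin (2 * π * (2 * t)) = 2 * sin (2 * π * t) * cos (2 * π * t) := by
    rw [show 2 * π * (2 * t) = 2 * (2 * π * t) by ring, Real.sin_two_mul]
  apply Complex.ext
  · simp only [Complex.add_re, Complex.one_re, Complex.mul_re, Complex.ofReal_re,
      Complex.ofReal_im, zero_mul, sub_zero, h1]
    ring
  · simp only [Complex.add_im, Complex.one_im, Complex.mul_im, Complex.ofReal_re,
      Complex.ofReal_im, zero_mul, add_zero, zero_add, h2]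
    ring

lemma norm_e (t : ℝ) : ‖e t‖ = 1 := by
  unfold e
  rw [show 2 * (π : ℂ) * Complex.I * t = ((2 * π * t : ℝ) : ℂ) * Complex.I by push_cast; ring,
    Complex.norm_exp_ofReal_mul_I]

lemma e_periodic : Function.Periodic e 1 := by
  intro t
  rw [e_eq, e_eq]
  rw [mul_add, mul_one, Real.cos_add_two_pi, Real.sin_add_two_pi]

@[fun_prop]
lemma continuous_e : Continuous e := by
  unfold e
  fun_prop

/-- squared length of the walk with four unit steps -/
noncomputable def Z (a b c : ℝ) : ℝ := ‖1 + e a + e b + e c‖ ^ 2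

lemma norm_sq_add (A B t : ℝ) :
    ‖(A : ℂ) + (B : ℂ) * e t‖ ^ 2 = A ^ 2 + B ^ 2 + 2 * A * B * cos (2 * π * t) := by
  rw [e_eq, ← Complex.normSq_eq_norm_sq, Complex.normSq_apply]
  simp
  have := Real.sin_sq_add_cos_sq (2 * π * t)
  nlinarith

lemma Z_eq (a c d : ℝ) : Z a c (c + d) =
    (2 * cos (π * a)) ^ 2 + (2 * cos (π * d)) ^ 2 +
      2 * (2 * cos (π * a)) * (2 * cos (π * d)) * cos (2 * π * (c - (a / 2 - d / 2))) := by
  unfold Z
  rw [← norm_sq_add]
  have h1 : 1 + e a = ((2 * cos (π * a) : ℝ) : ℂ) * e (a / 2) := by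
    have := e_one_add (a / 2)
    rw [show 2 * (a / 2) = a by ring, show 2 * π * (a / 2) = π * a by ring] at this
    exact this
  have h2 : 1 + e d = ((2 * cos (π * d) : ℝ) : ℂ) * e (d / 2) := by
    have := e_one_add (d / 2)
    rw [show 2 * (d / 2) = d by ring, show 2 * π * (d / 2) = π * d by ring] at this
    exact this
  have h3 : 1 + e a + e c + e (c + d) = e (a / 2) * (((2 * cos (π * a) : ℝ) : ℂ) +
      ((2 * cos (π * d) : ℝ) : ℂ) * e (c - (a / 2 - d / 2))) := by
    calc 1 + e a + e c + e (c + d) = (1 + e a) + e c * (1 + e d) := by rw [e_add]; ring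
      _ = ((2 * cos (π * a) : ℝ) : ℂ) * e (a / 2) +
          ((2 * cos (π * d) : ℝ) : ℂ) * (e c * e (d / 2)) := by rw [h1, h2]; ring
      _ = _ := by
        rw [← e_add, mul_add, mul_left_comm (e (a / 2)), ← e_add]
        rw [show a / 2 + (c - (a / 2 - d / 2)) = c + d / 2 by ring]
        ring
  rw [h3, norm_mul, norm_e, one_mul]

lemma swap01 {F : ℝ → ℝ → ℝ} (hF : Continuous (Function.uncurry F)) :
    ∫ x in (0 : ℝ)..1, ∫ y in (0 : ℝ)..1, F x y = ∫ y in (0 : ℝ)..1, ∫ x in (0 : ℝ)..1, F x y := by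
  apply intervalIntegral_intervalIntegral_swap
  have hc : IsCompact (Icc (0 : ℝ) 1 ×ˢ Icc (0 : ℝ) 1) := isCompact_Icc.prod isCompact_Icc
  refine (hF.continuousOn.integrableOn_compact hc).mono_set ?_
  rw [uIoc_of_le zero_le_one]
  exact prod_mono Ioc_subset_Icc_self Ioc_subset_Icc_self

lemma circle_shift' {F : ℝ → ℝ} (hF : Function.Periodic F 1) (r : ℝ) :
    ∫ s in (0 : ℝ)..1, F (s + r) = ∫ s in (0 : ℝ)..1, F s := by
  have := circle_shift hF (-r)
  simpa using this

lemma circle_double {F : ℝ → ℝ} (hF : Function.Periodic F 1) (hc : Continuous F) (r : ℝ) :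
    ∫ s in (0 : ℝ)..1, F (r + 2 * s) = ∫ s in (0 : ℝ)..1, F s := by
  rw [intervalIntegral.integral_comp_add_mul (fun x => F x) two_ne_zero]
  have h1 := hF.intervalIntegral_add_eq r 0
  have h2 := hF.intervalIntegral_add_eq (r + 1) 0
  rw [← intervalIntegral.integral_add_adjacent_intervals (b := r + 1)
    (hc.intervalIntegrable _ _) (hc.intervalIntegrable _ _)]
  rw [show r + 2 * 0 = r by ring, show r + 2 * 1 = r + 1 + 1 by ring, h1, h2]
  simp only [zero_add, smul_eq_mul]
  ring

/-- the average of a biperiodic function is invariant under `(u, v) ↦ (u + v, u - v)`. -/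
lemma torus_rot {H : ℝ → ℝ → ℝ} (hc : Continuous (Function.uncurry H))
    (h1 : ∀ a, Function.Periodic (H a) 1) (h2 : ∀ d, Function.Periodic (fun a => H a d) 1) :
    ∫ a in (0 : ℝ)..1, ∫ d in (0 : ℝ)..1, H a d =
      ∫ v in (0 : ℝ)..1, ∫ u in (0 : ℝ)..1, H (u + v) (u - v) := by
  have hH : ∀ x y : ℝ → ℝ, Continuous x → Continuous y → Continuous fun t => H (x t) (y t) := by
    intro x y hx hy
    exact hc.comp (hx.prodMk hy)
  have e1 : ∀ v : ℝ, ∫ u in (0 : ℝ)..1, H (u + v) (u - v) =
      ∫ u in (0 : ℝ)..1, H (u + 2 * v) u := by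
    intro v
    have hp : Function.Periodic (fun u => H (u + 2 * v) u) 1 := by
      intro u
      simp only
      rw [h1, show u + 1 + 2 * v = u + 2 * v + 1 by ring]
      exact h2 u (u + 2 * v)
    rw [← circle_shift hp v]
    congr 1
    ext u
    congr 1
    ring
  simp_rw [e1]
  rw [swap01 (F := fun v u => H (u + 2 * v) u), swap01 hc]
  · congr 1
    ext u
    exact (circle_double (h2 u) (hH _ _ continuous_id continuous_const) u).symm
  · have : Continuous fun p : ℝ × ℝ => ((p.2 + 2 * p.1, p.2) : ℝ × ℝ) := by fun_prop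
    exact hc.comp this

lemma resolvent_pos {X : ℝ} (hX : 0 ≤ X) (a b c : ℝ) : 0 < 1 + X * Z a b c := by
  have : 0 ≤ Z a b c := by unfold Z; positivity
  positivity

@[fun_prop]
lemma continuous_Z {α : Type*} [TopologicalSpace α] {a b c : α → ℝ} (ha : Continuous a)
    (hb : Continuous b) (hc : Continuous c) : Continuous fun t => Z (a t) (b t) (c t) := by
  unfold Z
  fun_prop

/-- generating function of the walk -/
noncomputable def D (X : ℝ) : ℝ :=
  ∫ a in (0 : ℝ)..1, ∫ b in (0 : ℝ)..1, ∫ c in (0 : ℝ)..1, 1 / (1 + X * Z a b c)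

lemma D_eq_two {X : ℝ} (hX : 0 ≤ X) : D X = ∫ a in (0 : ℝ)..1, ∫ d in (0 : ℝ)..1,
    1 / √((1 + X * (2 * cos (π * a) + 2 * cos (π * d)) ^ 2) *
      (1 + X * (2 * cos (π * a) - 2 * cos (π * d)) ^ 2)) := by
  unfold D
  congr 1
  ext a
  have e1 : ∀ b : ℝ, ∫ c in (0 : ℝ)..1, 1 / (1 + X * Z a b c) =
      ∫ d in (0 : ℝ)..1, 1 / (1 + X * Z a b (b + d)) := by
    intro b
    have hp : Function.Periodic (fun c => 1 / (1 + X * Z a b c)) 1 := by
      intro c
      simp only [Z, e_periodic c]
    rw [← circle_shift' hp b]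
    simp only [add_comm]
  simp_rw [e1]
  rw [swap01]
  · congr 1
    ext d
    simp_rw [Z_eq]
    set A := 2 * cos (π * a) with hA
    set B := 2 * cos (π * d) with hB
    refine (circle_shift (F := fun s : ℝ => 1 / (1 + X * (A ^ 2 + B ^ 2 + 2 * A * B *
      cos (2 * π * s)))) ?_ _).trans ?_
    · intro s
      simp only [mul_add, mul_one, Real.cos_add_two_pi]
    · rw [← circle_poisson (by positivity) (by positivity)]
      congr 1
      ext s
      congr 1
      rw [show 2 * π * s = 2 * (π * s) by ring, Real.cos_two_mul]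
      have e : sin (π * s) ^ 2 = 1 - cos (π * s) ^ 2 := by
        have := Real.sin_sq_add_cos_sq (π * s); linarith
      rw [e]
      ring
  · have hc : Continuous fun p : ℝ × ℝ => Z a p.1 (p.1 + p.2) := by fun_prop
    apply Continuous.div continuous_const (by fun_prop)
    intro p
    exact (resolvent_pos hX _ _ _).ne'

lemma D_eq_three {X : ℝ} (hX : 0 ≤ X) : D X = ∫ v in (0 : ℝ)..1, ∫ u in (0 : ℝ)..1,
    1 / √((1 + 16 * X * (cos (π * u) * cos (π * v)) ^ 2) *
      (1 + 16 * X * (sin (π * u) * sin (π * v)) ^ 2)) := by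
  rw [D_eq_two hX, torus_rot]
  · congr 1
    ext v
    congr 1
    ext u
    have h1 : 2 * cos (π * (u + v)) + 2 * cos (π * (u - v)) = 4 * (cos (π * u) * cos (π * v)) := by
      rw [mul_add, mul_sub, Real.cos_add, Real.cos_sub]; ring
    have h2 : 2 * cos (π * (u + v)) - 2 * cos (π * (u - v)) =
        -(4 * (sin (π * u) * sin (π * v))) := by
      rw [mul_add, mul_sub, Real.cos_add, Real.cos_sub]; ring
    rw [h1, h2]
    congr 3 <;> ring
  · have : Continuous fun p : ℝ × ℝ => 1 / √((1 + X * (2 * cos (π * p.1) + 2 * cos (π * p.2)) ^ 2) *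
      (1 + X * (2 * cos (π * p.1) - 2 * cos (π * p.2)) ^ 2)) := by
      apply Continuous.div continuous_const (by fun_prop)
      intro p
      positivity
    exact this
  · intro a d
    simp only
    rw [mul_add π, mul_one, Real.cos_add_pi]
    congr 2
    ring
  · intro d a
    simp only
    rw [mul_add π, mul_one, Real.cos_add_pi]
    congr 2
    ring

/-- the generating function of the four step walk is a product of two elliptic integrals -/
theorem D_eq_prod {X x y : ℝ} (hX : 0 ≤ X) (h1 : cosh x * cosh y = 1 + 32 * X + 64 * X ^ 2)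
    (h2 : sinh x * sinh y = 64 * X ^ 2) :
    D X = M (exp (-x / 2)) (exp (x / 2)) * M (exp (-y / 2)) (exp (y / 2)) := by
  rw [D_eq_three hX]
  have hcs : ∀ t : ℝ, 0 < cosh x - sinh x * cos t := by
    intro t
    have h : |cos t| ≤ 1 := Real.abs_cos_le_one t
    have h3 : |sinh x| < cosh x := by
      apply abs_lt_of_sq_lt_sq _ (Real.cosh_pos x).le
      have := Real.cosh_sq_sub_sinh_sq x
      linarith
    have h4 : |sinh x * cos t| < cosh x := by
      rw [abs_mul]
      calc |sinh x| * |cos t| ≤ |sinh x| * 1 := by gcongr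
        _ < cosh x := by linarith
    linarith [(abs_lt.mp h4).2]
  have hcs2 : ∀ t : ℝ, 0 < cosh y - sinh y * cos t := by
    intro t
    have h : |cos t| ≤ 1 := Real.abs_cos_le_one t
    have h3 : |sinh y| < cosh y := by
      apply abs_lt_of_sq_lt_sq _ (Real.cosh_pos y).le
      have := Real.cosh_sq_sub_sinh_sq y
      linarith
    have h4 : |sinh y * cos t| < cosh y := by
      rw [abs_mul]
      calc |sinh y| * |cos t| ≤ |sinh y| * 1 := by gcongr
        _ < cosh y := by linarith
    linarith [(abs_lt.mp h4).2]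
  have e1 : ∀ v : ℝ, ∫ u in (0 : ℝ)..1, 1 / √((1 + 16 * X * (cos (π * u) * cos (π * v)) ^ 2) *
      (1 + 16 * X * (sin (π * u) * sin (π * v)) ^ 2)) =
      ∫ s in (0 : ℝ)..1, 1 / √((cosh x - sinh x * cos (2 * π * s)) *
      (cosh y - sinh y * cos (2 * π * (s - 2 * v)))) := by
    intro v
    rw [circle_add, h1, h2]
    have hq := circle_quad (P := 1 + 16 * X * cos (π * v) ^ 2) (Q := 1) (R := 1)
      (S := 1 + 16 * X * sin (π * v) ^ 2) (by positivity) one_pos one_pos (by positivity)
    rw [mul_one, Real.sqrt_one, M_comm] at hq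
    have h3 : (1 + 16 * X * cos (π * v) ^ 2) * (1 + 16 * X * sin (π * v) ^ 2) =
        (1 + 32 * X + 64 * X ^ 2 - 64 * X ^ 2 * cos (2 * π * (2 * v)) + 1) / 2 := by
      rw [show 2 * π * (2 * v) = 2 * (2 * (π * v)) by ring, Real.cos_two_mul, Real.cos_two_mul]
      have e : sin (π * v) ^ 2 = 1 - cos (π * v) ^ 2 := by
        have := Real.sin_sq_add_cos_sq (π * v); linarith
      rw [e]
      ring
    rw [← h3, ← hq]
    congr 1
    ext u
    congr 3
    · have e : cos (π * u) ^ 2 + sin (π * u) ^ 2 = 1 := by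
        have := Real.sin_sq_add_cos_sq (π * u); linarith
      calc _ = (cos (π * u) ^ 2 + sin (π * u) ^ 2) +
            16 * X * (cos (π * u) * cos (π * v)) ^ 2 := by rw [e]
        _ = _ := by ring
    · have e : cos (π * u) ^ 2 + sin (π * u) ^ 2 = 1 := by
        have := Real.sin_sq_add_cos_sq (π * u); linarith
      calc _ = (cos (π * u) ^ 2 + sin (π * u) ^ 2) +
            16 * X * (sin (π * u) * sin (π * v)) ^ 2 := by rw [e]
        _ = _ := by ring
  simp_rw [e1]
  rw [swap01]
  · have e2 : ∀ s : ℝ, ∫ v in (0 : ℝ)..1, 1 / √((cosh x - sinh x * cos (2 * π * s)) *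
      (cosh y - sinh y * cos (2 * π * (s - 2 * v)))) =
      1 / √(cosh x - sinh x * cos (2 * π * s)) * M (exp (-y / 2)) (exp (y / 2)) := by
      intro s
      rw [← circle_one y]
      have hp : Function.Periodic (fun t : ℝ => 1 / √(cosh y - sinh y * cos (2 * π * t))) 1 := by
        intro t
        simp only [mul_add, mul_one, Real.cos_add_two_pi]
      have hcont : Continuous (fun t : ℝ => 1 / √(cosh y - sinh y * cos (2 * π * t))) := by
        apply Continuous.div continuous_const (by fun_prop)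
        intro p
        exact (Real.sqrt_pos.mpr (hcs2 _)).ne'
      rw [← circle_double hp hcont (-s), ← intervalIntegral.integral_const_mul]
      congr 1
      ext v
      rw [Real.sqrt_mul (hcs _).le]
      rw [show 2 * π * (s - 2 * v) = -(2 * π * (-s + 2 * v)) by ring, Real.cos_neg]
      rw [one_div_mul_one_div]
    simp_rw [e2]
    rw [intervalIntegral.integral_mul_const, circle_one]
  · have : Continuous fun p : ℝ × ℝ => 1 / √((cosh x - sinh x * cos (2 * π * p.2)) *
      (cosh y - sinh y * cos (2 * π * (p.2 - 2 * p.1)))) := by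
      apply Continuous.div continuous_const (by fun_prop)
      intro p
      exact (Real.sqrt_pos.mpr (mul_pos (hcs _) (hcs2 _))).ne'
    exact this

end Pool.Agent.RV.A
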